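import Mathlib

/-! # Elementary asymptotics -/

set_option autoImplicit false

namespace Pool.Agent.H41.LD

open Filter Topology

lemma tendsto_log_nat : Tendsto (fun n : ℕ => Real.log n) atTop atTop :=
  Real.tendsto_log_atTop.comp tendsto_natCast_atTop_atTop

lemma ev_pow_exp {β : ℝ} (hβ : 0 < β) (C : ℝ) (k : ℕ) :
    ∀ᶠ u : ℝ in atTop, C * u ^ k ≤ Real.exp (β * u) := by
  have h1 := isLittleO_pow_exp_pos_mul_atTop (k := k) hβ
  have h2 := h1.bound (show 0 < 1 / (|C| + 1) by positivity)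
  filter_upwards [h2, eventually_ge_atTop 0] with u hu hu0
  rw [Real.norm_of_nonneg (pow_nonneg hu0 k), Real.norm_of_nonneg (Real.exp_pos _).le] at hu
  have h3 : (|C| + 1) * u ^ k ≤ Real.exp (β * u) := by
    rw [div_mul_eq_mul_div, one_mul, le_div_iff₀ (by positivity)] at hu
    linarith
  have h4 : C * u ^ k ≤ (|C| + 1) * u ^ k := by
    apply mul_le_mul_of_nonneg_right _ (pow_nonneg hu0 k)
    have := le_abs_self C
    linarith
  exact h4.trans h3

lemma ev_log {β : ℝ} (hβ : 0 < β) (C : ℝ) (k : ℕ) :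
    ∀ᶠ X : ℕ in atTop, C * Real.log X ^ k ≤ Real.exp (β * Real.log X) :=
  tendsto_log_nat.eventually (ev_pow_exp hβ C k)

lemma exp_log_nat {X : ℕ} (hX : 0 < X) : Real.exp (Real.log X) = X :=
  Real.exp_log (by exact_mod_cast hX)

/-- powers of the logarithm are small compared with `X` -/
lemma ev_log_le (C : ℝ) (k : ℕ) : ∀ᶠ X : ℕ in atTop, C * Real.log X ^ k ≤ X := by
  filter_upwards [ev_log one_pos C k, eventually_gt_atTop 0] with X h1 h2
  rwa [one_mul, exp_log_nat h2] at h1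

lemma ev_log_ge (C : ℝ) : ∀ᶠ X : ℕ in atTop, C ≤ Real.log X :=
  tendsto_log_nat.eventually_ge_atTop C

lemma one_sub_ge_exp {y : ℝ} (hy1 : y < 1) : Real.exp (-(y / (1 - y))) ≤ 1 - y := by
  have h1 : 0 < 1 - y := by linarith
  have h2 := Real.one_sub_inv_le_log_of_pos h1
  have h3 : -(y / (1 - y)) ≤ Real.log (1 - y) := by
    refine le_trans (le_of_eq ?_) h2
    field_simp
    ring
  calc Real.exp (-(y / (1 - y))) ≤ Real.exp (Real.log (1 - y)) := Real.exp_le_exp.2 h3
    _ = 1 - y := Real.exp_log h1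

lemma one_sub_pow_ge_exp {y : ℝ} (hy1 : y < 1) (n : ℕ) :
    Real.exp (-(n * (y / (1 - y)))) ≤ (1 - y) ^ n := by
  have h1 := pow_le_pow_left₀ (Real.exp_pos _).le (one_sub_ge_exp hy1) n
  rw [← Real.exp_nat_mul] at h1
  refine le_trans (le_of_eq ?_) h1
  congr 1
  ring

lemma one_sub_pow_le_exp {q : ℝ} (hq1 : q ≤ 1) (n : ℕ) : (1 - q) ^ n ≤ Real.exp (-(n * q)) := by
  have h1 : 1 - q ≤ Real.exp (-q) := by
    have := Real.add_one_le_exp (-q)
    linarith
  have h2 := pow_le_pow_left₀ (by linarith) h1 n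
  rw [← Real.exp_nat_mul] at h2
  refine h2.trans (le_of_eq ?_)
  congr 1
  ring

end Pool.Agent.H41.LD
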