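import Pool.Agent.H41.LD.Real
import Pool.Agent.H41.LD.Ev

/-! # Large empty windows in random sets with delayed conditional densities -/

set_option autoImplicit false

namespace Pool.Agent.H41.LD

open MeasureTheory Filter Topology ProbabilityTheory
open Pool.Agent.H34.ND (Free cramerConst)

section

variable {Ω : Type*} {E : ℕ → Set Ω}

lemma past_mono {i j : ℕ} (h : i ≤ j) : Past E i ≤ Past E j := by
  apply MeasurableSpace.generateFrom_mono
  rintro s ⟨k, hk, rfl⟩
  exact ⟨k, hk.trans h, rfl⟩

lemma free_eq_avoid (a b : ℕ) : Free E a b = Avoid E (Finset.Ioc a b) := by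
  ext ω
  simp only [Free, Avoid, Finset.mem_Ioc]
  exact ⟨fun h n hn => h n hn.1 hn.2, fun h n h1 h2 => h n ⟨h1, h2⟩⟩

lemma free_past (a b : ℕ) : MeasurableSet[Past E b] (Free E a b) := by
  have h1 : Free E a b = ⋂ n ∈ Finset.Ioc a b, (E n)ᶜ := by
    ext ω
    simp [Free]
  rw [h1]
  refine Finset.measurableSet_biInter _ fun n hn => MeasurableSet.compl ?_
  exact MeasurableSpace.measurableSet_generateFrom ⟨n, (Finset.mem_Ioc.1 hn).2, rfl⟩

lemma free_future (a b : ℕ) : MeasurableSet[Future E a] (Free E a b) := by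
  have h1 : Free E a b = ⋂ n ∈ Finset.Ioc a b, (E n)ᶜ := by
    ext ω
    simp [Free]
  rw [h1]
  refine Finset.measurableSet_biInter _ fun n hn => MeasurableSet.compl ?_
  exact MeasurableSpace.measurableSet_generateFrom ⟨n, (Finset.mem_Ioc.1 hn).1, rfl⟩

lemma event_past {n k : ℕ} (h : n ≤ k) : MeasurableSet[Past E k] (E n) :=
  MeasurableSpace.measurableSet_generateFrom ⟨n, h, rfl⟩

lemma event_future {n k : ℕ} (h : k < n) : MeasurableSet[Future E k] (E n) :=
  MeasurableSpace.measurableSet_generateFrom ⟨n, h, rfl⟩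

lemma free_self (a : ℕ) : Free E a a = Set.univ := by
  ext ω
  simp only [Free, Set.mem_univ, iff_true]
  intro n h1 h2
  omega

end

variable {Ω : Type*} [mΩ : MeasurableSpace Ω] {P : Measure Ω} {E : ℕ → Set Ω} {m : ℕ → ℕ}
  {p : ℕ → ℝ}

lemma past_le (hE : ∀ n, MeasurableSet (E n)) (n : ℕ) : Past E n ≤ mΩ := by
  apply MeasurableSpace.generateFrom_le
  rintro s ⟨k, _, rfl⟩
  exact hE k

lemma future_le (hE : ∀ n, MeasurableSet (E n)) (n : ℕ) : Future E n ≤ mΩ := by
  apply MeasurableSpace.generateFrom_le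
  rintro s ⟨k, _, rfl⟩
  exact hE k

lemma indep_real {m₁ m₂ : MeasurableSpace Ω} (h : Indep m₁ m₂ P) {s t : Set Ω}
    (hs : MeasurableSet[m₁] s) (ht : MeasurableSet[m₂] t) :
    P.real (s ∩ t) = P.real s * P.real t := by
  rw [measureReal_def, (Indep_iff m₁ m₂ P).1 h s t hs ht, ENNReal.toReal_mul, ← measureReal_def,
    ← measureReal_def]

lemma RangeDep.delayed (h : RangeDep P E m) : Delayed P E m fun n => P.real (E n) := by
  refine ⟨h.meas, fun j n hn F hF => ?_⟩
  rw [Set.inter_comm, indep_real (h.indep j) hF (event_future hn), mul_comm]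

variable [IsProbabilityMeasure P]

lemma Delayed.free_ge (h : Delayed P E m p) {a g H M : ℕ} {pb y : ℝ} (hg : g ≤ a) (hMg : M ≤ g)
    (hm : ∀ j, a - g ≤ j → j ≤ a + H → m j ≤ M) (hp : ∀ n, a < n → n ≤ a + H → p n ≤ pb)
    (hy0 : 0 ≤ y) (hy1 : y < 1) (hpb : pb ≤ y * (1 - y) ^ M) {F : Set Ω}
    (hF : MeasurableSet[Past E (a - g)] F) :
    (1 - y) ^ H * P.real F ≤ P.real (F ∩ Free E a (a + H)) := by
  set G : ℕ → ℝ := fun k => P.real (F ∩ Free E a (a + k)) with hG
  have h0 : G 0 = P.real F := by
    simp only [hG, Nat.add_zero, free_self, Set.inter_univ]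
  rw [← h0]
  refine pow_le_of_rec (g := G) hy0 hy1 (fun _ _ => measureReal_nonneg) hpb ?_ H le_rfl
  intro k hk
  have hcond : P.real (E (a + k + 1) ∩ (F ∩ Free E a (a + (k - M)))) ≤
      p (a + k + 1) * P.real (F ∩ Free E a (a + (k - M))) := by
    rcases le_or_gt M k with hMk | hMk
    · apply h.cond (a + (k - M))
      · have := hm (a + (k - M)) (by omega) (by omega)
        omega
      · exact MeasurableSet.inter (past_mono (by omega) F hF) (free_past _ _)
    · have hk0 : a + (k - M) = a := by omega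
      rw [hk0, free_self, Set.inter_univ]
      apply h.cond (a - g) _ _ F hF
      have := hm (a - g) le_rfl (by omega)
      omega
  have hsub : F ∩ Free E a (a + k) ⊆ (F ∩ Free E a (a + (k + 1))) ∪
      (E (a + k + 1) ∩ (F ∩ Free E a (a + (k - M)))) := by
    rintro ω ⟨h1, h2⟩
    by_cases h3 : ω ∈ E (a + k + 1)
    · right
      exact ⟨h3, h1, fun n h4 h5 => h2 n h4 (by omega)⟩
    · left
      refine ⟨h1, fun n h4 h5 => ?_⟩
      rcases Nat.lt_or_ge (a + k) n with h6 | h6
      · obtain rfl : n = a + k + 1 := by omega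
        exact h3
      · exact h2 n h4 h6
  have h1 : G k ≤ G (k + 1) + P.real (E (a + k + 1) ∩ (F ∩ Free E a (a + (k - M)))) :=
    (measureReal_mono hsub).trans (measureReal_union_le _ _)
  have h2 := mul_le_mul_of_nonneg_right (hp (a + k + 1) (by omega) (by omega))
    (measureReal_nonneg (μ := P) (s := F ∩ Free E a (a + (k - M))))
  have h3 : G (k - M) = P.real (F ∩ Free E a (a + (k - M))) := rfl
  rw [h3]
  linarith

lemma windows (hE : ∀ n, MeasurableSet (E n)) {A g H K : ℕ} {q : ℝ} (hA : g ≤ A) (hq1 : q ≤ 1)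
    (hq : ∀ i < K, ∀ F, MeasurableSet[Past E (A + i * (H + g) - g)] F →
      q * P.real F ≤ P.real (F ∩ Free E (A + i * (H + g)) (A + i * (H + g) + H))) :
    P.real {ω | ∀ i < K, ω ∉ Free E (A + i * (H + g)) (A + i * (H + g) + H)} ≤ (1 - q) ^ K := by
  set B : ℕ → Set Ω := fun k =>
    {ω | ∀ i < k, ω ∉ Free E (A + i * (H + g)) (A + i * (H + g) + H)} with hB
  have hsucc : ∀ k, B (k + 1) = B k \ Free E (A + k * (H + g)) (A + k * (H + g) + H) := by
    intro k
    ext ω
    constructor
    · intro h1
      exact ⟨fun i hi => h1 i (by omega), h1 k (by omega)⟩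
    · rintro ⟨h1, h2⟩ i hi
      rcases Nat.lt_or_ge i k with h3 | h3
      · exact h1 i h3
      · obtain rfl : i = k := by omega
        exact h2
  have hmeas : ∀ k, MeasurableSet[Past E (A + k * (H + g) - g)] (B k) := by
    intro k
    induction k with
    | zero =>
      have : B 0 = Set.univ := by
        ext ω
        simp [hB]
      rw [this]
      exact MeasurableSet.univ
    | succ k ih =>
      rw [hsucc]
      have h1 : A + (k + 1) * (H + g) - g = A + k * (H + g) + H := by
        have : (k + 1) * (H + g) = k * (H + g) + (H + g) := by ring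
        omega
      rw [h1]
      exact MeasurableSet.diff (past_mono (by omega) _ ih) (free_past _ _)
  have key : ∀ k ≤ K, P.real (B k) ≤ (1 - q) ^ k := by
    intro k
    induction k with
    | zero => intro _; simp
    | succ k ih =>
      intro hk
      have h1 := ih (by omega)
      have h2 := hq k (by omega) (B k) (hmeas k)
      have h3 : P.real (B (k + 1)) = P.real (B k) -
          P.real (B k ∩ Free E (A + k * (H + g)) (A + k * (H + g) + H)) := by
        rw [hsucc, ← Set.diff_inter_self_eq_diff, Set.inter_comm,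
          measureReal_diff Set.inter_subset_left]
        exact (past_le hE _ _ (hmeas k)).inter (past_le hE _ _ (free_past _ _))
      rw [h3]
      calc P.real (B k) - P.real (B k ∩ Free E (A + k * (H + g)) (A + k * (H + g) + H))
          ≤ (1 - q) * P.real (B k) := by linarith
        _ ≤ (1 - q) * (1 - q) ^ k := mul_le_mul_of_nonneg_left h1 (by linarith)
        _ = (1 - q) ^ (k + 1) := by ring
  exact key K le_rfl

/-- the length of the window `(x, x + lam * (log X) ^ 2]`, rounded up -/
noncomputable def wlen (lam : ℝ) (X : ℕ) : ℕ := ⌊lam * Real.log X ^ 2⌋₊ + 1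

/-- For all large `X` there is an empty window of length `lam * (log X) ^ 2` in `[X / 2, X]`. -/
def HasGaps (A : Set ℕ) (lam : ℝ) : Prop :=
  ∀ᶠ X : ℕ in atTop, ∃ x : ℕ, (X : ℝ) / 2 ≤ x ∧ (x : ℝ) + lam * Real.log X ^ 2 ≤ X ∧
    ∀ n : ℕ, x < n → (n : ℝ) ≤ x + lam * Real.log X ^ 2 → n ∉ A

lemma exists_windows (hE : ∀ n, MeasurableSet (E n)) {lam α : ℝ} (hlam : 0 ≤ lam) (hα : α < 1)
    (h : ∀ᶠ X : ℕ in atTop, ∀ a : ℕ, (X : ℝ) / 2 ≤ a → a ≤ X → wlen 1 X ≤ a →
      ∀ F, MeasurableSet[Past E (a - wlen 1 X)] F →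
        Real.exp (-(α * Real.log X)) * P.real F ≤ P.real (F ∩ Free E a (a + wlen lam X))) :
    ∀ᵐ ω ∂P, HasGaps {n | ω ∈ E n} lam := by
  set A : ℕ → ℕ := fun X => X / 2 + 1 + wlen 1 X with hA
  set D : ℕ → ℕ := fun X => wlen lam X + wlen 1 X with hD
  set K : ℕ → ℕ := fun X => (X - A X) / D X with hK
  set B : ℕ → Set Ω := fun X =>
    {ω | ∀ i < K X, ω ∉ Free E (A X + i * D X) (A X + i * D X + wlen lam X)} with hB
  have hD1 : ∀ X, 1 ≤ D X := fun X => by simp only [hD, wlen]; omega
  have hKle : ∀ X, A X ≤ X → ∀ i < K X, A X + i * D X + D X ≤ X := by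
    intro X hX i hi
    have h1 : (i + 1) * D X ≤ K X * D X := Nat.mul_le_mul_right _ hi
    have h2 : K X * D X ≤ X - A X := Nat.div_mul_le_self _ _
    have h3 : (i + 1) * D X = i * D X + D X := by ring
    omega
  -- numerical estimates
  have hnum : ∀ᶠ X : ℕ in atTop, A X ≤ X ∧ 2 * Real.log X ≤
      K X * Real.exp (-(α * Real.log X)) := by
    filter_upwards [ev_log_le (16 * (lam + 4)) 2, ev_log (sub_pos.2 hα) (16 * (lam + 4)) 3,
      ev_log_ge 2, eventually_ge_atTop 100] with X h1 h2 h3 h4
    have hX0 : (100:ℝ) ≤ X := by exact_mod_cast h4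
    have hL : 4 ≤ Real.log X ^ 2 := by nlinarith
    have hD2 : (D X : ℝ) ≤ (lam + 3) * Real.log X ^ 2 := by
      have h5 : (⌊lam * Real.log X ^ 2⌋₊ : ℝ) ≤ lam * Real.log X ^ 2 :=
        Nat.floor_le (by positivity)
      have h6 : (⌊1 * Real.log X ^ 2⌋₊ : ℝ) ≤ 1 * Real.log X ^ 2 :=
        Nat.floor_le (by positivity)
      simp only [hD, wlen]
      push_cast
      nlinarith
    have hA2 : (A X : ℝ) ≤ X / 2 + (lam + 4) * Real.log X ^ 2 := by
      have h6 : (⌊1 * Real.log X ^ 2⌋₊ : ℝ) ≤ 1 * Real.log X ^ 2 :=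
        Nat.floor_le (by positivity)
      have h7 : ((X / 2 : ℕ) : ℝ) ≤ X / 2 := Nat.cast_div_le
      simp only [hA, wlen]
      push_cast
      nlinarith
    have hAX : (A X : ℝ) ≤ X := by nlinarith
    have hAX' : A X ≤ X := by exact_mod_cast hAX
    refine ⟨hAX', ?_⟩
    have hDpos : (0:ℝ) < D X := by
      have := hD1 X
      exact_mod_cast this
    have hK2 : (X : ℝ) / (8 * D X) ≤ K X := by
      have h8 : X - A X < (K X + 1) * D X := by
        have := Nat.lt_div_mul_add (a := X - A X) (b := D X) (hD1 X)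
        have h9 : (K X + 1) * D X = (X - A X) / D X * D X + D X := by
          simp only [hK]
          ring
        rw [h9]
        exact this
      have h9 : (X : ℝ) - A X < (K X + 1) * D X := by
        have : ((X - A X : ℕ) : ℝ) < ((K X + 1) * D X : ℕ) := by exact_mod_cast h8
        rw [Nat.cast_sub hAX'] at this
        push_cast at this
        exact this
      rw [div_le_iff₀ (by positivity)]
      nlinarith
    have hexp : Real.exp (-(α * Real.log X)) * X = Real.exp ((1 - α) * Real.log X) := by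
      nth_rewrite 2 [← exp_log_nat (show 0 < X by omega)]
      rw [← Real.exp_add]
      congr 1
      ring
    have h10 : 2 * Real.log X ≤ (X : ℝ) / (8 * D X) * Real.exp (-(α * Real.log X)) := by
      have h11 : (X : ℝ) / (8 * D X) * Real.exp (-(α * Real.log X)) =
          Real.exp ((1 - α) * Real.log X) / (8 * D X) := by
        rw [← hexp]
        ring
      rw [h11, le_div_iff₀ (by positivity)]
      refine le_trans ?_ h2
      have h12 : 2 * Real.log X * (8 * D X) ≤ 2 * Real.log X * (8 * ((lam + 3) * Real.log X ^ 2)) := by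
        apply mul_le_mul_of_nonneg_left _ (by linarith)
        linarith
      have h13 : 0 ≤ Real.log X ^ 3 := by positivity
      nlinarith
    exact h10.trans (mul_le_mul_of_nonneg_right hK2 (Real.exp_pos _).le)
  have hsum : Summable fun X : ℕ => P.real (B X) := by
    have h1 : ∀ᶠ X : ℕ in atTop, P.real (B X) ≤ ((X : ℝ) ^ 2)⁻¹ := by
      filter_upwards [h, hnum, ev_log_ge 1, eventually_gt_atTop 0] with X h1 h2 h3 h4
      have hq1 : Real.exp (-(α * Real.log X)) ≤ 1 ∨ 1 < Real.exp (-(α * Real.log X)) :=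
        le_or_gt _ _
      rcases hq1 with hq1 | hq1
      · have h5 := windows (P := P) hE (A := A X) (g := wlen 1 X) (H := wlen lam X) (K := K X)
          (q := Real.exp (-(α * Real.log X))) (by simp only [hA]; omega) hq1 ?_
        · refine h5.trans ((one_sub_pow_le_exp hq1 _).trans ?_)
          have h6 : ((X : ℝ) ^ 2)⁻¹ = Real.exp (-(2 * Real.log X)) := by
            rw [Real.exp_neg]
            congr 1
            rw [mul_comm, Real.exp_mul, exp_log_nat h4]
            norm_num
          rw [h6]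
          apply Real.exp_le_exp.2
          linarith [h2.2]
        · intro i hi F hF
          have h7 := hKle X h2.1 i hi
          have h8 : wlen lam X + wlen 1 X = D X := rfl
          rw [h8] at hF ⊢
          apply h1 _ _ _ _ F hF
          · have h9 : X ≤ 2 * (A X + i * D X) := by simp only [hA]; omega
            have h10 : (X : ℝ) ≤ 2 * ((A X + i * D X : ℕ) : ℝ) := by exact_mod_cast h9
            linarith
          · omega
          · simp only [hA]
            omega
      · -- impossible: the probability would exceed one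
        exfalso
        have hAX := h2.1
        have h9 : X ≤ 2 * A X := by simp only [hA]; omega
        have h10 : (X : ℝ) ≤ 2 * ((A X : ℕ) : ℝ) := by exact_mod_cast h9
        have h5 := h1 (A X) (by linarith) hAX (by simp only [hA]; omega) Set.univ MeasurableSet.univ
        rw [Set.univ_inter, probReal_univ, mul_one] at h5
        have h6 : P.real (Free E (A X) (A X + wlen lam X)) ≤ 1 := measureReal_le_one
        linarith
    have h2 : Summable fun X : ℕ => ((X : ℝ) ^ 2)⁻¹ := Real.summable_nat_pow_inv.2 (by norm_num)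
    apply Summable.of_norm_bounded_eventually_nat h2
    filter_upwards [h1] with X hX
    rwa [Real.norm_of_nonneg measureReal_nonneg]
  filter_upwards [Pool.Agent.H34.ND.bc_upper hsum] with ω hω
  filter_upwards [hω, hnum, eventually_gt_atTop 0] with X h1 h2 h3
  have h4 : ∃ i < K X, ω ∈ Free E (A X + i * D X) (A X + i * D X + wlen lam X) := by
    by_contra hcon
    push Not at hcon
    exact h1 hcon
  obtain ⟨i, hi, hfree⟩ := h4
  have h5 := hKle X h2.1 i hi
  have h6 : X ≤ 2 * (A X + i * D X) := by simp only [hA]; omega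
  have h7 : (X : ℝ) ≤ 2 * ((A X + i * D X : ℕ) : ℝ) := by exact_mod_cast h6
  have h8 : lam * Real.log X ^ 2 < (wlen lam X : ℝ) := by
    simp only [wlen]
    push_cast
    exact Nat.lt_floor_add_one _
  have h9 : ((A X + i * D X : ℕ) : ℝ) + D X ≤ X := by exact_mod_cast h5
  have h10 : (wlen lam X : ℝ) ≤ D X := by
    have : wlen lam X ≤ D X := by simp only [hD]; omega
    exact_mod_cast this
  refine ⟨A X + i * D X, by linarith, by linarith, ?_⟩
  intro n hn1 hn2 hn3
  refine hfree n hn1 ?_ hn3
  have h11 : (n : ℝ) < ((A X + i * D X + wlen lam X + 1 : ℕ) : ℝ) := by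
    push_cast at hn2 ⊢
    linarith
  have h12 : n < A X + i * D X + wlen lam X + 1 := by exact_mod_cast h11
  omega

end Pool.Agent.H41.LD
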