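import Pool.Agent.H41.LD.Zero

/-! # Random sets with independent blocks -/

set_option autoImplicit false
set_option linter.unusedSectionVars false

namespace Pool.Agent.H41.LD

open MeasureTheory Filter Topology ProbabilityTheory
open Pool.Agent.H34.ND (Free cramerConst)

/-- The parts of the random set in the blocks `(b j, b (j + 1)]` are independent, with the avoidance
functions `φ j`. -/
structure Blocks {Ω : Type*} [MeasurableSpace Ω] (P : Measure Ω) (E : ℕ → Set Ω) (b : ℕ → ℕ)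
    (φ : ℕ → Finset ℕ → ℝ) : Prop where
  mono : StrictMono b
  zero : b 0 = 0
  meas : ∀ n, MeasurableSet (E n)
  empty : ∀ j, φ j ∅ = 1
  nonneg : ∀ j, 0 ≤ φ j (Finset.Ioc (b j) (b (j + 1)))
  avoid : ∀ (S : Finset ℕ) (J : ℕ), (∀ s ∈ S, s ≤ b J) →
    P.real (Avoid E S) = ∏ j ∈ Finset.range J, φ j (S ∩ Finset.Ioc (b j) (b (j + 1)))

lemma exists_blocks' {b : ℕ → ℕ} (hb : StrictMono b) (hb0 : b 0 = 0) {φ : ℕ → Finset ℕ → ℝ}
    (h : ∀ j, Realizable (φ j) (Finset.Ioc (b j) (b (j + 1)))) :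
    ∃ (Ω : Type) (_ : MeasurableSpace Ω) (P : Measure Ω) (_ : IsProbabilityMeasure P)
      (E : ℕ → Set Ω), Blocks P E b φ := by
  obtain ⟨Ω, mΩ, P, hP, E, hE, hav⟩ := exists_blocks hb hb0 h
  refine ⟨Ω, mΩ, P, hP, E, hb, hb0, hE, fun j => ?_, fun j => ?_, hav⟩
  · obtain ⟨Ω', _, P', _, e, _, h'⟩ := h j
    rw [← h' ∅ (Finset.empty_subset _)]
    have : Avoid e ∅ = Set.univ := by
      ext ω
      simp [Avoid]
    rw [this, probReal_univ]
  · obtain ⟨Ω', _, P', _, e, _, h'⟩ := h j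
    rw [← h' _ (Finset.Subset.refl _)]
    exact measureReal_nonneg

lemma le_idx {b : ℕ → ℕ} (hb : StrictMono b) {j n : ℕ} (h : b j < n) : j ≤ idx b n := by
  classical
  exact Nat.le_findGreatest (((hb.id_le j).trans h.le)) h

variable {Ω : Type*} [mΩ : MeasurableSpace Ω] {P : Measure Ω} {E : ℕ → Set Ω}
  [IsProbabilityMeasure P] {b : ℕ → ℕ} {φ : ℕ → Finset ℕ → ℝ}

lemma Blocks.indep (h : Blocks P E b φ) {a c : ℕ}
    (hφ : ∀ (j : ℕ) (S T : Finset ℕ), (∀ s ∈ S, b j < s ∧ s ≤ b (j + 1) ∧ s ≤ a) →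
      (∀ t ∈ T, b j < t ∧ t ≤ b (j + 1) ∧ c < t) → S.Nonempty → T.Nonempty →
      φ j (S ∪ T) = φ j S * φ j T) : Indep (Past E a) (Future E c) P := by
  apply indep_of_avoid h.meas
  intro S T hS hT
  obtain ⟨J, hJ⟩ : ∃ J, ∀ s ∈ S ∪ T, s ≤ b J := by
    refine ⟨(S ∪ T).sup id, fun s hs => ?_⟩
    exact (Finset.le_sup (f := id) hs).trans (h.mono.id_le _)
  rw [h.avoid _ J hJ, h.avoid S J fun s hs => hJ s (Finset.mem_union_left _ hs),
    h.avoid T J fun t ht => hJ t (Finset.mem_union_right _ ht), ← Finset.prod_mul_distrib]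
  refine Finset.prod_congr rfl fun j _ => ?_
  rw [Finset.union_inter_distrib_right]
  rcases (S ∩ Finset.Ioc (b j) (b (j + 1))).eq_empty_or_nonempty with h1 | h1
  · rw [h1, Finset.empty_union, h.empty, one_mul]
  rcases (T ∩ Finset.Ioc (b j) (b (j + 1))).eq_empty_or_nonempty with h2 | h2
  · rw [h2, Finset.union_empty, h.empty, mul_one]
  apply hφ j _ _ _ _ h1 h2
  · intro s hs
    rw [Finset.mem_inter, Finset.mem_Ioc] at hs
    exact ⟨hs.2.1, hs.2.2, hS s hs.1⟩
  · intro t ht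
    rw [Finset.mem_inter, Finset.mem_Ioc] at ht
    exact ⟨ht.2.1, ht.2.2, hT t ht.1⟩

lemma Blocks.indep_ends (h : Blocks P E b φ) (i : ℕ) : Indep (Past E (b i)) (Future E (b i)) P := by
  apply h.indep
  intro j S T hS hT hSn hTn
  exfalso
  obtain ⟨s, hs⟩ := hSn
  obtain ⟨t, ht⟩ := hTn
  have h1 := hS s hs
  have h2 := hT t ht
  have h3 : j < i := h.mono.lt_iff_lt.1 (by omega)
  have h4 : i < j + 1 := h.mono.lt_iff_lt.1 (by omega)
  omega

lemma Blocks.rangeDep (h : Blocks P E b φ) {m : ℕ → ℕ}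
    (hφ : ∀ (n j : ℕ) (S T : Finset ℕ), (∀ s ∈ S, b j < s ∧ s ≤ b (j + 1) ∧ s ≤ n) →
      (∀ t ∈ T, b j < t ∧ t ≤ b (j + 1) ∧ n + m n < t) → S.Nonempty → T.Nonempty →
      φ j (S ∪ T) = φ j S * φ j T) : RangeDep P E m :=
  ⟨h.meas, fun n => h.indep (hφ n)⟩

lemma Blocks.real_event (h : Blocks P E b φ) {n : ℕ} (hn : 0 < n) :
    P.real (E n) = 1 - φ (idx b n) {n} := by
  obtain ⟨h1, h2⟩ := idx_spec h.mono h.zero hn
  have h3 := h.avoid {n} (idx b n + 1) (by simpa using h2)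
  have h4 : ∏ j ∈ Finset.range (idx b n + 1), φ j ({n} ∩ Finset.Ioc (b j) (b (j + 1))) =
      φ (idx b n) {n} := by
    rw [Finset.prod_eq_single (idx b n)]
    · congr 1
      rw [Finset.inter_eq_left, Finset.singleton_subset_iff, Finset.mem_Ioc]
      exact ⟨h1, h2⟩
    · intro j _ hj
      have h5 : {n} ∩ Finset.Ioc (b j) (b (j + 1)) = ∅ := by
        rw [Finset.singleton_inter_of_notMem]
        rw [Finset.mem_Ioc]
        rintro ⟨h6, h7⟩
        exact hj (idx_unique h.mono h.zero h6 h7).symm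
      rw [h5, h.empty]
    · intro h5
      exact absurd (Finset.mem_range.2 (Nat.lt_succ_self _)) h5
  have h5 : Avoid E {n} = (E n)ᶜ := by
    ext ω
    simp [Avoid]
  rw [h4, h5, probReal_compl_eq_one_sub (h.meas _)] at h3
  linarith

lemma Blocks.real_free (h : Blocks P E b φ) {i k : ℕ} (hik : i ≤ k) :
    P.real (Free E (b i) (b k)) =
      ∏ j ∈ Finset.Ico i k, φ j (Finset.Ioc (b j) (b (j + 1))) := by
  rw [free_eq_avoid, h.avoid _ k fun s hs => (Finset.mem_Ioc.1 hs).2,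
    Finset.range_eq_Ico, ← Finset.prod_Ico_consecutive _ (Nat.zero_le i) hik]
  have h1 : ∏ j ∈ Finset.Ico 0 i,
      φ j (Finset.Ioc (b i) (b k) ∩ Finset.Ioc (b j) (b (j + 1))) = 1 := by
    apply Finset.prod_eq_one
    intro j hj
    rw [Finset.mem_Ico] at hj
    have h2 : Finset.Ioc (b i) (b k) ∩ Finset.Ioc (b j) (b (j + 1)) = ∅ := by
      rw [Finset.eq_empty_iff_forall_notMem]
      intro s hs
      rw [Finset.mem_inter, Finset.mem_Ioc, Finset.mem_Ioc] at hs
      have : b (j + 1) ≤ b i := h.mono.monotone (by omega)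
      omega
    rw [h2, h.empty]
  rw [h1, one_mul]
  refine Finset.prod_congr rfl fun j hj => ?_
  rw [Finset.mem_Ico] at hj
  congr 1
  rw [Finset.inter_eq_right]
  intro s hs
  rw [Finset.mem_Ioc] at hs ⊢
  have h2 : b i ≤ b j := h.mono.monotone hj.1
  have h3 : b (j + 1) ≤ b k := h.mono.monotone (by omega)
  omega

/-- The block lengths are small compared with the square of the logarithm. -/
def Short (b : ℕ → ℕ) : Prop := ∀ η : ℝ, 0 < η → ∀ᶠ j : ℕ in atTop,
  ((b (j + 1) : ℝ) - b j) ≤ η * Real.log (b j) ^ 2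

lemma prod_le_exp {f : ℕ → ℝ} {b : ℕ → ℕ} {σ W : ℝ} {i k : ℕ} (hik : i ≤ k)
    (h0 : ∀ j, i ≤ j → j < k → 0 ≤ f j)
    (h : ∀ j, i ≤ j → j < k → f j ≤ Real.exp (-(σ * ((b (j + 1) : ℝ) - b j) / W))) :
    ∏ j ∈ Finset.Ico i k, f j ≤ Real.exp (-(σ * ((b k : ℝ) - b i) / W)) := by
  induction k, hik using Nat.le_induction with
  | base => simp
  | succ k hik ih =>
    rw [Finset.prod_Ico_succ_top hik]
    have h1 := ih (fun j h1 h2 => h0 j h1 (by omega)) fun j h1 h2 => h j h1 (by omega)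
    have h2 := h k hik (by omega)
    calc (∏ j ∈ Finset.Ico i k, f j) * f k ≤
        Real.exp (-(σ * ((b k : ℝ) - b i) / W)) *
          Real.exp (-(σ * ((b (k + 1) : ℝ) - b k) / W)) :=
          mul_le_mul h1 h2 (h0 k hik (by omega)) (Real.exp_pos _).le
      _ = Real.exp (-(σ * ((b (k + 1) : ℝ) - b i) / W)) := by
        rw [← Real.exp_add]
        congr 1
        ring

lemma exp_le_prod {f : ℕ → ℝ} {b : ℕ → ℕ} {σ W : ℝ} {i k : ℕ} (hik : i ≤ k)
    (h : ∀ j, i ≤ j → j < k → Real.exp (-(σ * ((b (j + 1) : ℝ) - b j) / W)) ≤ f j) :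
    Real.exp (-(σ * ((b k : ℝ) - b i) / W)) ≤ ∏ j ∈ Finset.Ico i k, f j := by
  induction k, hik using Nat.le_induction with
  | base => simp
  | succ k hik ih =>
    rw [Finset.prod_Ico_succ_top hik]
    have h1 := ih fun j h1 h2 => h j h1 (by omega)
    have h2 := h k hik (by omega)
    calc Real.exp (-(σ * ((b (k + 1) : ℝ) - b i) / W)) =
        Real.exp (-(σ * ((b k : ℝ) - b i) / W)) *
          Real.exp (-(σ * ((b (k + 1) : ℝ) - b k) / W)) := by
          rw [← Real.exp_add]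
          congr 1
          ring
      _ ≤ (∏ j ∈ Finset.Ico i k, f j) * f k :=
        mul_le_mul h1 h2 (Real.exp_pos _).le ((Real.exp_pos _).le.trans h1)

/-- upper bound for the gaps -/
lemma Blocks.upper (h : Blocks P E b φ) (hs : Short b) {σ lam : ℝ} (hσ : 0 < σ) (hlam : 0 ≤ lam)
    (hlt : 1 < lam * σ)
    (hφ : ∀ᶠ j : ℕ in atTop, φ j (Finset.Ioc (b j) (b (j + 1))) ≤
      Real.exp (-(σ * ((b (j + 1) : ℝ) - b j) / Real.log (b j)))) :
    ∀ᵐ ω ∂P, Upper {n | ω ∈ E n} lam := by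
  obtain ⟨β, hβ1, hβ2⟩ := exists_between hlt
  set η : ℝ := min (1 / 2) ((lam * σ - β) / (β + 5 * σ)) with hη
  have hη0 : 0 < η := lt_min (by norm_num) (div_pos (by linarith) (by linarith))
  have hη1 : η ≤ 1 / 2 := min_le_left _ _
  have hη2 : β * (1 + η) ≤ σ * (lam - 5 * η) := by
    have h1 : η ≤ (lam * σ - β) / (β + 5 * σ) := min_le_right _ _
    rw [le_div_iff₀ (by linarith)] at h1
    nlinarith
  obtain ⟨j₁, hj₁⟩ := eventually_atTop.1 (hs η hη0)
  obtain ⟨j₂, hj₂⟩ := eventually_atTop.1 hφ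
  apply upper_of_bound hlam hβ1
  filter_upwards [ev_log_le (lam + 1) 2, ev_log_ge (1 / η), ev_log_ge 2,
    eventually_gt_atTop (b (j₁ + j₂ + 3)), eventually_ge_atTop 10] with x hx1 hx2 hx3 hx4 hx5
  set L : ℝ := Real.log x with hL
  have hx0 : (10:ℝ) ≤ x := by exact_mod_cast hx5
  set H : ℕ := ⌊lam * L ^ 2⌋₊ with hH
  have hH1 : (H : ℝ) ≤ lam * L ^ 2 := Nat.floor_le (by positivity)
  have hH2 : lam * L ^ 2 < H + 1 := Nat.lt_floor_add_one _
  set i : ℕ := idx b x + 1 with hi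
  set k : ℕ := idx b (x + H + 1) with hk
  obtain ⟨hi1, hi2⟩ := idx_spec h.mono h.zero (n := x) (by omega)
  obtain ⟨hk1, hk2⟩ := idx_spec h.mono h.zero (n := x + H + 1) (by omega)
  rw [← hk] at hk1 hk2
  have hij : j₁ + j₂ + 3 ≤ idx b x := le_idx h.mono hx4
  have hxk : idx b x ≤ k := le_idx h.mono (by omega)
  have hbpos : ∀ j, j₁ + j₂ + 3 ≤ j → (3:ℝ) ≤ b j := by
    intro j hj
    have h1 : j ≤ b j := h.mono.id_le j
    have h2 : 3 ≤ b j := by omega
    exact_mod_cast h2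
  -- logarithms
  have hlog2 : Real.log 2 < 1 := by
    have := Real.log_two_lt_d9
    linarith
  have hw : ((x + H : ℕ) : ℝ) ≤ 2 * x := by
    push_cast
    nlinarith
  have hlogw : Real.log ((x + H : ℕ) : ℝ) ≤ (1 + η) * L := by
    have h1 : Real.log ((x + H : ℕ) : ℝ) ≤ Real.log (2 * x) := by
      apply Real.log_le_log _ hw
      push_cast
      positivity
    rw [Real.log_mul (by norm_num) (by linarith), ← hL] at h1
    rw [div_le_iff₀ hη0] at hx2
    nlinarith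
  have hL0 : 0 < L := by linarith
  have hlogb : ∀ j, j₁ + j₂ + 3 ≤ j → j ≤ k → Real.log (b j) ≤ (1 + η) * L := by
    intro j hj hjk
    refine le_trans (Real.log_le_log ?_ ?_) hlogw
    · have := hbpos j hj
      linarith
    · have h1 : b j ≤ x + H := by
        have := h.mono.monotone hjk
        omega
      exact_mod_cast h1
  have hlogb0 : ∀ j, j₁ + j₂ + 3 ≤ j → 0 < Real.log (b j) := fun j hj =>
    Real.log_pos (by have := hbpos j hj; linarith)
  have hsq : ∀ j, j₁ + j₂ + 3 ≤ j → j ≤ k → ((b (j + 1) : ℝ) - b j) ≤ η * (9 / 4 * L ^ 2) := by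
    intro j hj hjk
    refine (hj₁ j (by omega)).trans ?_
    apply mul_le_mul_of_nonneg_left _ hη0.le
    have h1 := hlogb j hj hjk
    have h2 := hlogb0 j hj
    have h3 : Real.log (b j) ≤ 3 / 2 * L := by nlinarith
    nlinarith
  have hbi : (b i : ℝ) ≤ x + η * (9 / 4 * L ^ 2) := by
    have h1 := hsq (idx b x) hij hxk
    have h2 : (b (idx b x) : ℝ) ≤ x := by exact_mod_cast hi1.le
    rw [hi]
    linarith
  have hbk : (x : ℝ) + H - η * (9 / 4 * L ^ 2) ≤ b k := by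
    have h1 := hsq k (by omega) le_rfl
    have h2 : ((x + H + 1 : ℕ) : ℝ) ≤ b (k + 1) := by exact_mod_cast hk2
    push_cast at h2
    linarith
  have hdiff : (lam - 5 * η) * L ^ 2 ≤ (b k : ℝ) - b i := by
    have h1 : 1 ≤ 1 / 2 * η * L ^ 2 := by
      rw [div_le_iff₀ hη0] at hx2
      nlinarith
    nlinarith
  have hpos : 0 < (lam - 5 * η) := by
    by_contra hcon
    rw [not_lt] at hcon
    have h1 : σ * (lam - 5 * η) ≤ 0 := mul_nonpos_of_nonneg_of_nonpos hσ.le hcon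
    nlinarith
  have hik : i ≤ k := by
    have h1 : (b i : ℝ) < b k := by
      have : 0 < (lam - 5 * η) * L ^ 2 := by positivity
      linarith
    have h2 : b i < b k := by exact_mod_cast h1
    exact (h.mono.lt_iff_lt.1 h2).le
  have hfree : Free E x (x + H) ⊆ Free E (b i) (b k) := by
    apply Pool.Agent.H34.ND.free_mono
    · rw [hi]
      exact hi2
    · omega
  refine (measureReal_mono hfree).trans ?_
  rw [h.real_free hik]
  refine (prod_le_exp (b := b) (σ := σ) (W := (1 + η) * L) hik (fun j _ _ => h.nonneg j) ?_).trans ?_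
  · intro j hj1 hj2
    refine (hj₂ j (by omega)).trans (Real.exp_le_exp.2 (neg_le_neg ?_))
    apply div_le_div_of_nonneg_left _ (hlogb0 j (by omega)) (hlogb j (by omega) (by omega))
    have h1 : (b j : ℝ) ≤ b (j + 1) := by exact_mod_cast h.mono.monotone (Nat.le_succ j)
    have h2 : 0 ≤ (b (j + 1) : ℝ) - b j := by linarith
    positivity
  · apply Real.exp_le_exp.2
    apply neg_le_neg
    rw [le_div_iff₀ (by positivity)]
    have h1 : σ * ((lam - 5 * η) * L ^ 2) ≤ σ * ((b k : ℝ) - b i) :=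
      mul_le_mul_of_nonneg_left hdiff hσ.le
    have h2 : β * (1 + η) * L ^ 2 ≤ σ * (lam - 5 * η) * L ^ 2 :=
      mul_le_mul_of_nonneg_right hη2 (by positivity)
    nlinarith

/-- lower bound for the gaps -/
lemma Blocks.lower (h : Blocks P E b φ) (hs : Short b) {σ lam : ℝ} (hσ : 0 ≤ σ) (hlam : 0 ≤ lam)
    (hlt : lam * σ < 1)
    (hφ : ∀ᶠ j : ℕ in atTop, Real.exp (-(σ * ((b (j + 1) : ℝ) - b j) / Real.log (b j))) ≤
      φ j (Finset.Ioc (b j) (b (j + 1)))) :
    ∀ᵐ ω ∂P, HasGaps {n | ω ∈ E n} lam := by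
  obtain ⟨α, hα1, hα2⟩ := exists_between hlt
  -- the parameter `η`
  obtain ⟨η, hη0, hη1, hη2⟩ : ∃ η : ℝ, 0 < η ∧ η ≤ 1 / 10 ∧
      σ * (lam + 8 * η) < α * (1 - η) := by
    have h1 : ContinuousAt (fun t : ℝ => σ * (lam + 8 * t) - α * (1 - t)) 0 := by fun_prop
    have h2 : ∀ᶠ t : ℝ in 𝓝 0, σ * (lam + 8 * t) - α * (1 - t) < 0 :=
      h1.eventually (gt_mem_nhds (by norm_num; linarith))
    have h3 : ∀ᶠ t : ℝ in 𝓝 0, t < 1 / 10 := gt_mem_nhds (by norm_num)
    obtain ⟨t, ⟨ht1, ht2⟩, ht3⟩ := (((h2.and h3).filter_mono nhdsWithin_le_nhds).and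
      (self_mem_nhdsWithin (a := (0:ℝ)) (s := Set.Ioi 0))).exists
    exact ⟨t, ht3, ht2.le, by linarith⟩
  obtain ⟨j₁, hj₁⟩ := eventually_atTop.1 (hs η hη0)
  obtain ⟨j₂, hj₂⟩ := eventually_atTop.1 hφ
  apply exists_windows h.meas hlam hα2
  filter_upwards [ev_log_le (4 * (lam + 2)) 2, ev_log_ge (4 / η), ev_log_ge 10,
    eventually_gt_atTop (2 * b (j₁ + j₂ + 3)), eventually_ge_atTop 10] with
    X hX1 hX2 hX3 hX4 hX5 a ha1 ha2 ha3 F hF
  set L : ℝ := Real.log X with hL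
  have hX0 : (10:ℝ) ≤ X := by exact_mod_cast hX5
  have hL0 : 0 < L := by linarith
  have hηL : 4 ≤ η * L := by
    rw [div_le_iff₀ hη0] at hX2
    linarith
  set H : ℕ := wlen lam X with hH
  have hH1 : (H : ℝ) ≤ lam * L ^ 2 + 1 := by
    have h6 : (⌊lam * L ^ 2⌋₊ : ℝ) ≤ lam * L ^ 2 := Nat.floor_le (by positivity)
    have h7 : (H : ℝ) = ⌊lam * L ^ 2⌋₊ + 1 := by
      rw [hH]
      simp only [wlen]
      push_cast
      rfl
    rw [h7]
    linarith
  have hg : L ^ 2 < (wlen 1 X : ℝ) := by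
    have h7 : (wlen 1 X : ℝ) = ⌊1 * L ^ 2⌋₊ + 1 := by
      simp only [wlen]
      push_cast
      rfl
    rw [h7]
    have := Nat.lt_floor_add_one (1 * L ^ 2)
    linarith
  have hbX : 2 * b (j₁ + j₂ + 3) < X := hX4
  have haX : X ≤ 2 * a := by
    have h1 : (X : ℝ) ≤ 2 * a := by linarith
    exact_mod_cast h1
  have haX' : (a : ℝ) ≤ X := by exact_mod_cast ha2
  set i : ℕ := idx b a with hi
  set k : ℕ := idx b (a + H) + 1 with hk
  have ha0 : 0 < a := by omega
  obtain ⟨hi1, hi2⟩ := idx_spec h.mono h.zero ha0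
  obtain ⟨hk1, hk2⟩ := idx_spec h.mono h.zero (n := a + H) (by omega)
  rw [← hi] at hi1 hi2
  have hij : j₁ + j₂ + 3 ≤ i := le_idx h.mono (by omega)
  have hH0 : 1 ≤ H := by
    rw [hH]
    simp only [wlen]
    omega
  have hik' : i ≤ idx b (a + H) := le_idx h.mono (by omega)
  have hik : i ≤ k := by omega
  have hlog2 : Real.log 2 < 1 := by
    have := Real.log_two_lt_d9
    linarith
  have hHX : ((a + H : ℕ) : ℝ) ≤ 2 * X := by
    push_cast
    nlinarith
  have hlogup : ∀ j, i ≤ j → j ≤ idx b (a + H) → 0 ≤ Real.log (b j) ∧ Real.log (b j) ≤ L + 1 := by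
    intro j hj hjk
    have h2 : b j ≤ a + H := by
      have := h.mono.monotone hjk
      omega
    have h3 : (b j : ℝ) ≤ ((a + H : ℕ) : ℝ) := by exact_mod_cast h2
    have h4 : j ≤ b j := h.mono.id_le j
    have h5 : (1:ℝ) ≤ b j := by
      have : 1 ≤ b j := by omega
      exact_mod_cast this
    refine ⟨Real.log_nonneg h5, ?_⟩
    have h6 : Real.log (b j) ≤ Real.log (2 * X) := Real.log_le_log (by linarith) (by linarith)
    rw [Real.log_mul (by norm_num) (by linarith), ← hL] at h6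
    linarith
  have hsq : ∀ j, i ≤ j → j ≤ idx b (a + H) →
      ((b (j + 1) : ℝ) - b j) ≤ η * (2 * L ^ 2) := by
    intro j hj hjk
    refine (hj₁ j (by omega)).trans ?_
    apply mul_le_mul_of_nonneg_left _ hη0.le
    obtain ⟨h1, h2⟩ := hlogup j hj hjk
    have h3 : Real.log (b j) ^ 2 ≤ (L + 1) ^ 2 := pow_le_pow_left₀ h1 h2 2
    nlinarith
  have hbi : (a : ℝ) - η * (2 * L ^ 2) ≤ b i := by
    have h1 := hsq i le_rfl hik'
    have h2 : (a : ℝ) ≤ b (i + 1) := by exact_mod_cast hi2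
    linarith
  have hbk : (b k : ℝ) ≤ a + H + η * (2 * L ^ 2) := by
    have h1 := hsq (idx b (a + H)) hik' le_rfl
    have h2 : (b (idx b (a + H)) : ℝ) ≤ ((a + H : ℕ) : ℝ) := by exact_mod_cast hk1.le
    push_cast at h2
    rw [hk]
    linarith
  have hbL : L ^ 2 ≤ X / 8 := by nlinarith
  have hlogbi : (1 - η) * L ≤ Real.log (b i) := by
    have h1 : (X : ℝ) / 4 ≤ b i := by
      have h2 : η * (2 * L ^ 2) ≤ X / 4 := by nlinarith
      linarith
    have h2 : Real.log (X / 4) ≤ Real.log (b i) := Real.log_le_log (by positivity) h1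
    rw [Real.log_div (by linarith) (by norm_num), ← hL] at h2
    have h3 : Real.log 4 < 2 := by
      rw [show (4:ℝ) = 2 ^ 2 by norm_num, Real.log_pow]
      push_cast
      linarith
    nlinarith
  have hlogbi0 : 0 < (1 - η) * L := by
    have : 0 < 1 - η := by linarith
    positivity
  -- the probability
  have hFi : MeasurableSet[Past E (b i)] F := by
    refine past_mono ?_ F hF
    have h1 : (a : ℝ) < b i + wlen 1 X := by nlinarith
    have h2 : a < b i + wlen 1 X := by exact_mod_cast h1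
    omega
  have hfree : F ∩ Free E (b i) (b k) ⊆ F ∩ Free E a (a + H) :=
    Set.inter_subset_inter_right _ (Pool.Agent.H34.ND.free_mono hi1.le hk2)
  refine le_trans ?_ (measureReal_mono hfree)
  rw [indep_real (h.indep_ends i) hFi (free_future _ _), mul_comm]
  apply mul_le_mul_of_nonneg_left _ measureReal_nonneg
  rw [h.real_free hik]
  refine le_trans ?_ (exp_le_prod (b := b) (σ := σ) (W := (1 - η) * L) hik ?_)
  · apply Real.exp_le_exp.2
    apply neg_le_neg
    rw [div_le_iff₀ hlogbi0]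
    have h1 : (b k : ℝ) - b i ≤ (lam + 8 * η) * L ^ 2 := by
      have h2 : 1 ≤ η * L ^ 2 := by nlinarith
      nlinarith
    have h2 : σ * ((b k : ℝ) - b i) ≤ σ * ((lam + 8 * η) * L ^ 2) :=
      mul_le_mul_of_nonneg_left h1 hσ
    have h3 : σ * (lam + 8 * η) * L ^ 2 ≤ α * (1 - η) * L ^ 2 :=
      mul_le_mul_of_nonneg_right hη2.le (by positivity)
    nlinarith
  · intro j hj1 hj2
    refine le_trans (Real.exp_le_exp.2 (neg_le_neg ?_)) (hj₂ j (by omega))
    apply div_le_div_of_nonneg_left _ hlogbi0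
    · refine hlogbi.trans (Real.log_le_log ?_ ?_)
      · have h1 : i ≤ b i := h.mono.id_le i
        have h2 : 0 < b i := by omega
        exact_mod_cast h2
      · exact_mod_cast h.mono.monotone hj1
    · have h1 : (b j : ℝ) ≤ b (j + 1) := by exact_mod_cast h.mono.monotone (Nat.le_succ j)
      have h2 : 0 ≤ (b (j + 1) : ℝ) - b j := by linarith
      positivity

/-! ### identification of the constant -/

lemma le_cramer_of_hasGaps {A : Set ℕ} (hA : A.Infinite) {lam : ℝ} (hlam : 0 ≤ lam)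
    (h : HasGaps A lam) : (lam : EReal) ≤ cramerConst A := by
  apply Pool.Agent.H34.ND.le_cramer hA hlam
  rw [frequently_atTop]
  intro N
  obtain ⟨X, ⟨x, h1, h2, h3⟩, hX⟩ := (h.and (eventually_ge_atTop (2 * N + 2))).exists
  have h4 : N < x := by
    have h5 : ((2 * N + 2 : ℕ) : ℝ) ≤ X := by exact_mod_cast hX
    push_cast at h5
    have h6 : (N : ℝ) < x := by linarith
    exact_mod_cast h6
  refine ⟨x, h4.le, fun n hn1 hn2 => h3 n hn1 (hn2.trans ?_)⟩
  have hx0 : (1:ℝ) ≤ x := by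
    have : 1 ≤ x := by omega
    exact_mod_cast this
  have hlog0 : 0 ≤ Real.log x := Real.log_nonneg hx0
  have hxX : (x : ℝ) ≤ X := by
    have : 0 ≤ lam * Real.log X ^ 2 := by positivity
    linarith
  have h7 : Real.log x ≤ Real.log X := Real.log_le_log (by linarith) hxX
  have h8 : Real.log x ^ 2 ≤ Real.log X ^ 2 := pow_le_pow_left₀ hlog0 h7 2
  have := mul_le_mul_of_nonneg_left h8 hlam
  linarith

lemma cramer_eq {x : EReal} (hx : 0 ≤ x) (hinf : ∀ᵐ ω ∂P, {n | ω ∈ E n}.Infinite)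
    (h1 : ∀ lam : ℝ, 0 ≤ lam → x < lam → ∀ᵐ ω ∂P, Upper {n | ω ∈ E n} lam)
    (h2 : ∀ lam : ℝ, 0 ≤ lam → (lam : EReal) < x → ∀ᵐ ω ∂P, HasGaps {n | ω ∈ E n} lam) :
    ∀ᵐ ω ∂P, {n | ω ∈ E n}.Infinite ∧ cramerConst {n | ω ∈ E n} = x := by
  have h3 : ∀ᵐ ω ∂P, ∀ q : ℚ, (0 ≤ (q : ℝ) → x < ((q : ℝ) : EReal) → Upper {n | ω ∈ E n} q) ∧
      (0 ≤ (q : ℝ) → ((q : ℝ) : EReal) < x → HasGaps {n | ω ∈ E n} q) := by
    rw [ae_all_iff]
    intro q
    by_cases hq : 0 ≤ (q : ℝ)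
    · by_cases hq1 : x < ((q : ℝ) : EReal)
      · filter_upwards [h1 q hq hq1] with ω hω
        exact ⟨fun _ _ => hω, fun _ h => absurd h (not_lt.2 hq1.le)⟩
      · by_cases hq2 : ((q : ℝ) : EReal) < x
        · filter_upwards [h2 q hq hq2] with ω hω
          exact ⟨fun _ h => absurd h hq1, fun _ _ => hω⟩
        · exact Eventually.of_forall fun ω => ⟨fun _ h => absurd h hq1, fun _ h => absurd h hq2⟩
    · exact Eventually.of_forall fun ω => ⟨fun h => absurd h hq, fun h => absurd h hq⟩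
  filter_upwards [hinf, h3] with ω hA hω
  refine ⟨hA, le_antisymm ?_ ?_⟩
  · by_contra hcon
    rw [not_le] at hcon
    obtain ⟨q, hq1, hq2⟩ := EReal.lt_iff_exists_rat_btwn.1 hcon
    have hq0 : (0:ℝ) ≤ q := by
      have : (0:EReal) ≤ ((q : ℝ) : EReal) := hx.trans hq1.le
      exact_mod_cast this
    have := Pool.Agent.H34.ND.cramer_le ((hω q).1 hq0 hq1)
    exact absurd hq2 (not_lt.2 this)
  · by_contra hcon
    rw [not_le] at hcon
    obtain ⟨q, hq1, hq2⟩ := EReal.lt_iff_exists_rat_btwn.1 hcon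
    have hq0 : (0:ℝ) ≤ q := by
      have : (0:EReal) ≤ ((q : ℝ) : EReal) := (cramer_nonneg hA).trans hq1.le
      exact_mod_cast this
    have := le_cramer_of_hasGaps hA hq0 ((hω q).2 hq0 hq2)
    exact absurd hq1 (not_lt.2 this)

end Pool.Agent.H41.LD
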