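import Pool.Agent.H34.ND.Gaps

/-! # Random sets of natural numbers with local (finite range) dependence: definitions -/

set_option autoImplicit false

namespace Pool.Agent.H41.LD

open MeasureTheory Filter Topology ProbabilityTheory

/-- the σ-algebra generated by the events `E k` (that `k` is an element) with `k ≤ n` -/
def Past {Ω : Type*} (E : ℕ → Set Ω) (n : ℕ) : MeasurableSpace Ω :=
  MeasurableSpace.generateFrom {s | ∃ k, k ≤ n ∧ E k = s}

/-- the σ-algebra generated by the events `E k` with `n < k` -/
def Future {Ω : Type*} (E : ℕ → Set Ω) (n : ℕ) : MeasurableSpace Ω :=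
  MeasurableSpace.generateFrom {s | ∃ k, n < k ∧ E k = s}

/-- The random set `{n | ω ∈ E n}` has range of dependence `m`: for each `n` the part of the random
set in `[0, n]` and the part in `(n + m n, ∞)` are independent. -/
structure RangeDep {Ω : Type*} [MeasurableSpace Ω] (P : Measure Ω) (E : ℕ → Set Ω) (m : ℕ → ℕ) :
    Prop where
  meas : ∀ n, MeasurableSet (E n)
  indep : ∀ n, Indep (Past E n) (Future E (n + m n)) P

/-- a random model of the primes with range of dependence `m`: the range of dependence is `m`, and
`n` is an element with probability `~ 1 / log n` -/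
structure Model {Ω : Type*} [MeasurableSpace Ω] (P : Measure Ω) (E : ℕ → Set Ω) (m : ℕ → ℕ) :
    Prop where
  range : RangeDep P E m
  dens : Tendsto (fun n : ℕ => P.real (E n) * Real.log n) atTop (𝓝 1)

/-- Given the part of the random set in `[0, j]`, the conditional probability that `n` is an element
is at most `p n`, for all `j` and `n` with `j + m j < n`. -/
structure Delayed {Ω : Type*} [MeasurableSpace Ω] (P : Measure Ω) (E : ℕ → Set Ω) (m : ℕ → ℕ)
    (p : ℕ → ℝ) : Prop where
  meas : ∀ n, MeasurableSet (E n)
  cond : ∀ j n : ℕ, j + m j < n → ∀ F : Set Ω, MeasurableSet[Past E j] F →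
    P.real (E n ∩ F) ≤ p n * P.real F

/-- `x` is the almost sure value of Cramér's constant of an (almost surely infinite) random model of
the primes with range of dependence `m` -/
def IsValue (m : ℕ → ℕ) (x : EReal) : Prop :=
  ∃ (Ω : Type) (_ : MeasurableSpace Ω) (P : Measure Ω) (_ : IsProbabilityMeasure P)
    (E : ℕ → Set Ω), Model P E m ∧
      ∀ᵐ ω ∂P, {n | ω ∈ E n}.Infinite ∧ Pool.Agent.H34.ND.cramerConst {n | ω ∈ E n} = x

end Pool.Agent.H41.LD
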