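import Pool.Agent.H41.LD.Val

/-! # Models with clusters -/

set_option autoImplicit false
set_option linter.unusedSectionVars false

namespace Pool.Agent.H41.LD

open MeasureTheory Filter Topology ProbabilityTheory
open Pool.Agent.H34.ND (Free cramerConst)

/-- the probability that the block which starts at `b` is empty in the model with clusters -/
noncomputable def qc (K : ℕ → ℕ) (t : ℝ) (b : ℕ) : ℝ :=
  (1 - t * (1 / LL b)) * ((1 - 1 / LL b) / (1 - t * (1 / LL b))) ^ K b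

theorem exists_clus (K : ℕ → ℕ) {t : ℝ} (ht0 : 0 ≤ t) (ht1 : t ≤ 1) (hK1 : ∀ b, 1 ≤ K b)
    (hs : ∀ η : ℝ, 0 < η → ∀ᶠ b : ℕ in atTop, (K b : ℝ) ≤ η * Real.log b ^ 2) :
    ∃ (Ω : Type) (_ : MeasurableSpace Ω) (P : Measure Ω) (_ : IsProbabilityMeasure P)
      (E : ℕ → Set Ω) (φ : ℕ → Finset ℕ → ℝ), Blocks P E (blk K) φ ∧
        (∀ m : ℕ → ℕ, (∀ b n, b ≤ n → K b ≤ 1 + m n) → Model P E m) ∧
        ∀ j, φ j (Finset.Ioc (blk K j) (blk K (j + 1))) = qc K t (blk K j) := by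
  classical
  have hx : ∀ b : ℕ, 0 < 1 / LL b := fun b => by have := LL_pos b; positivity
  have htx : ∀ b : ℕ, 0 ≤ t * (1 / LL b) ∧ t * (1 / LL b) ≤ 1 / LL b := fun b =>
    ⟨mul_nonneg ht0 (hx b).le, by nlinarith [hx b]⟩
  set s : ℕ → ℝ := fun b => (1 - 1 / LL b) / (1 - t * (1 / LL b)) with hs'
  have hs0 : ∀ b, 0 < s b ∧ s b ≤ 1 := by
    intro b
    have h1 := inv_LL_le b
    have h2 := htx b
    refine ⟨div_pos (by linarith) (by linarith), ?_⟩
    rw [div_le_one (by linarith)]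
    linarith
  set φ : ℕ → Finset ℕ → ℝ := fun j S =>
    (if S = ∅ then 1 else 1 - t * (1 / LL (blk K j))) * s (blk K j) ^ S.card with hφ
  have hreal : ∀ j, Realizable (φ j) (Finset.Ioc (blk K j) (blk K (j + 1))) := by
    intro j
    have h1 := inv_LL_le (blk K j)
    have h2 := htx (blk K j)
    exact (realizable_full h2.1 (by linarith) _).mul (realizable_pow (hs0 _).1 (hs0 _).2 _)
  obtain ⟨Ω, mΩ, P, hP, E, hB⟩ := exists_blocks' (blk_mono hK1) rfl hreal
  refine ⟨Ω, mΩ, P, hP, E, φ, hB, fun m hm => ⟨?_, ?_⟩, ?_⟩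
  · apply hB.rangeDep
    intro n j S T hS hT hSn hTn
    exfalso
    obtain ⟨s₀, hs₀⟩ := hSn
    obtain ⟨t₀, ht₀⟩ := hTn
    have h1 := hS s₀ hs₀
    have h2 := hT t₀ ht₀
    have h3 := hm (blk K j) n (by omega)
    simp only [blk] at h2
    omega
  · apply dens_of_blocks hK1 hs hB
    intro j n _ _
    simp only [hφ, hs', Finset.singleton_ne_empty, if_false, Finset.card_singleton, pow_one]
    have h1 := inv_LL_le (blk K j)
    have h2 := htx (blk K j)
    rw [mul_div_cancel₀]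
    linarith
  · intro j
    have h1 : blk K (j + 1) = blk K j + K (blk K j) := rfl
    have h2 : Finset.Ioc (blk K j) (blk K (j + 1)) ≠ ∅ := by
      rw [Ne, Finset.Ioc_eq_empty_iff, not_not, h1]
      have := hK1 (blk K j)
      omega
    simp only [hφ, h2, if_false]
    rw [h1, Nat.card_Ioc, Nat.add_sub_cancel_left]
    rfl

lemma div_one_sub_le {y : ℝ} (h0 : 0 ≤ y) (h1 : y ≤ 1 / 2) : y / (1 - y) ≤ y + 2 * y ^ 2 := by
  rw [div_le_iff₀ (by linarith)]
  nlinarith [mul_nonneg (mul_nonneg h0 h0) (by linarith : (0:ℝ) ≤ 1 - 2 * y)]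

lemma qc_le {K : ℕ → ℕ} {t : ℝ} (ht0 : 0 ≤ t) (ht1 : t ≤ 1) (hK1 : ∀ b, 1 ≤ K b) (b : ℕ) :
    qc K t b ≤ Real.exp (-((t / K b + 1 - t - 2 * (1 / LL b)) / LL b * K b)) := by
  set x : ℝ := 1 / LL b with hx
  have hx0 : 0 < x := by have := LL_pos b; positivity
  have hx1 : x ≤ 1 / 2 := inv_LL_le b
  have hK0 : (0:ℝ) < K b := by have := hK1 b; exact_mod_cast this
  have htx0 : 0 ≤ t * x := mul_nonneg ht0 hx0.le
  have htx1 : t * x ≤ x := by nlinarith
  have h1 : 1 - t * x ≤ Real.exp (-(t * x)) := by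
    have := Real.add_one_le_exp (-(t * x))
    linarith
  have h2 : 1 - x ≤ Real.exp (-x) := by
    have := Real.add_one_le_exp (-x)
    linarith
  have h3 : (1 - x) / (1 - t * x) ≤ Real.exp (-x + (t * x + 2 * x ^ 2)) := by
    rw [div_le_iff₀ (by linarith)]
    have h4 : Real.exp (-(t * x + 2 * x ^ 2)) ≤ 1 - t * x := by
      refine le_trans (Real.exp_le_exp.2 (neg_le_neg ?_)) (one_sub_ge_exp (by linarith))
      refine (div_one_sub_le htx0 (by linarith)).trans ?_
      have : (t * x) ^ 2 ≤ x ^ 2 := pow_le_pow_left₀ htx0 htx1 2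
      linarith
    calc 1 - x ≤ Real.exp (-x) := h2
      _ = Real.exp (-x + (t * x + 2 * x ^ 2)) * Real.exp (-(t * x + 2 * x ^ 2)) := by
        rw [← Real.exp_add]
        congr 1
        ring
      _ ≤ _ := mul_le_mul_of_nonneg_left h4 (Real.exp_pos _).le
  have h4 : ((1 - x) / (1 - t * x)) ^ K b ≤ Real.exp (K b * (-x + (t * x + 2 * x ^ 2))) := by
    rw [Real.exp_nat_mul]
    exact pow_le_pow_left₀ (div_nonneg (by linarith) (by linarith)) h3 _
  unfold qc
  rw [← hx]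
  calc (1 - t * x) * ((1 - x) / (1 - t * x)) ^ K b ≤
      Real.exp (-(t * x)) * Real.exp (K b * (-x + (t * x + 2 * x ^ 2))) :=
        mul_le_mul h1 h4 (pow_nonneg (div_nonneg (by linarith) (by linarith)) _)
          (Real.exp_pos _).le
    _ = Real.exp (-((t / K b + 1 - t - 2 * x) / LL b * K b)) := by
      rw [← Real.exp_add]
      congr 1
      have h5 : (t / K b + 1 - t - 2 * x) / LL b * K b =
          x * (t / K b + 1 - t - 2 * x) * K b := by
        rw [hx]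
        ring
      rw [h5]
      field_simp
      ring

lemma le_qc {K : ℕ → ℕ} {t : ℝ} (ht0 : 0 ≤ t) (ht1 : t ≤ 1) (hK1 : ∀ b, 1 ≤ K b) (b : ℕ) :
    Real.exp (-((t / K b + 1 - t + 4 * (1 / LL b)) / LL b * K b)) ≤ qc K t b := by
  set x : ℝ := 1 / LL b with hx
  have hx0 : 0 < x := by have := LL_pos b; positivity
  have hx1 : x ≤ 1 / 2 := inv_LL_le b
  have hK0 : (1:ℝ) ≤ K b := by have := hK1 b; exact_mod_cast this
  have htx0 : 0 ≤ t * x := mul_nonneg ht0 hx0.le
  have htx1 : t * x ≤ x := by nlinarith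
  have h1 : Real.exp (-(t * x + 2 * x ^ 2)) ≤ 1 - t * x := by
    refine le_trans (Real.exp_le_exp.2 (neg_le_neg ?_)) (one_sub_ge_exp (by linarith))
    refine (div_one_sub_le htx0 (by linarith)).trans ?_
    have : (t * x) ^ 2 ≤ x ^ 2 := pow_le_pow_left₀ htx0 htx1 2
    linarith
  have h2 : Real.exp (-(x + 2 * x ^ 2)) ≤ 1 - x :=
    le_trans (Real.exp_le_exp.2 (neg_le_neg (div_one_sub_le hx0.le hx1)))
      (one_sub_ge_exp (by linarith))
  have h3 : Real.exp (-(x + 2 * x ^ 2) + t * x) ≤ (1 - x) / (1 - t * x) := by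
    rw [le_div_iff₀ (by linarith)]
    have h4 : 1 - t * x ≤ Real.exp (-(t * x)) := by
      have := Real.add_one_le_exp (-(t * x))
      linarith
    calc Real.exp (-(x + 2 * x ^ 2) + t * x) * (1 - t * x) ≤
        Real.exp (-(x + 2 * x ^ 2) + t * x) * Real.exp (-(t * x)) :=
          mul_le_mul_of_nonneg_left h4 (Real.exp_pos _).le
      _ = Real.exp (-(x + 2 * x ^ 2)) := by
        rw [← Real.exp_add]
        congr 1
        ring
      _ ≤ 1 - x := h2
  have h4 : Real.exp (K b * (-(x + 2 * x ^ 2) + t * x)) ≤ ((1 - x) / (1 - t * x)) ^ K b := by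
    rw [Real.exp_nat_mul]
    exact pow_le_pow_left₀ (Real.exp_pos _).le h3 _
  unfold qc
  rw [← hx]
  calc Real.exp (-((t / K b + 1 - t + 4 * x) / LL b * K b)) ≤
      Real.exp (-(t * x + 2 * x ^ 2)) * Real.exp (K b * (-(x + 2 * x ^ 2) + t * x)) := by
        rw [← Real.exp_add]
        apply Real.exp_le_exp.2
        have h5 : (t / K b + 1 - t + 4 * x) / LL b * K b =
            x * t + x * (1 - t + 4 * x) * K b := by
          have h6 : (K b : ℝ) ≠ 0 := by linarith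
          have h7 := (LL_pos b).ne'
          rw [hx]
          field_simp
          ring
        rw [h5]
        nlinarith [mul_nonneg (mul_nonneg hx0.le hx0.le) (sub_nonneg.2 hK0)]
    _ ≤ (1 - t * x) * ((1 - x) / (1 - t * x)) ^ K b :=
      mul_le_mul h1 h4 (Real.exp_pos _).le (by linarith)

lemma ev_upper {K : ℕ → ℕ} {t g σ : ℝ} (ht0 : 0 ≤ t) (ht1 : t ≤ 1) (hK1 : ∀ b, 1 ≤ K b)
    (hg : Tendsto (fun b : ℕ => t / K b + 1 - t) atTop (𝓝 g)) (hσ : σ < g) :
    ∀ᶠ b : ℕ in atTop, qc K t b ≤ Real.exp (-(σ * K b / Real.log b)) := by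
  obtain ⟨σ₁, h1, h2⟩ := exists_between hσ
  have h3 : Tendsto (fun b : ℕ => 2 * (1 / LL b)) atTop (𝓝 (2 * 0)) :=
    (tendsto_const_nhds.div_atTop LL_tendsto).const_mul 2
  have h4 := hg.sub h3
  rw [mul_zero, sub_zero] at h4
  filter_upwards [h4.eventually (lt_mem_nhds h2), ev_rate h1] with b h5 h6
  refine (qc_le ht0 ht1 hK1 b).trans (Real.exp_le_exp.2 (neg_le_neg ?_))
  rw [mul_div_right_comm]
  apply mul_le_mul_of_nonneg_right _ (Nat.cast_nonneg _)
  exact h6.trans (div_le_div_of_nonneg_right h5.le (LL_pos b).le)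

lemma ev_lower {K : ℕ → ℕ} {t g σ : ℝ} (ht0 : 0 ≤ t) (ht1 : t ≤ 1) (hK1 : ∀ b, 1 ≤ K b)
    (hg : Tendsto (fun b : ℕ => t / K b + 1 - t) atTop (𝓝 g)) (hσ : g < σ) (hσ0 : 0 ≤ σ) :
    ∀ᶠ b : ℕ in atTop, Real.exp (-(σ * K b / Real.log b)) ≤ qc K t b := by
  obtain ⟨σ₁, h1, h2⟩ := exists_between hσ
  have h3 : Tendsto (fun b : ℕ => 4 * (1 / LL b)) atTop (𝓝 (4 * 0)) :=
    (tendsto_const_nhds.div_atTop LL_tendsto).const_mul 4
  have h4 := hg.add h3
  rw [mul_zero, add_zero] at h4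
  filter_upwards [h4.eventually (gt_mem_nhds h1), ev_rate' h2 hσ0] with b h5 h6
  refine le_trans (Real.exp_le_exp.2 (neg_le_neg ?_)) (le_qc ht0 ht1 hK1 b)
  rw [mul_div_right_comm]
  apply mul_le_mul_of_nonneg_right _ (Nat.cast_nonneg _)
  exact le_trans (div_le_div_of_nonneg_right h5.le (LL_pos b).le) h6

/-- all values `x ≥ 1` which are at most the size of the clusters -/
theorem clus_value {m : ℕ → ℕ} {K₀ : ℕ} {x : ℝ} (hm : ∀ᶠ n : ℕ in atTop, K₀ ≤ 1 + m n)
    (hx1 : 1 ≤ x) (hxK : x ≤ K₀) : IsValue m (x : EReal) := by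
  have hK₀ : 1 ≤ K₀ := by
    have : (1:ℝ) ≤ K₀ := hx1.trans hxK
    exact_mod_cast this
  obtain ⟨n₀, hn₀⟩ := eventually_atTop.1 hm
  set K : ℕ → ℕ := fun b => if K₀ ≤ 1 + low m b then K₀ else 1 with hK
  have hK1 : ∀ b, 1 ≤ K b := fun b => by simp only [hK]; split_ifs <;> omega
  have hKm : ∀ b n, b ≤ n → K b ≤ 1 + m n := by
    intro b n hbn
    simp only [hK]
    have := low_le m hbn
    split_ifs <;> omega
  have hKev : ∀ᶠ b : ℕ in atTop, K b = K₀ := by
    filter_upwards [eventually_ge_atTop n₀] with b hb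
    obtain ⟨n, h1, h2⟩ := low_mem m b
    have h3 := hn₀ n (hb.trans h1)
    simp only [hK]
    rw [if_pos (by rw [← h2]; exact h3)]
  have hs : ∀ η : ℝ, 0 < η → ∀ᶠ b : ℕ in atTop, (K b : ℝ) ≤ η * Real.log b ^ 2 := by
    intro η hη
    have h1 : Tendsto (fun b : ℕ => η * Real.log b ^ 2) atTop atTop :=
      ((tendsto_pow_atTop (by norm_num)).comp tendsto_log_nat).const_mul_atTop hη
    filter_upwards [h1.eventually_ge_atTop (K₀ : ℝ), hKev] with b h2 h3
    rw [h3]
    exact h2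
  -- the parameter
  obtain ⟨t, ht0, ht1, ht⟩ : ∃ t : ℝ, 0 ≤ t ∧ t ≤ 1 ∧ t / K₀ + 1 - t = 1 / x := by
    have hx0 : 0 < x := by linarith
    have hK0 : (1:ℝ) ≤ K₀ := hx1.trans hxK
    rcases hK0.eq_or_lt with h | h
    · have h1 : x = 1 := le_antisymm (by rw [h]; exact hxK) hx1
      exact ⟨0, le_rfl, by norm_num, by rw [h1]; norm_num⟩
    · have h1 : 0 < 1 - 1 / (K₀ : ℝ) := by
        rw [sub_pos, div_lt_one (by linarith)]
        exact h
      refine ⟨(1 - 1 / x) / (1 - 1 / K₀), ?_, ?_, ?_⟩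
      · apply div_nonneg _ h1.le
        rw [sub_nonneg, div_le_one hx0]
        exact hx1
      · rw [div_le_one h1]
        have : 1 / (K₀ : ℝ) ≤ 1 / x := one_div_le_one_div_of_le hx0 hxK
        linarith
      · have h2 : (K₀ : ℝ) - 1 ≠ 0 := by linarith
        field_simp
        ring
  have hg : Tendsto (fun b : ℕ => t / K b + 1 - t) atTop (𝓝 (1 / x)) := by
    rw [← ht]
    apply Tendsto.congr' _ tendsto_const_nhds
    filter_upwards [hKev] with b hb
    rw [hb]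
  have hx0 : 0 < x := by linarith
  obtain ⟨Ω, mΩ, P, hP, E, φ, hB, hM, hq⟩ := exists_clus K ht0 ht1 hK1 hs
  have hs2 := short_blk hK1 hs
  have htend := blk_tendsto hK1
  have hup : ∀ lam : ℝ, 0 ≤ lam → (x : EReal) < lam → ∃ σ : ℝ, 0 < σ ∧ 1 < lam * σ ∧
      ∀ᶠ j : ℕ in atTop, φ j (Finset.Ioc (blk K j) (blk K (j + 1))) ≤
        Real.exp (-(σ * ((blk K (j + 1) : ℝ) - blk K j) / Real.log (blk K j))) := by
    intro lam hlam hlt
    rw [EReal.coe_lt_coe_iff] at hlt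
    have h1 : 1 < lam * (1 / x) := by rw [mul_one_div, lt_div_iff₀ hx0]; linarith
    obtain ⟨σ, hσ0, hσ1, hσ2⟩ := exists_lt_between (by positivity) h1
    refine ⟨σ, hσ0, hσ2, ?_⟩
    filter_upwards [htend.eventually (ev_upper ht0 ht1 hK1 hg hσ1)] with j h1
    rw [hq, blk_diff]
    exact h1
  have hinf : ∀ᵐ ω ∂P, {n | ω ∈ E n}.Infinite := by
    obtain ⟨σ, h1, h2, h3⟩ := hup (x + 1) (by positivity) (by
      rw [EReal.coe_lt_coe_iff]
      linarith)
    exact infinite_of_upper (hB.upper hs2 h1 (by positivity) h2 h3)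
  refine ⟨Ω, mΩ, P, hP, E, hM m hKm, value_of_blocks hB hs2 hinf ?_ hup ?_⟩
  · exact_mod_cast hx0.le
  · intro lam hlam hlt
    rw [EReal.coe_lt_coe_iff] at hlt
    have h1 : lam * (1 / x) < 1 := by rw [mul_one_div, div_lt_one hx0]; exact hlt
    obtain ⟨σ, hσ1, hσ2⟩ := exists_pos_between h1
    have hσ0 : 0 ≤ σ := by
      have : 0 < 1 / x := by positivity
      linarith
    refine ⟨σ, hσ0, hσ2, ?_⟩
    filter_upwards [htend.eventually (ev_lower ht0 ht1 hK1 hg hσ1 hσ0)] with j h1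
    rw [hq, blk_diff]
    exact h1

/-- the value infinity -/
theorem clus_value_top {m : ℕ → ℕ} (hm : Tendsto m atTop atTop) : IsValue m ⊤ := by
  set κ : ℕ → ℕ := fun b => ⌊√(Real.log b)⌋₊ with hκ
  have hκmono : ∀ a b : ℕ, a ≤ b → κ a ≤ κ b := by
    intro a b hab
    apply Nat.floor_mono
    apply Real.sqrt_le_sqrt
    rcases Nat.eq_zero_or_pos a with h | h
    · rw [h]
      simp [Real.log_natCast_nonneg]
    · exact Real.log_le_log (by exact_mod_cast h) (by exact_mod_cast hab)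
  have hκle : ∀ b : ℕ, (κ b : ℝ) ≤ √(Real.log b) := fun b => Nat.floor_le (Real.sqrt_nonneg _)
  have hκtend : Tendsto κ atTop atTop :=
    tendsto_nat_floor_atTop.comp (Real.tendsto_sqrt_atTop.comp tendsto_log_nat)
  set K : ℕ → ℕ := fun b => 1 + min (low m b) (κ b) with hK
  have hK1 : ∀ b, 1 ≤ K b := fun b => by simp only [hK]; omega
  have hKm : ∀ b n, b ≤ n → K b ≤ 1 + m n := by
    intro b n hbn
    have := low_le m hbn
    simp only [hK]
    omega
  have hKκ : ∀ b n, b ≤ n → K b ≤ 1 + κ n := by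
    intro b n hbn
    have := hκmono b n hbn
    simp only [hK]
    omega
  have hKtend : Tendsto (fun b : ℕ => (K b : ℝ)) atTop atTop := by
    apply tendsto_natCast_atTop_atTop.comp
    rw [tendsto_atTop]
    intro N
    filter_upwards [(low_tendsto hm).eventually_ge_atTop N, hκtend.eventually_ge_atTop N] with
      b h1 h2
    simp only [hK]
    omega
  have hs : ∀ η : ℝ, 0 < η → ∀ᶠ b : ℕ in atTop, (K b : ℝ) ≤ η * Real.log b ^ 2 := by
    intro η hη
    filter_upwards [ev_log_ge (2 / η), ev_log_ge 1] with b h2 h3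
    rw [div_le_iff₀ hη] at h2
    have h4 : (K b : ℝ) ≤ 1 + κ b := by
      have : K b ≤ 1 + κ b := hKκ b b le_rfl
      exact_mod_cast this
    have h5 : √(Real.log b) ≤ Real.log b := by
      rw [Real.sqrt_le_left (by linarith)]
      nlinarith
    have h6 := hκle b
    nlinarith
  have hg : Tendsto (fun b : ℕ => (1:ℝ) / K b + 1 - 1) atTop (𝓝 0) := by
    have h1 : Tendsto (fun b : ℕ => (1:ℝ) / K b) atTop (𝓝 0) := tendsto_const_nhds.div_atTop hKtend
    refine h1.congr fun b => by ring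
  obtain ⟨Ω, mΩ, P, hP, E, φ, hB, hM, hq⟩ := exists_clus K zero_le_one le_rfl hK1 hs
  have hs2 := short_blk hK1 hs
  have htend := blk_tendsto hK1
  have hinf : ∀ᵐ ω ∂P, {n | ω ∈ E n}.Infinite := by
    apply (hM κ hKκ).infinite
    filter_upwards [eventually_gt_atTop 0] with n hn
    have h1 : ((κ n ^ 2 : ℕ) : ℝ) ≤ n := by
      push_cast
      have h2 : (κ n : ℝ) ^ 2 ≤ √(Real.log n) ^ 2 := pow_le_pow_left₀ (Nat.cast_nonneg _) (hκle n) 2
      rw [Real.sq_sqrt (Real.log_natCast_nonneg n)] at h2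
      exact h2.trans (Real.log_le_self (Nat.cast_nonneg _))
    exact_mod_cast h1
  refine ⟨Ω, mΩ, P, hP, E, hM m hKm, value_of_blocks hB hs2 hinf le_top ?_ ?_⟩
  · intro lam _ hlt
    exact absurd hlt (not_lt.2 le_top)
  · intro lam hlam _
    obtain ⟨σ, hσ1, hσ2⟩ := exists_pos_between (lam := lam) (ρ := 0) (by norm_num)
    refine ⟨σ, hσ1.le, hσ2, ?_⟩
    filter_upwards [htend.eventually (ev_lower zero_le_one le_rfl hK1 hg hσ1 hσ1.le)] with j h1
    rw [hq, blk_diff]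
    exact h1

end Pool.Agent.H41.LD
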