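import Pool.Agent.H41.LD.Seq

/-! # Models with hard-core blocks -/

set_option autoImplicit false
set_option linter.unusedSectionVars false

namespace Pool.Agent.H41.LD

open MeasureTheory Filter Topology ProbabilityTheory
open Pool.Agent.H34.ND (Free cramerConst)

/-- the length of the block which starts at `b`, about `(log b) ^ (3 / 2)` -/
noncomputable def hlen (b : ℕ) : ℕ := ⌊LL b * √(LL b)⌋₊ + 1

lemma one_le_hlen (b : ℕ) : 1 ≤ hlen b := by unfold hlen; omega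

lemma hlen_le (b : ℕ) : (hlen b : ℝ) ≤ LL b * √(LL b) + 1 := by
  unfold hlen
  push_cast
  have := Nat.floor_le (mul_nonneg (LL_pos b).le (Real.sqrt_nonneg (LL b)))
  linarith

lemma le_hlen (b : ℕ) : LL b * √(LL b) ≤ hlen b := by
  unfold hlen
  push_cast
  exact (Nat.lt_floor_add_one _).le

lemma hlen_short : ∀ η : ℝ, 0 < η → ∀ᶠ b : ℕ in atTop, (hlen b : ℝ) ≤ η * Real.log b ^ 2 := by
  intro η hη
  have h1 : ∀ᶠ b : ℕ in atTop, 64 / η ^ 2 ≤ LL b := LL_tendsto.eventually_ge_atTop _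
  filter_upwards [h1, ev_log_ge 2] with b h2 h3
  set u : ℝ := Real.log b with hu
  have hL : LL b = 2 + u := rfl
  have hLu : LL b ≤ 2 * u := by rw [hL]; linarith
  have hL0 := LL_pos b
  have hs : √(LL b) * √(LL b) = LL b := Real.mul_self_sqrt hL0.le
  have hs0 : 0 < √(LL b) := Real.sqrt_pos.2 hL0
  have h4 : 8 / η ≤ √(LL b) := by
    apply Real.le_sqrt_of_sq_le
    rw [div_pow]
    norm_num
    exact h2
  have h5 : 8 * √(LL b) ≤ η * LL b := by
    rw [div_le_iff₀ hη] at h4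
    nlinarith
  have h6 : 1 ≤ √(LL b) := Real.one_le_sqrt.2 (by linarith [two_le_LL b])
  have h7 := hlen_le b
  have h8 : LL b * √(LL b) + 1 ≤ 2 * (LL b * √(LL b)) := by nlinarith [two_le_LL b]
  have h9 : 2 * (LL b * √(LL b)) ≤ η / 4 * LL b ^ 2 := by nlinarith
  have h10 : LL b ^ 2 ≤ 4 * u ^ 2 := by nlinarith
  nlinarith

/-- the range of the hard-core model in the block which starts at `b` -/
noncomputable def rr (m : ℕ → ℕ) (c : ℝ) (b : ℕ) : ℕ := min (low m b) ⌊c * LL b⌋₊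

/-- the prescribed probability that the block which starts at `b` is empty -/
noncomputable def qq (m : ℕ → ℕ) (c : ℝ) (ρ : ℕ → ℝ) (b : ℕ) : ℝ :=
  min ((1 - 1 / LL b) ^ hlen b)
    (max (zmin (rr m c b) (1 / LL b) (hlen b)) (Real.exp (-(ρ b * hlen b / LL b))))

lemma inv_LL_le (b : ℕ) : 1 / LL b ≤ 1 / 2 :=
  one_div_le_one_div_of_le (by norm_num) (two_le_LL b)

lemma Z_singleton (r : ℕ) (x : ℝ) (n : ℕ) : Z r x {n} = 1 - x := by
  have h1 : ({n} : Finset ℕ) = insert n ∅ := by simp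
  rw [h1, Z_insert (by simp)]
  simp

theorem exists_core (m : ℕ → ℕ) (c : ℝ) (ρ : ℕ → ℝ) :
    ∃ (Ω : Type) (_ : MeasurableSpace Ω) (P : Measure Ω) (_ : IsProbabilityMeasure P)
      (E : ℕ → Set Ω) (φ : ℕ → Finset ℕ → ℝ), Blocks P E (blk hlen) φ ∧ Model P E m ∧
        ∀ j, φ j (Finset.Ioc (blk hlen j) (blk hlen (j + 1))) = qq m c ρ (blk hlen j) := by
  classical
  -- the densities
  have hu : ∀ b : ℕ, ∃ u : ℝ, 0 ≤ u ∧ u ≤ 1 / LL b ∧ (∀ k ≤ hlen b, 0 < zz (rr m c b) u k) ∧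
      zz (rr m c b) u (hlen b) * ((1 - 1 / LL b) / (1 - u)) ^ hlen b = qq m c ρ b := by
    intro b
    have h1 := inv_LL_le b
    have h2 := LL_pos b
    have h0 : 0 < 1 / LL b := by positivity
    apply exists_density h0.le (by linarith)
    · apply lt_min
      · apply pow_pos
        linarith
      · exact lt_max_of_lt_right (Real.exp_pos _)
    · apply le_min
      · exact zmin_le_pow h0.le (by linarith)
      · exact le_max_left _ _
    · exact min_le_left _ _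
  choose u hu0 hu1 hu2 hu3 using hu
  set s : ℕ → ℝ := fun b => (1 - 1 / LL b) / (1 - u b) with hs
  have hs0 : ∀ b, 0 < s b ∧ s b ≤ 1 := by
    intro b
    have h1 := inv_LL_le b
    have h2 := hu1 b
    refine ⟨div_pos (by linarith) (by linarith), ?_⟩
    rw [div_le_one (by linarith)]
    linarith
  set φ : ℕ → Finset ℕ → ℝ := fun j S =>
    Z (rr m c (blk hlen j)) (u (blk hlen j)) S * s (blk hlen j) ^ S.card with hφ
  have hreal : ∀ j, Realizable (φ j) (Finset.Ioc (blk hlen j) (blk hlen (j + 1))) := by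
    intro j
    apply (realizable_Z (N := hlen (blk hlen j)) (a := blk hlen j) (hu0 _) (hu2 _) ?_).mul
      (realizable_pow (hs0 _).1 (hs0 _).2 _)
    simp only [blk]
    exact Finset.Subset.refl _
  obtain ⟨Ω, mΩ, P, hP, E, hB⟩ := exists_blocks' (blk_mono one_le_hlen) rfl hreal
  refine ⟨Ω, mΩ, P, hP, E, φ, hB, ⟨?_, ?_⟩, ?_⟩
  · apply hB.rangeDep
    intro n j S T hS hT hSn hTn
    obtain ⟨s₀, hs₀⟩ := hSn
    have h1 : blk hlen j ≤ n := by
      have := hS s₀ hs₀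
      omega
    have h2 : rr m c (blk hlen j) ≤ m n := (min_le_left _ _).trans (low_le m h1)
    have h3 : ∀ s ∈ S, ∀ t ∈ T, s + rr m c (blk hlen j) < t := by
      intro s hs t ht
      have h4 := hS s hs
      have h5 := hT t ht
      omega
    have h4 : Disjoint S T := by
      rw [Finset.disjoint_left]
      intro s hs ht
      have := h3 s hs s ht
      omega
    simp only [hφ]
    rw [Z_union T.card T le_rfl h3, Finset.card_union_of_disjoint h4, pow_add]
    ring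
  · apply dens_of_blocks one_le_hlen hlen_short hB
    intro j n _ _
    simp only [hφ, hs]
    rw [Z_singleton, Finset.card_singleton, pow_one]
    have h1 := inv_LL_le (blk hlen j)
    have h2 := hu1 (blk hlen j)
    have h3 : 1 - u (blk hlen j) ≠ 0 := by linarith
    field_simp
  · intro j
    simp only [hφ]
    have h1 : blk hlen (j + 1) = blk hlen j + hlen (blk hlen j) := rfl
    rw [h1, Z_Ioc, Nat.card_Ioc, Nat.add_sub_cancel_left]
    exact hu3 _

/-! ### the rates -/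

lemma ev_rr {m : ℕ → ℕ} {c c' : ℝ} (hc : 0 ≤ c) (hc' : c' = 0 ∨ (0 < c' ∧ c' < c))
    (hm : ∀ ε : ℝ, 0 < ε → ∀ᶠ n : ℕ in atTop, (c - ε) * Real.log n ≤ m n) :
    ∀ᶠ b : ℕ in atTop, c' * LL b ≤ rr m c b := by
  rcases hc' with h0 | ⟨h0, h1⟩
  · exact Eventually.of_forall fun b => by rw [h0, zero_mul]; positivity
  set ε : ℝ := (c - c') / 2 with hε
  have hε0 : 0 < ε := by rw [hε]; linarith
  obtain ⟨n₀, hn₀⟩ := eventually_atTop.1 (hm ε hε0)
  have h2 : ∀ᶠ b : ℕ in atTop, (2 * c' + 1) / ε ≤ Real.log b := ev_log_ge _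
  filter_upwards [eventually_ge_atTop (n₀ + 1), h2] with b hb1 hb2
  rw [div_le_iff₀ hε0] at hb2
  have hlog0 : 0 ≤ Real.log b := Real.log_natCast_nonneg b
  unfold rr
  rw [Nat.cast_min]
  apply le_min
  · obtain ⟨n, h3, h4⟩ := low_mem m b
    rw [← h4]
    have h5 := hn₀ n (by omega)
    have h6 : Real.log b ≤ Real.log n := by
      apply Real.log_le_log
      · have : 0 < b := by omega
        exact_mod_cast this
      · exact_mod_cast h3
    have h7 : (c - ε) * Real.log b ≤ (c - ε) * Real.log n := by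
      apply mul_le_mul_of_nonneg_left h6
      rw [hε]
      linarith
    unfold LL
    have h8 : c - ε = c' + ε := by rw [hε]; ring
    rw [h8] at h5 h7
    nlinarith
  · have h3 := Nat.lt_floor_add_one (c * LL b)
    have h4 : LL b = 2 + Real.log b := rfl
    have h5 : c = c' + 2 * ε := by rw [hε]; ring
    nlinarith

lemma ev_zmin {m : ℕ → ℕ} {c σ : ℝ} (hc : 0 ≤ c)
    (hm : ∀ ε : ℝ, 0 < ε → ∀ᶠ n : ℕ in atTop, (c - ε) * Real.log n ≤ m n) (hσ0 : 0 ≤ σ) {i : ℕ}
    (hσ : σ < tau c i) : ∀ᶠ b : ℕ in atTop,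
      zmin (rr m c b) (1 / LL b) (hlen b) ≤ Real.exp (-(σ * hlen b / Real.log b)) := by
  obtain ⟨σ₁, hσ₁, hσ₁'⟩ := exists_between hσ
  obtain ⟨σ₂, hσ₂, hσ₂'⟩ := exists_between hσ₁
  obtain ⟨c', hc', hc'σ⟩ : ∃ c', (c' = 0 ∨ (0 < c' ∧ c' < c)) ∧ σ₁ < tau c' i := by
    rcases hc.eq_or_lt with h | h
    · exact ⟨0, Or.inl rfl, by rw [h]; exact hσ₁'⟩
    · have h1 : ∀ᶠ t : ℝ in 𝓝 c, σ₁ < tau t i ∧ 0 < t :=
        ((tau_continuous i).continuousAt.eventually (lt_mem_nhds hσ₁')).and (lt_mem_nhds h)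
      obtain ⟨t, ⟨ht1, ht2⟩, ht3⟩ := ((h1.filter_mono nhdsWithin_le_nhds).and
        (self_mem_nhdsWithin (a := c) (s := Set.Iio c))).exists
      exact ⟨t, Or.inr ⟨ht2, ht3⟩, ht1⟩
  have hc'0 : 0 ≤ c' := by
    rcases hc' with h | h
    · exact h.ge
    · exact h.1.le
  have hbig : ∀ᶠ b : ℕ in atTop, ((σ₁ / (σ₁ - σ₂) + 1) * (i * c + 1)) ^ 2 ≤ LL b :=
    LL_tendsto.eventually_ge_atTop _
  filter_upwards [ev_rr hc hc' hm, ev_rate hσ₂, hbig, ev_log_ge 1] with b h1 h2 h3 h4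
  set L : ℝ := LL b with hL
  set N : ℕ := hlen b with hN
  have hL0 : 0 < L := LL_pos b
  have hsq : √L * √L = L := Real.mul_self_sqrt hL0.le
  have hNL : L * √L ≤ N := le_hlen b
  have hσ₁0 : 0 < σ₁ := by linarith
  have hroot : (σ₁ / (σ₁ - σ₂) + 1) * (i * c + 1) ≤ √L := Real.le_sqrt_of_sq_le h3
  have hic : 0 ≤ (i : ℝ) * c := by positivity
  have hfrac : 0 ≤ σ₁ / (σ₁ - σ₂) := div_nonneg hσ₁0.le (by linarith)
  have hroot1 : (i : ℝ) * c ≤ √L := by nlinarith
  have hr : (rr m c b : ℝ) ≤ c * L := by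
    have h5 : rr m c b ≤ ⌊c * L⌋₊ := min_le_right _ _
    have h6 : (rr m c b : ℝ) ≤ ⌊c * L⌋₊ := by exact_mod_cast h5
    exact h6.trans (Nat.floor_le (by positivity))
  have hirc : (i : ℝ) * rr m c b ≤ i * c * L := by
    have := mul_le_mul_of_nonneg_left hr (Nat.cast_nonneg (α := ℝ) i)
    linarith
  have hirN : i * rr m c b ≤ N := by
    have h5 : ((i * rr m c b : ℕ) : ℝ) ≤ N := by
      push_cast
      have h6 : (i : ℝ) * c * L ≤ √L * L := mul_le_mul_of_nonneg_right hroot1 hL0.le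
      linarith
    exact_mod_cast h5
  refine (zmin_le_exp (by positivity) i hirN).trans ?_
  apply Real.exp_le_exp.2
  apply neg_le_neg
  -- the rate
  have h5 : c' ≤ 1 / L * (rr m c b : ℝ) := by
    rw [one_div, inv_mul_eq_div, le_div_iff₀ hL0]
    exact h1
  have h6 : σ₁ ≤ tau (1 / L * (rr m c b : ℝ)) i :=
    hc'σ.le.trans (tau_mono_left hc'0 h5 i)
  have h7 : (0:ℝ) ≤ (N : ℝ) - i * rr m c b := by
    have h8 : ((i * rr m c b : ℕ) : ℝ) ≤ N := by exact_mod_cast hirN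
    push_cast at h8
    linarith
  have h8 : 1 / L * σ₁ * ((N : ℝ) - i * rr m c b) ≤
      1 / L * tau (1 / L * (rr m c b : ℝ)) i * ((N : ℝ) - i * rr m c b) := by
    apply mul_le_mul_of_nonneg_right _ h7
    exact mul_le_mul_of_nonneg_left h6 (by positivity)
  refine le_trans ?_ h8
  have h9 : σ * N / Real.log b ≤ σ₂ / L * N := by
    rw [mul_div_right_comm]
    exact mul_le_mul_of_nonneg_right h2 (Nat.cast_nonneg _)
  refine h9.trans ?_
  rw [div_mul_eq_mul_div, one_div, inv_mul_eq_div, div_mul_eq_mul_div]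
  apply div_le_div_of_nonneg_right _ hL0.le
  -- σ₂ N ≤ σ₁ (N - i r)
  have h10 : σ₁ * (i * c) ≤ (σ₁ - σ₂) * √L := by
    have h11 : σ₁ / (σ₁ - σ₂) * (i * c) ≤ √L := by nlinarith
    rw [div_mul_eq_mul_div, div_le_iff₀ (by linarith)] at h11
    linarith
  have h11 : σ₁ * (i * rr m c b) ≤ (σ₁ - σ₂) * N := by
    have h12 : σ₁ * (i * rr m c b) ≤ σ₁ * (i * c * L) := mul_le_mul_of_nonneg_left hirc hσ₁0.le
    have h13 : σ₁ * (i * c) * L ≤ (σ₁ - σ₂) * √L * L := mul_le_mul_of_nonneg_right h10 hL0.le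
    have h14 : (σ₁ - σ₂) * (L * √L) ≤ (σ₁ - σ₂) * N :=
      mul_le_mul_of_nonneg_left hNL (by linarith)
    linarith
  linarith

end Pool.Agent.H41.LD
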