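import Pool.Agent.H41.LD.Recur

/-! # The avoidance probabilities of the hard-core model and its existence on an interval -/

set_option autoImplicit false

namespace Pool.Agent.H41.LD

open Finset

/-- any two elements of `T` have distance larger than `r` -/
def Sep (r : ℕ) (T : Finset ℕ) : Prop := ∀ a ∈ T, ∀ b ∈ T, a < b → a + r < b

instance (r : ℕ) : DecidablePred (Sep r) := fun T => by unfold Sep; infer_instance

/-- the avoidance probabilities of the hard-core model with range `r` and density `x` -/
noncomputable def Z (r : ℕ) (x : ℝ) (S : Finset ℕ) : ℝ :=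
  ∑ T ∈ S.powerset with Sep r T, (-x) ^ T.card

lemma sep_empty (r : ℕ) : Sep r ∅ := by simp [Sep]

lemma Sep.mono {r : ℕ} {S T : Finset ℕ} (h : Sep r T) (hST : S ⊆ T) : Sep r S :=
  fun a ha b hb => h a (hST ha) b (hST hb)

@[simp] lemma Z_empty (r : ℕ) (x : ℝ) : Z r x ∅ = 1 := by
  simp [Z, sep_empty, Finset.filter_singleton]

lemma Z_insert {r : ℕ} {x : ℝ} {S : Finset ℕ} {v : ℕ} (hS : ∀ s ∈ S, s < v) :
    Z r x (insert v S) = Z r x S - x * Z r x (S.filter fun s => s + r < v) := by
  have hv : v ∉ S := fun h => lt_irrefl _ (hS v h)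
  unfold Z
  rw [Finset.sum_filter, Finset.sum_powerset_insert hv, ← Finset.sum_filter, ← Finset.sum_filter,
    sub_eq_add_neg]
  congr 1
  rw [← neg_mul, Finset.mul_sum]
  have hset : (S.powerset.filter fun T => Sep r (insert v T)) =
      ((S.filter fun s => s + r < v).powerset.filter fun T => Sep r T) := by
    ext T
    simp only [Finset.mem_filter, Finset.mem_powerset]
    constructor
    · rintro ⟨h1, h2⟩
      refine ⟨fun s hs => ?_, h2.mono (Finset.subset_insert _ _)⟩
      rw [Finset.mem_filter]
      exact ⟨h1 hs, h2 s (Finset.mem_insert_of_mem hs) v (Finset.mem_insert_self _ _)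
        (hS s (h1 hs))⟩
    · rintro ⟨h1, h2⟩
      have h3 : ∀ s ∈ T, s ∈ S ∧ s + r < v := fun s hs => Finset.mem_filter.1 (h1 hs)
      refine ⟨fun s hs => (h3 s hs).1, ?_⟩
      intro a ha b hb hab
      rw [Finset.mem_insert] at ha hb
      rcases ha with rfl | ha
      · rcases hb with rfl | hb
        · exact absurd hab (lt_irrefl _)
        · exact absurd hab (not_lt.2 (hS b (h3 b hb).1).le)
      · rcases hb with rfl | hb
        · exact (h3 a ha).2
        · exact h2 a ha b hb hab
  rw [hset]
  refine Finset.sum_congr rfl fun T hT => ?_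
  have hvT : v ∉ T := by
    intro h
    have := (Finset.mem_powerset.1 (Finset.mem_filter.1 hT).1) h
    exact hv (Finset.mem_filter.1 this).1
  rw [Finset.card_insert_of_notMem hvT, pow_succ]
  ring

lemma Z_Ioc (r : ℕ) (x : ℝ) (a k : ℕ) : Z r x (Ioc a (a + k)) = zz r x k := by
  induction k using Nat.strong_induction_on with
  | _ k ih =>
    rcases k with _ | k
    · simp
    have h1 : Ioc a (a + (k + 1)) = insert (a + (k + 1)) (Ioc a (a + k)) := by
      ext s
      simp only [Finset.mem_Ioc, Finset.mem_insert]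
      omega
    have h2 : ((Ioc a (a + k)).filter fun s => s + r < a + (k + 1)) = Ioc a (a + (k - r)) := by
      ext s
      simp only [Finset.mem_Ioc, Finset.mem_filter]
      omega
    rw [h1, Z_insert (fun s hs => by rw [Finset.mem_Ioc] at hs; omega), h2, ih k (by omega),
      ih (k - r) (by omega), zz_succ]

lemma Z_ge {r N : ℕ} {x : ℝ} (hx : 0 ≤ x) (hz : ∀ k ≤ N, 0 < zz r x k) {a : ℕ} {S : Finset ℕ}
    (hS : S ⊆ Ioc a (a + N)) : zz r x N ≤ Z r x S := by
  set Y : ℕ → ℝ := fun k => Z r x (S.filter fun s => s ≤ a + k) with hY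
  have hYN : Y N = Z r x S := by
    simp only [hY]
    congr 1
    rw [Finset.filter_eq_self]
    intro s hs
    exact (Finset.mem_Ioc.1 (hS hs)).2
  have hY0 : Y 0 = 1 := by
    simp only [hY]
    have : (S.filter fun s => s ≤ a + 0) = ∅ := by
      rw [Finset.filter_eq_empty_iff]
      intro s hs
      have := (Finset.mem_Ioc.1 (hS hs)).1
      omega
    rw [this, Z_empty]
  rw [← hYN]
  refine zz_le_of_rec hx hz hY0 ?_ N le_rfl
  intro k _
  by_cases h : a + (k + 1) ∈ S
  · right
    have h1 : (S.filter fun s => s ≤ a + (k + 1)) =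
        insert (a + (k + 1)) (S.filter fun s => s ≤ a + k) := by
      ext s
      simp only [Finset.mem_filter, Finset.mem_insert]
      constructor
      · rintro ⟨h2, h3⟩
        by_cases h4 : s = a + (k + 1)
        · exact Or.inl h4
        · exact Or.inr ⟨h2, by omega⟩
      · rintro (h2 | ⟨h2, h3⟩)
        · rw [h2]
          exact ⟨h, le_rfl⟩
        · exact ⟨h2, by omega⟩
    have h2 : ((S.filter fun s => s ≤ a + k).filter fun s => s + r < a + (k + 1)) =
        S.filter fun s => s ≤ a + (k - r) := by
      ext s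
      simp only [Finset.mem_filter]
      constructor
      · rintro ⟨⟨h2, h3⟩, h4⟩
        exact ⟨h2, by omega⟩
      · rintro ⟨h2, h3⟩
        have := (Finset.mem_Ioc.1 (hS h2)).1
        refine ⟨⟨h2, by omega⟩, by omega⟩
    simp only [hY]
    rw [h1, Z_insert (fun s hs => by rw [Finset.mem_filter] at hs; omega), h2]
  · left
    simp only [hY]
    congr 1
    ext s
    simp only [Finset.mem_filter]
    constructor
    · rintro ⟨h2, h3⟩
      refine ⟨h2, ?_⟩
      rcases Nat.lt_or_ge (a + k) s with h4 | h4
      · exact absurd (show s = a + (k + 1) by omega) (fun h5 => h (h5 ▸ h2))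
      · exact h4
    · rintro ⟨h2, h3⟩
      exact ⟨h2, by omega⟩

/-- the avoidance probabilities factor over distant sets -/
lemma Z_union {r : ℕ} {x : ℝ} {S : Finset ℕ} : ∀ (n : ℕ) (T : Finset ℕ), T.card ≤ n →
    (∀ s ∈ S, ∀ t ∈ T, s + r < t) → Z r x (S ∪ T) = Z r x S * Z r x T := by
  intro n
  induction n with
  | zero =>
    intro T hT _
    have : T = ∅ := Finset.card_eq_zero.1 (by omega)
    subst this
    simp
  | succ n ih =>
    intro T hT hST
    rcases T.eq_empty_or_nonempty with rfl | hne
    · simp
    set v := T.max' hne with hv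
    have hvT : v ∈ T := Finset.max'_mem _ _
    set T₀ := T.erase v with hT₀
    have hTe : T = insert v T₀ := (Finset.insert_erase hvT).symm
    have hlt : ∀ t ∈ T₀, t < v := by
      intro t ht
      rw [hT₀, Finset.mem_erase] at ht
      exact lt_of_le_of_ne (Finset.le_max' _ _ ht.2) ht.1
    have hcard : T₀.card ≤ n := by
      rw [hT₀, Finset.card_erase_of_mem hvT]
      omega
    have hsub : T₀ ⊆ T := Finset.erase_subset _ _
    have h1 := ih T₀ hcard fun s hs t ht => hST s hs t (hsub ht)
    have h2 := ih (T₀.filter fun s => s + r < v)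
      ((Finset.card_le_card (Finset.filter_subset _ _)).trans hcard)
      fun s hs t ht => hST s hs t (hsub (Finset.mem_filter.1 ht).1)
    have h3 : S ∪ T = insert v (S ∪ T₀) := by
      rw [← Finset.union_insert, ← hTe]
    have h4 : ((S ∪ T₀).filter fun s => s + r < v) = S ∪ (T₀.filter fun s => s + r < v) := by
      ext s
      simp only [Finset.mem_filter, Finset.mem_union]
      constructor
      · rintro ⟨h5 | h5, h6⟩
        · exact Or.inl h5
        · exact Or.inr ⟨h5, h6⟩
      · rintro (h5 | ⟨h5, h6⟩)
        · exact ⟨Or.inl h5, hST s h5 v hvT⟩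
        · exact ⟨Or.inr h5, h6⟩
    rw [h3, Z_insert, h4, h1, h2]
    · conv_rhs => rw [hTe, Z_insert hlt]
      ring
    · intro s hs
      rw [Finset.mem_union] at hs
      rcases hs with hs | hs
      · have := hST s hs v hvT
        omega
      · exact hlt s hs

/-! ### the law -/

/-- the probability of the outcome `B` in the hard-core model on `V` -/
noncomputable def wt (r : ℕ) (x : ℝ) (V B : Finset ℕ) : ℝ :=
  (-1) ^ B.card * ∑ U ∈ V.powerset with (Sep r U ∧ B ⊆ U), (-x) ^ U.card

lemma wt_nonneg {r N : ℕ} {x : ℝ} (hx : 0 ≤ x) (hz : ∀ k ≤ N, 0 < zz r x k) {a : ℕ}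
    {V B : Finset ℕ} (hV : V ⊆ Ioc a (a + N)) (hB : B ⊆ V) : 0 ≤ wt r x V B := by
  by_cases hsep : Sep r B
  · set C : Finset ℕ := V.filter fun v => v ∉ B ∧ ∀ b ∈ B, (b < v → b + r < v) ∧ (v < b → v + r < b)
      with hC
    have h1 : ∑ U ∈ V.powerset with (Sep r U ∧ B ⊆ U), (-x) ^ U.card =
        ∑ T ∈ C.powerset with Sep r T, (-x) ^ (B.card + T.card) := by
      refine Finset.sum_nbij' (fun U => U \ B) (fun T => B ∪ T) ?_ ?_ ?_ ?_ ?_
      · intro U hU
        rw [Finset.mem_filter, Finset.mem_powerset] at hU
        obtain ⟨h1, h2, h3⟩ := hU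
        rw [Finset.mem_filter, Finset.mem_powerset]
        refine ⟨fun u hu => ?_, h2.mono Finset.sdiff_subset⟩
        rw [Finset.mem_sdiff] at hu
        rw [hC, Finset.mem_filter]
        exact ⟨h1 hu.1, hu.2, fun b hb => ⟨fun h => h2 b (h3 hb) u hu.1 h,
          fun h => h2 u hu.1 b (h3 hb) h⟩⟩
      · intro T hT
        rw [Finset.mem_filter, Finset.mem_powerset] at hT
        obtain ⟨h1, h2⟩ := hT
        have h4 : ∀ t ∈ T, t ∈ V ∧ t ∉ B ∧
            ∀ b ∈ B, (b < t → b + r < t) ∧ (t < b → t + r < b) := fun t ht => by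
          have := h1 ht
          rwa [hC, Finset.mem_filter] at this
        rw [Finset.mem_filter, Finset.mem_powerset]
        refine ⟨Finset.union_subset hB fun t ht => (h4 t ht).1, ?_, Finset.subset_union_left⟩
        intro u hu v hv huv
        rw [Finset.mem_union] at hu hv
        rcases hu with hu | hu
        · rcases hv with hv | hv
          · exact hsep u hu v hv huv
          · exact ((h4 v hv).2.2 u hu).1 huv
        · rcases hv with hv | hv
          · exact ((h4 u hu).2.2 v hv).2 huv
          · exact h2 u hu v hv huv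
      · intro U hU
        rw [Finset.mem_filter, Finset.mem_powerset] at hU
        exact Finset.union_sdiff_of_subset hU.2.2
      · intro T hT
        rw [Finset.mem_filter, Finset.mem_powerset] at hT
        have h4 : Disjoint B T := by
          rw [Finset.disjoint_right]
          intro t ht
          have := hT.1 ht
          rw [hC, Finset.mem_filter] at this
          exact this.2.1
        exact Finset.union_sdiff_cancel_left h4
      · intro U hU
        rw [Finset.mem_filter, Finset.mem_powerset] at hU
        have h5 := Finset.card_sdiff_add_card_eq_card hU.2.2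
        congr 1
        omega
    have h2 : wt r x V B = x ^ B.card * Z r x C := by
      unfold wt Z
      rw [h1, Finset.mul_sum, Finset.mul_sum]
      refine Finset.sum_congr rfl fun T _ => ?_
      rw [pow_add, ← mul_assoc, ← mul_pow]
      congr 2
      ring
    rw [h2]
    apply mul_nonneg (pow_nonneg hx _)
    exact (hz N le_rfl).le.trans (Z_ge hx hz ((Finset.filter_subset _ _).trans hV))
  · have h1 : (V.powerset.filter fun U => Sep r U ∧ B ⊆ U) = ∅ := by
      rw [Finset.filter_eq_empty_iff]
      rintro U _ ⟨h1, h2⟩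
      exact hsep (h1.mono h2)
    unfold wt
    rw [h1]
    simp

lemma sum_wt {r : ℕ} {x : ℝ} {V S : Finset ℕ} (hS : S ⊆ V) :
    ∑ B ∈ V.powerset with Disjoint B S, wt r x V B = Z r x S := by
  classical
  unfold wt
  simp_rw [Finset.mul_sum, Finset.sum_filter]
  have h1 : ∀ B ∈ V.powerset, (if Disjoint B S then ∑ U ∈ V.powerset,
      (if (Sep r U ∧ B ⊆ U) then (-1 : ℝ) ^ B.card * (-x) ^ U.card else 0) else 0) =
      ∑ U ∈ V.powerset, (if Sep r U then (-x) ^ U.card *
        (if (Disjoint B S ∧ B ⊆ U) then (-1 : ℝ) ^ B.card else 0) else 0) := by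
    intro B _
    by_cases hB : Disjoint B S
    · rw [if_pos hB]
      refine Finset.sum_congr rfl fun U _ => ?_
      by_cases hU : Sep r U
      · by_cases hBU : B ⊆ U
        · simp [hU, hBU, hB]
          ring
        · simp [hBU]
      · simp [hU]
    · rw [if_neg hB]
      symm
      apply Finset.sum_eq_zero
      intro U _
      simp [hB]
  rw [Finset.sum_congr rfl h1, Finset.sum_comm]
  have h2 : ∀ U ∈ V.powerset, (∑ B ∈ V.powerset, if Sep r U then (-x) ^ U.card *
        (if (Disjoint B S ∧ B ⊆ U) then (-1 : ℝ) ^ B.card else 0) else 0) =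
      if U ⊆ S then (if Sep r U then (-x) ^ U.card else 0) else 0 := by
    intro U hU
    rw [Finset.mem_powerset] at hU
    by_cases hs : Sep r U
    · simp only [hs, if_true]
      rw [← Finset.mul_sum, ← Finset.sum_filter]
      have h3 : (V.powerset.filter fun B => Disjoint B S ∧ B ⊆ U) = (U \ S).powerset := by
        ext B
        simp only [Finset.mem_filter, Finset.mem_powerset]
        constructor
        · rintro ⟨_, h4, h5⟩ b hb
          rw [Finset.mem_sdiff]
          exact ⟨h5 hb, Finset.disjoint_left.1 h4 hb⟩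
        · intro h4
          refine ⟨fun b hb => hU (Finset.mem_sdiff.1 (h4 hb)).1, ?_,
            fun b hb => (Finset.mem_sdiff.1 (h4 hb)).1⟩
          rw [Finset.disjoint_left]
          exact fun b hb => (Finset.mem_sdiff.1 (h4 hb)).2
      rw [h3]
      have h4 := Finset.sum_powerset_neg_one_pow_card (x := U \ S)
      have h5 : (∑ B ∈ (U \ S).powerset, (-1 : ℝ) ^ B.card) =
          if U \ S = ∅ then 1 else 0 := by
        have := congrArg (Int.cast : ℤ → ℝ) h4
        push_cast at this
        simpa using this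
      rw [h5]
      by_cases hUS : U ⊆ S
      · rw [if_pos hUS, if_pos (Finset.sdiff_eq_empty_iff_subset.2 hUS), mul_one]
      · rw [if_neg hUS, if_neg (fun h => hUS (Finset.sdiff_eq_empty_iff_subset.1 h)), mul_zero]
    · simp [hs]
  rw [Finset.sum_congr rfl h2]
  unfold Z
  rw [Finset.sum_filter, ← Finset.sum_filter (p := fun U => U ⊆ S)]
  have h6 : (V.powerset.filter fun U => U ⊆ S) = S.powerset := by
    ext U
    simp only [Finset.mem_filter, Finset.mem_powerset]
    exact ⟨fun h => h.2, fun h => ⟨h.trans hS, h⟩⟩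
  rw [h6]

end Pool.Agent.H41.LD
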