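import Pool.Agent.H41.LD.Low

/-! # The lower bound for the gaps of random sets with delayed conditional densities -/

set_option autoImplicit false

namespace Pool.Agent.H41.LD

open MeasureTheory Filter Topology ProbabilityTheory
open Pool.Agent.H34.ND (Free cramerConst)

/-- the choice of the constants -/
lemma exists_constants {κ l lam : ℝ} (hκ : 0 < κ) (hl : Real.exp (-1) < l) (hl1 : l ≤ 1)
    (hlt : lam < l / κ) : ∃ y₀ : ℝ, 0 < y₀ ∧ lam * y₀ < 1 ∧
      κ < y₀ * Real.exp (-((l * Real.log (1 / l) / κ) * y₀)) := by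
  have hl0 : 0 < l := (Real.exp_pos _).trans hl
  set θ : ℝ := Real.log (1 / l) with hθ
  have hθ0 : 0 ≤ θ := Real.log_nonneg (by rw [le_div_iff₀ hl0]; linarith)
  have hθ1 : θ < 1 := by
    rw [hθ, one_div, Real.log_inv]
    have := Real.log_lt_log (Real.exp_pos _) hl
    rw [Real.log_exp] at this
    linarith
  have hexp : Real.exp (-θ) = l := by
    rw [hθ, one_div, Real.log_inv, neg_neg, Real.exp_log hl0]
  have h1 : lam * (κ * 1 / l) < 1 := by
    rw [lt_div_iff₀ hκ] at hlt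
    rw [mul_one, ← mul_div_assoc, div_lt_one hl0]
    exact hlt
  have hc1 : ContinuousAt (fun u : ℝ => lam * (κ * u / l)) 1 := by fun_prop
  have hc2 : ContinuousAt (fun u : ℝ => u * θ) 1 := by fun_prop
  have hev : ∀ᶠ u : ℝ in 𝓝[>] 1, lam * (κ * u / l) < 1 ∧ u * θ < 1 ∧ 1 < u := by
    have h2 : ∀ᶠ u : ℝ in 𝓝 1, lam * (κ * u / l) < 1 := hc1.eventually (gt_mem_nhds h1)
    have h3 : ∀ᶠ u : ℝ in 𝓝 1, u * θ < 1 := hc2.eventually (gt_mem_nhds (by linarith))
    filter_upwards [h2.filter_mono nhdsWithin_le_nhds, h3.filter_mono nhdsWithin_le_nhds,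
      self_mem_nhdsWithin] with u h4 h5 h6
    exact ⟨h4, h5, h6⟩
  obtain ⟨u, hu1, hu2, hu3⟩ := hev.exists
  have hu0 : 0 < u := by linarith
  refine ⟨κ * u / l, by positivity, hu1, ?_⟩
  have h4 : l * θ / κ * (κ * u / l) = θ + θ * (u - 1) := by
    field_simp
    ring
  rw [h4, neg_add, Real.exp_add, hexp]
  have h5 : κ * u / l * (l * Real.exp (-(θ * (u - 1)))) = κ * (u * Real.exp (-(θ * (u - 1)))) := by
    field_simp
  rw [h5]
  have h6 : 1 < u * Real.exp (-(θ * (u - 1))) := by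
    have h7 : θ * (u - 1) < Real.log u := by
      have h8 := Real.one_sub_inv_le_log_of_pos hu0
      have h9 : θ * (u - 1) < 1 - u⁻¹ := by
        have h10 : 1 - u⁻¹ = u⁻¹ * (u - 1) := by
          field_simp
        rw [h10]
        apply mul_lt_mul_of_pos_right _ (by linarith)
        calc θ = (u * θ) * u⁻¹ := by field_simp
          _ < 1 * u⁻¹ := mul_lt_mul_of_pos_right hu2 (inv_pos.2 hu0)
          _ = u⁻¹ := one_mul _
      linarith
    rw [Real.exp_neg, ← div_eq_mul_inv, lt_div_iff₀ (Real.exp_pos _), one_mul]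
    calc Real.exp (θ * (u - 1)) < Real.exp (Real.log u) := Real.exp_lt_exp.2 h7
      _ = u := Real.exp_log hu0
  nlinarith

variable {Ω : Type*} [mΩ : MeasurableSpace Ω] {P : Measure Ω} {E : ℕ → Set Ω} {m : ℕ → ℕ}
  {p : ℕ → ℝ} [IsProbabilityMeasure P]

theorem Delayed.hasGaps (h : Delayed P E m p) {κ l lam : ℝ} (hκ : 0 < κ)
    (hl : Real.exp (-1) < l) (hl1 : l ≤ 1)
    (hp : ∀ ε, 0 < ε → ∀ᶠ n : ℕ in atTop, p n * Real.log n ≤ κ + ε)
    (hm : ∀ ε, 0 < ε → ∀ᶠ n : ℕ in atTop,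
      (m n : ℝ) ≤ (l * Real.log (1 / l) / κ + ε) * Real.log n)
    (hlam : 0 ≤ lam) (hlt : lam < l / κ) : ∀ᵐ ω ∂P, HasGaps {n | ω ∈ E n} lam := by
  obtain ⟨y₀, hy₀, hlamy, hκy⟩ := exists_constants hκ hl hl1 hlt
  set c : ℝ := l * Real.log (1 / l) / κ with hc
  have hc0 : 0 ≤ c := by
    have hl0 : 0 < l := (Real.exp_pos _).trans hl
    have : 0 ≤ Real.log (1 / l) := Real.log_nonneg (by rw [le_div_iff₀ hl0]; linarith)
    positivity
  -- constants
  obtain ⟨α, hα1, hα2⟩ := exists_between hlamy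
  obtain ⟨κ₂, hκ₂, hκ₂'⟩ := exists_between hκy
  obtain ⟨κ₁, hκ₁, hκ₁'⟩ := exists_between hκ₂
  obtain ⟨c₁, hc₁, hc₁'⟩ : ∃ c₁, c < c₁ ∧ κ₂ < y₀ * Real.exp (-(c₁ * y₀)) := by
    have h1 : ContinuousAt (fun t : ℝ => y₀ * Real.exp (-(t * y₀))) c := by fun_prop
    have h2 : ∀ᶠ t : ℝ in 𝓝 c, κ₂ < y₀ * Real.exp (-(t * y₀)) := h1.eventually (lt_mem_nhds hκ₂')
    obtain ⟨t, ht1, ht2⟩ := ((h2.filter_mono nhdsWithin_le_nhds).and
      (self_mem_nhdsWithin (a := c) (s := Set.Ioi c))).exists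
    exact ⟨t, ht2, ht1⟩
  have hc₁0 : 0 < c₁ := lt_of_le_of_lt hc0 hc₁
  -- limits as `L → ∞`
  have hlim0 : Tendsto (fun L : ℝ => y₀ / L) atTop (𝓝 0) := tendsto_const_nhds.div_atTop tendsto_id
  have hlim1 : Tendsto (fun L : ℝ => y₀ * Real.exp (-(c₁ * y₀ / (1 - y₀ / L)))) atTop
      (𝓝 (y₀ * Real.exp (-(c₁ * y₀ / (1 - 0))))) := by
    apply Tendsto.const_mul
    apply (Real.continuous_exp.tendsto _).comp
    apply Tendsto.neg
    exact Tendsto.div tendsto_const_nhds (tendsto_const_nhds.sub hlim0) (by norm_num)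
  have hev1 : ∀ᶠ L : ℝ in atTop, κ₁ ≤ y₀ * Real.exp (-(c₁ * y₀ / (1 - y₀ / L))) := by
    have h1 : κ₁ < y₀ * Real.exp (-(c₁ * y₀ / (1 - 0))) := by
      rw [sub_zero, div_one]
      linarith
    filter_upwards [hlim1.eventually (lt_mem_nhds h1)] with L hL
    exact hL.le
  have hlim2 : Tendsto (fun L : ℝ => (lam + 1 / L ^ 2) * (y₀ / (1 - y₀ / L))) atTop
      (𝓝 ((lam + 0) * (y₀ / (1 - 0)))) := by
    apply Tendsto.mul
    · apply tendsto_const_nhds.add
      exact tendsto_const_nhds.div_atTop (tendsto_pow_atTop (by norm_num))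
    · exact Tendsto.div tendsto_const_nhds (tendsto_const_nhds.sub hlim0) (by norm_num)
  have hev2 : ∀ᶠ L : ℝ in atTop, (lam + 1 / L ^ 2) * (y₀ / (1 - y₀ / L)) ≤ α := by
    have h1 : (lam + 0) * (y₀ / (1 - 0)) < α := by
      rw [add_zero, sub_zero, div_one]
      exact hα1
    filter_upwards [hlim2.eventually (gt_mem_nhds h1)] with L hL
    exact hL.le
  -- the bounds for `p` and `m`
  set ε : ℝ := (c₁ - c) / 2 with hε
  have hε0 : 0 < ε := by rw [hε]; linarith
  obtain ⟨n₁, hn₁⟩ := eventually_atTop.1 (hm ε hε0)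
  set κ₀ : ℝ := (κ + κ₁) / 2 with hκ₀
  obtain ⟨n₂, hn₂⟩ := eventually_atTop.1 (hp (κ₀ - κ) (by rw [hκ₀]; linarith))
  have hκ₀1 : κ₀ < κ₁ := by rw [hκ₀]; linarith
  have hκ₀0 : 0 < κ₀ := by rw [hκ₀]; linarith
  apply exists_windows h.meas hlam hα2
  filter_upwards [tendsto_log_nat.eventually hev1, tendsto_log_nat.eventually hev2,
    ev_log_ge (2 * y₀), ev_log_ge c₁, ev_log_ge 4, ev_log_ge (2 * (c + ε) / ε),
    ev_log_ge (2 * κ₁ / (κ₁ - κ₀)), ev_log_le (lam + 1) 2, ev_log_le 8 2,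
    eventually_ge_atTop (4 * (n₁ + 1)), eventually_ge_atTop (4 * (n₂ + 1))] with
    X hX1 hX2 hX3 hX4 hX5 hX6 hX7 hX8 hX9 hX10 hX11 a ha1 ha2 ha3 F hF
  set L : ℝ := Real.log X with hL
  have hL0 : 0 < L := by linarith
  have hX0 : (0:ℝ) < X := by
    have : 0 < X := by omega
    exact_mod_cast this
  set g : ℕ := wlen 1 X with hg
  have hgle : (g : ℝ) ≤ 2 * L ^ 2 := by
    have h6 : (⌊1 * L ^ 2⌋₊ : ℝ) ≤ 1 * L ^ 2 := Nat.floor_le (by positivity)
    have h7 : (g : ℝ) = ⌊1 * L ^ 2⌋₊ + 1 := by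
      rw [hg]
      simp only [wlen]
      push_cast
      rfl
    rw [h7]
    nlinarith
  set H : ℕ := wlen lam X with hH
  have hHle : (H : ℝ) ≤ lam * L ^ 2 + 1 := by
    have h6 : (⌊lam * L ^ 2⌋₊ : ℝ) ≤ lam * L ^ 2 := Nat.floor_le (by positivity)
    have h7 : (H : ℝ) = ⌊lam * L ^ 2⌋₊ + 1 := by
      rw [hH]
      simp only [wlen]
      push_cast
      rfl
    rw [h7]
    linarith
  have hlog2 : Real.log 2 < 1 := by
    have := Real.log_two_lt_d9
    linarith
  set M : ℕ := ⌊c₁ * L⌋₊ with hM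
  have hMle : (M : ℝ) ≤ c₁ * L := Nat.floor_le (by positivity)
  set y : ℝ := y₀ / L with hy
  have hy0 : 0 < y := by positivity
  have hy12 : y ≤ 1 / 2 := by
    rw [hy, div_le_iff₀ hL0]
    linarith
  have hpow : Real.exp (-(α * L)) ≤ (1 - y) ^ H := by
    refine le_trans ?_ (one_sub_pow_ge_exp (by linarith) H)
    apply Real.exp_le_exp.2
    apply neg_le_neg
    have h1 : (H : ℝ) * (y / (1 - y)) ≤ (lam * L ^ 2 + 1) * (y / (1 - y)) := by
      apply mul_le_mul_of_nonneg_right hHle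
      apply div_nonneg hy0.le
      linarith
    have h2 : (lam * L ^ 2 + 1) * (y / (1 - y)) =
        ((lam + 1 / L ^ 2) * (y₀ / (1 - y₀ / L))) * L := by
      have h3 : 1 - y₀ / L ≠ 0 := by
        have : (1:ℝ) - y ≠ 0 := by linarith
        exact this
      rw [hy]
      field_simp
    rw [h2] at h1
    exact h1.trans (mul_le_mul_of_nonneg_right hX2 hL0.le)
  refine le_trans (mul_le_mul_of_nonneg_right hpow measureReal_nonneg) ?_
  have haH : ((a + H : ℕ) : ℝ) ≤ 2 * X := by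
    have h1 : (a : ℝ) ≤ X := by exact_mod_cast ha2
    push_cast
    have h2 : lam * L ^ 2 + 1 ≤ (lam + 1) * L ^ 2 := by nlinarith
    linarith
  apply h.free_ge (M := M) (pb := κ₁ / L) ha3 _ _ _ hy0.le (by linarith) _ hF
  · -- M ≤ g
    have h1 : (M : ℝ) < ((g : ℕ) : ℝ) := by
      have h2 : (g : ℝ) = ⌊1 * L ^ 2⌋₊ + 1 := by
        rw [hg]
        simp only [wlen]
        push_cast
        rfl
      rw [h2]
      have h3 := Nat.lt_floor_add_one (1 * L ^ 2)
      nlinarith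
    have h2 : M < g := by exact_mod_cast h1
    exact h2.le
  · -- the bound for m
    intro j hj1 hj2
    have h1 : (X : ℝ) / 4 ≤ j := by
      have h2 : (a : ℝ) - g ≤ j := by
        have h3 : a ≤ j + g := by omega
        have h4 : (a : ℝ) ≤ j + g := by exact_mod_cast h3
        linarith
      linarith
    have h2 : n₁ ≤ j := by
      have h3 : ((4 * (n₁ + 1) : ℕ) : ℝ) ≤ X := by exact_mod_cast hX10
      push_cast at h3
      have h4 : (n₁ : ℝ) ≤ j := by linarith
      exact_mod_cast h4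
    have h3 := hn₁ j h2
    have hj0 : (0:ℝ) < j := by linarith
    have h4 : Real.log j ≤ Real.log 2 + L := by
      rw [hL, ← Real.log_mul (by norm_num) hX0.ne']
      apply Real.log_le_log hj0
      have h5 : (j : ℝ) ≤ ((a + H : ℕ) : ℝ) := by exact_mod_cast hj2
      linarith
    apply Nat.le_floor
    refine h3.trans ?_
    have h5 : (c + ε) * Real.log j ≤ (c + ε) * (1 + L) := by
      apply mul_le_mul_of_nonneg_left _ (by linarith)
      linarith
    have h6 : c₁ = c + 2 * ε := by rw [hε]; ring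
    rw [div_le_iff₀ hε0] at hX6
    rw [h6]
    nlinarith
  · -- the bound for p
    intro n hn1 hn2
    have h1 : (X : ℝ) / 2 ≤ n := by
      have h2 : (a : ℝ) ≤ n := by exact_mod_cast hn1.le
      linarith
    have h2 : n₂ ≤ n := by
      have h3 : ((4 * (n₂ + 1) : ℕ) : ℝ) ≤ X := by exact_mod_cast hX11
      push_cast at h3
      have h4 : (n₂ : ℝ) ≤ n := by linarith
      exact_mod_cast h4
    have h3 := hn₂ n h2
    have hn0 : (0:ℝ) < n := by linarith
    have h4 : L - 1 ≤ Real.log n := by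
      have h5 : Real.log (X / 2) ≤ Real.log n := Real.log_le_log (by linarith) h1
      rw [Real.log_div hX0.ne' (by norm_num)] at h5
      linarith
    rw [le_div_iff₀ hL0]
    rcases le_or_gt (p n) 0 with h5 | h5
    · have h6 : p n * L ≤ 0 := mul_nonpos_of_nonpos_of_nonneg h5 hL0.le
      linarith
    · have h6 : p n * (L - 1) ≤ κ₀ := by
        have := mul_le_mul_of_nonneg_left h4 h5.le
        linarith
      have h7 : κ₀ * L ≤ κ₁ * (L - 1) := by
        rw [div_le_iff₀ (by linarith)] at hX7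
        nlinarith
      have h8 : p n * L * (L - 1) ≤ κ₁ * (L - 1) := by nlinarith
      exact le_of_mul_le_mul_right h8 (by linarith)
  · -- the condition of the local lemma
    have h1 : κ₁ / L ≤ y * Real.exp (-(c₁ * y₀ / (1 - y₀ / L))) := by
      rw [hy, div_mul_eq_mul_div]
      exact div_le_div_of_nonneg_right hX1 hL0.le
    refine h1.trans ?_
    apply mul_le_mul_of_nonneg_left _ hy0.le
    refine le_trans ?_ (one_sub_pow_ge_exp (by linarith) M)
    apply Real.exp_le_exp.2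
    apply neg_le_neg
    have h2 : 0 < 1 - y := by linarith
    have h3 : (M : ℝ) * (y / (1 - y)) ≤ (c₁ * L) * (y / (1 - y)) := by
      apply mul_le_mul_of_nonneg_right hMle
      positivity
    refine h3.trans (le_of_eq ?_)
    have h4 : 1 - y₀ / L ≠ 0 := h2.ne'
    rw [hy]
    field_simp

end Pool.Agent.H41.LD
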