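import Pool.Agent.H41.LD.Clus
import Pool.Agent.H41.LD.Thm

/-! # The exact range of Cramér's constant for models with local dependence -/

set_option autoImplicit false
set_option linter.unusedSectionVars false

namespace Pool.Agent.H41.LD

open MeasureTheory Filter Topology ProbabilityTheory
open Pool.Agent.H34.ND (Free cramerConst)

lemma HasGaps.mono {A : Set ℕ} {lam mu : ℝ} (h : HasGaps A mu) (hle : lam ≤ mu) :
    HasGaps A lam := by
  filter_upwards [h] with X hX
  obtain ⟨x, h1, h2, h3⟩ := hX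
  have h4 : lam * Real.log X ^ 2 ≤ mu * Real.log X ^ 2 :=
    mul_le_mul_of_nonneg_right hle (sq_nonneg _)
  exact ⟨x, h1, by linarith, fun n hn1 hn2 => h3 n hn1 (by linarith)⟩

variable {Ω : Type*} [mΩ : MeasurableSpace Ω] {P : Measure Ω} {E : ℕ → Set Ω} {m : ℕ → ℕ}
  {p : ℕ → ℝ} [IsProbabilityMeasure P]

theorem Delayed.hasGaps_all (h : Delayed P E m p) {κ l : ℝ} (hκ : 0 < κ)
    (hl : Real.exp (-1) < l) (hl1 : l ≤ 1)
    (hp : ∀ ε, 0 < ε → ∀ᶠ n : ℕ in atTop, p n * Real.log n ≤ κ + ε)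
    (hm : ∀ ε, 0 < ε → ∀ᶠ n : ℕ in atTop,
      (m n : ℝ) ≤ (l * Real.log (1 / l) / κ + ε) * Real.log n) :
    ∀ᵐ ω ∂P, ∀ lam : ℝ, lam < l / κ → HasGaps {n | ω ∈ E n} lam := by
  have h1 : ∀ᵐ ω ∂P, ∀ q : ℚ, 0 ≤ (q : ℝ) → (q : ℝ) < l / κ → HasGaps {n | ω ∈ E n} q := by
    rw [ae_all_iff]
    intro q
    by_cases hq : 0 ≤ (q : ℝ)
    · by_cases hq1 : (q : ℝ) < l / κ
      · filter_upwards [h.hasGaps hκ hl hl1 hp hm hq hq1] with ω hω
        exact fun _ _ => hω
      · exact Eventually.of_forall fun ω _ h => absurd h hq1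
    · exact Eventually.of_forall fun ω h => absurd h hq
  filter_upwards [h1] with ω hω
  intro lam hlam
  have hl0 : 0 < l / κ := div_pos ((Real.exp_pos _).trans hl) hκ
  obtain ⟨q, hq1, hq2⟩ := exists_rat_btwn (max_lt hlam hl0)
  exact (hω q ((le_max_right _ _).trans hq1.le) hq2).mono ((le_max_left _ _).trans hq1.le)

/-- the lower bound for the constant of a model -/
lemma Model.le_const (h : Model P E m) {l : ℝ} (hl : Real.exp (-1) < l) (hl1 : l ≤ 1)
    (hm : ∀ ε, 0 < ε → ∀ᶠ n : ℕ in atTop, (m n : ℝ) ≤ (l * Real.log (1 / l) + ε) * Real.log n)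
    {x : EReal} (hx : ∀ᵐ ω ∂P, {n | ω ∈ E n}.Infinite ∧ cramerConst {n | ω ∈ E n} = x) :
    (l : EReal) ≤ x := by
  have h1 : ∀ ε, 0 < ε → ∀ᶠ n : ℕ in atTop, P.real (E n) * Real.log n ≤ 1 + ε := by
    intro ε hε
    filter_upwards [h.dens.eventually (gt_mem_nhds (show (1:ℝ) < 1 + ε by linarith))] with n hn
    exact hn.le
  have h2 := h.range.delayed.hasGaps_all one_pos hl hl1 h1 (by simpa using hm)
  obtain ⟨ω, h3, h4, h5⟩ := (h2.and hx).exists
  have h0 : (0 : EReal) ≤ x := by rw [← h5]; exact cramer_nonneg h4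
  by_contra hcon
  rw [not_le] at hcon
  obtain ⟨q, hq1, hq2⟩ := EReal.lt_iff_exists_rat_btwn.1 hcon
  have hq0 : (0:ℝ) ≤ q := by
    have : (0:EReal) ≤ ((q : ℝ) : EReal) := h0.trans hq1.le
    exact_mod_cast this
  have hq2' : (q : ℝ) < l := by exact_mod_cast hq2
  have h6 := le_cramer_of_hasGaps h4 hq0 (h3 q (by rw [div_one]; exact hq2'))
  rw [h5] at h6
  exact absurd hq1 (not_lt.2 h6)

/-- the upper bound for a bounded range of dependence -/
lemma Model.upper {d : ℕ} (h : Model P E fun _ => d) {lam : ℝ} (hlam : (d : ℝ) + 1 < lam) :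
    ∀ᵐ ω ∂P, Upper {n | ω ∈ E n} lam := by
  have hd0 : (0:ℝ) < (d : ℝ) + 1 := by positivity
  have hlam0 : 0 < lam := by linarith
  obtain ⟨β, hβ1, hβ2⟩ := exists_between ((one_lt_div hd0).2 hlam)
  rw [lt_div_iff₀ hd0] at hβ2
  obtain ⟨ε, hε0, hε1, hε2⟩ : ∃ ε : ℝ, 0 < ε ∧ ε < 1 ∧
      β * (1 + ε) * (d + 1) < lam * (1 - ε) := by
    have h1 : ContinuousAt (fun t : ℝ => lam * (1 - t) - β * (1 + t) * (d + 1)) 0 := by fun_prop
    have h2 : ∀ᶠ t : ℝ in 𝓝 0, 0 < lam * (1 - t) - β * (1 + t) * (d + 1) :=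
      h1.eventually (lt_mem_nhds (by norm_num; linarith))
    have h3 : ∀ᶠ t : ℝ in 𝓝 0, t < 1 := gt_mem_nhds (by norm_num)
    obtain ⟨t, ⟨ht1, ht2⟩, ht3⟩ := (((h2.and h3).filter_mono nhdsWithin_le_nhds).and
      (self_mem_nhdsWithin (a := (0:ℝ)) (s := Set.Ioi 0))).exists
    exact ⟨t, ht3, ht2, by linarith⟩
  obtain ⟨n₀, hn₀⟩ := eventually_atTop.1
    (h.dens.eventually (lt_mem_nhds (show 1 - ε < (1:ℝ) by linarith)))
  set δ : ℝ := lam * (1 - ε) - β * (1 + ε) * (d + 1) with hδ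
  have hδ0 : 0 < δ := by rw [hδ]; linarith
  apply upper_of_bound hlam0.le hβ1
  filter_upwards [ev_log_le (lam + 1) 2, ev_log_ge (1 / ε), ev_log_ge (1 / δ), ev_log_ge 2,
    eventually_ge_atTop (n₀ + 10)] with x hx1 hx2 hx3 hx4 hx5
  set L : ℝ := Real.log x with hL
  have hx0 : (10:ℝ) ≤ x := by
    have : 10 ≤ x := by omega
    exact_mod_cast this
  have hL0 : 0 < L := by linarith
  set H : ℕ := ⌊lam * L ^ 2⌋₊ with hH
  have hH1 : (H : ℝ) ≤ lam * L ^ 2 := Nat.floor_le (by positivity)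
  have hH2 : lam * L ^ 2 < H + 1 := Nat.lt_floor_add_one _
  have hH0 : 1 ≤ H := by
    apply Nat.le_floor
    push_cast
    have : 1 ≤ (d:ℝ) + 1 := by
      have : (0:ℝ) ≤ d := Nat.cast_nonneg d
      linarith
    nlinarith
  set k : ℕ := (H - 1) / (d + 1) with hk
  have hk1 : k * (d + 1) ≤ H - 1 := Nat.div_mul_le_self _ _
  have hk2 : H - 1 < k * (d + 1) + (d + 1) := Nat.lt_div_mul_add (by omega)
  set t : ℕ → ℕ := fun i => x + 1 + i * (d + 1) with ht
  have hfree : Free E x (x + H) ⊆ Free E x (t k) := by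
    apply Pool.Agent.H34.ND.free_mono le_rfl
    simp only [ht]
    omega
  refine (measureReal_mono hfree).trans ?_
  refine (h.range.free_le_exp (a := x) (t := t) (by simp only [ht]; omega) ?_ k).trans ?_
  · intro i
    simp only [ht]
    have : (i + 1) * (d + 1) = i * (d + 1) + (d + 1) := by ring
    omega
  apply Real.exp_le_exp.2
  apply neg_le_neg
  have hlog2 : Real.log 2 < 1 := by
    have := Real.log_two_lt_d9
    linarith
  have hterm : ∀ i ∈ Finset.range (k + 1), (1 - ε) / ((1 + ε) * L) ≤ P.real (E (t i)) := by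
    intro i hi
    rw [Finset.mem_range] at hi
    have h1 := hn₀ (t i) (by simp only [ht]; omega)
    have h2 : t i ≤ x + H := by
      have : i * (d + 1) ≤ k * (d + 1) := Nat.mul_le_mul_right _ (by omega)
      simp only [ht]
      omega
    have h3 : ((t i : ℕ) : ℝ) ≤ 2 * x := by
      have h4 : ((t i : ℕ) : ℝ) ≤ x + H := by exact_mod_cast h2
      nlinarith
    have h4 : (0:ℝ) < t i := by
      have : 0 < t i := by simp only [ht]; omega
      exact_mod_cast this
    have h5 : Real.log (t i) ≤ (1 + ε) * L := by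
      have h6 : Real.log (t i) ≤ Real.log (2 * x) := Real.log_le_log h4 h3
      rw [Real.log_mul (by norm_num) (by linarith), ← hL] at h6
      rw [div_le_iff₀ hε0] at hx2
      nlinarith
    rw [div_le_iff₀ (by positivity)]
    have h6 : P.real (E (t i)) * Real.log (t i) ≤ P.real (E (t i)) * ((1 + ε) * L) :=
      mul_le_mul_of_nonneg_left h5 measureReal_nonneg
    linarith
  have hsum := Finset.card_nsmul_le_sum _ _ _ hterm
  rw [Finset.card_range, nsmul_eq_mul] at hsum
  refine le_trans ?_ hsum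
  have hkH : (H : ℝ) ≤ ((k + 1 : ℕ) : ℝ) * (d + 1) := by
    have h1 : H ≤ (k + 1) * (d + 1) := by
      have : (k + 1) * (d + 1) = k * (d + 1) + (d + 1) := by ring
      omega
    exact_mod_cast h1
  rw [mul_div_assoc', le_div_iff₀ (by positivity)]
  -- β L ((1 + ε) L) ≤ (k + 1) (1 - ε)
  have h1 : β * L * ((1 + ε) * L) * (d + 1) ≤ (((k + 1 : ℕ) : ℝ) * (1 - ε)) * (d + 1) := by
    have h2 : (H : ℝ) * (1 - ε) ≤ (((k + 1 : ℕ) : ℝ) * (d + 1)) * (1 - ε) :=
      mul_le_mul_of_nonneg_right hkH (by linarith)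
    have h3 : 1 ≤ δ * L ^ 2 := by
      rw [div_le_iff₀ hδ0] at hx3
      nlinarith
    have h4 : (lam * L ^ 2 - 1) * (1 - ε) ≤ H * (1 - ε) :=
      mul_le_mul_of_nonneg_right (by linarith) (by linarith)
    have h5 : β * L * ((1 + ε) * L) * (d + 1) = (β * (1 + ε) * (d + 1)) * L ^ 2 := by ring
    have h6 : β * (1 + ε) * (d + 1) = lam * (1 - ε) - δ := by rw [hδ]; ring
    rw [h5, h6]
    nlinarith
  exact le_of_mul_le_mul_right h1 hd0

lemma Model.const_le {d : ℕ} (h : Model P E fun _ => d) {x : EReal}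
    (hx : ∀ᵐ ω ∂P, {n | ω ∈ E n}.Infinite ∧ cramerConst {n | ω ∈ E n} = x) :
    x ≤ ((d + 1 : ℝ) : EReal) := by
  by_contra hcon
  rw [not_le] at hcon
  obtain ⟨q, hq1, hq2⟩ := EReal.lt_iff_exists_rat_btwn.1 hcon
  have hq1' : (d : ℝ) + 1 < q := by exact_mod_cast hq1
  obtain ⟨ω, h1, h2, h3⟩ := ((h.upper hq1').and hx).exists
  have h4 := Pool.Agent.H34.ND.cramer_le h1
  rw [h3] at h4
  exact absurd hq2 (not_lt.2 h4)

/-! ### the range of the values -/

lemma IsValue.nonneg {m : ℕ → ℕ} {x : EReal} (h : IsValue m x) : 0 ≤ x := by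
  obtain ⟨Ω, mΩ, P, hP, E, _, hx⟩ := h
  obtain ⟨ω, h1, h2⟩ := hx.exists
  rw [← h2]
  exact cramer_nonneg h1

lemma value_ge_one {m : ℕ → ℕ} (hm : Tendsto m atTop atTop) {x : EReal} (hx : 1 ≤ x) :
    IsValue m x := by
  induction x using EReal.rec with
  | bot => exact absurd hx (not_le.2 (by exact_mod_cast EReal.bot_lt_coe 1))
  | top => exact clus_value_top hm
  | coe x =>
    have hx1 : (1:ℝ) ≤ x := by exact_mod_cast hx
    apply clus_value (K₀ := ⌈x⌉₊) _ hx1 (Nat.le_ceil x)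
    filter_upwards [hm.eventually_ge_atTop ⌈x⌉₊] with n hn
    omega

theorem range_const (d : ℕ) (x : EReal) :
    IsValue (fun _ => d) x ↔ 1 ≤ x ∧ x ≤ ((d + 1 : ℝ) : EReal) := by
  constructor
  · rintro ⟨Ω, mΩ, P, hP, E, hM, hx⟩
    refine ⟨?_, hM.const_le hx⟩
    have h1 := hM.le_const (l := 1) (by
      have := Real.exp_lt_exp.2 (show (-1:ℝ) < 0 by norm_num)
      rwa [Real.exp_zero] at this) le_rfl (by
        intro ε hε
        filter_upwards [ev_log_ge (d / ε)] with n hn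
        rw [div_le_iff₀ hε] at hn
        simp
        linarith) hx
    exact_mod_cast h1
  · rintro ⟨h1, h2⟩
    induction x using EReal.rec with
    | bot => exact absurd h1 (not_le.2 (by exact_mod_cast EReal.bot_lt_coe 1))
    | top => exact absurd h2 (not_le.2 (EReal.coe_lt_top _))
    | coe x =>
      have hx1 : (1:ℝ) ≤ x := by exact_mod_cast h1
      have hx2 : x ≤ (d : ℝ) + 1 := by exact_mod_cast h2
      apply clus_value (K₀ := d + 1) _ hx1 (by push_cast; exact hx2)
      exact Eventually.of_forall fun n => by omega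

lemma lower_of_tendsto {m : ℕ → ℕ} {c : ℝ}
    (h : Tendsto (fun n : ℕ => (m n : ℝ) / Real.log n) atTop (𝓝 c)) :
    (∀ ε : ℝ, 0 < ε → ∀ᶠ n : ℕ in atTop, (c - ε) * Real.log n ≤ m n) ∧
      ∀ ε : ℝ, 0 < ε → ∀ᶠ n : ℕ in atTop, (m n : ℝ) ≤ (c + ε) * Real.log n := by
  constructor
  · intro ε hε
    filter_upwards [h.eventually (lt_mem_nhds (show c - ε < c by linarith)), ev_log_ge 1] with
      n h1 h2
    rw [lt_div_iff₀ (by linarith)] at h1
    exact h1.le
  · intro ε hε
    filter_upwards [h.eventually (gt_mem_nhds (show c < c + ε by linarith)), ev_log_ge 1] with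
      n h1 h2
    rw [div_lt_iff₀ (by linarith)] at h1
    exact h1.le

theorem range_below {m : ℕ → ℕ} {l : ℝ} (hl : Real.exp (-1) < l) (hl1 : l ≤ 1)
    (hm : Tendsto m atTop atTop)
    (hm2 : Tendsto (fun n : ℕ => (m n : ℝ) / Real.log n) atTop (𝓝 (l * Real.log (1 / l))))
    (x : EReal) : IsValue m x ↔ (l : EReal) ≤ x := by
  have hl0 : 0 < l := (Real.exp_pos _).trans hl
  obtain ⟨hlow, hup⟩ := lower_of_tendsto hm2
  have hc : 0 ≤ l * Real.log (1 / l) :=
    mul_nonneg hl0.le (Real.log_nonneg (by rw [le_div_iff₀ hl0]; linarith))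
  constructor
  · rintro ⟨Ω, mΩ, P, hP, E, hM, hx⟩
    exact hM.le_const hl hl1 hup hx
  · intro h
    rcases le_or_gt 1 x with h1 | h1
    · exact value_ge_one hm h1
    · induction x using EReal.rec with
      | bot => exact absurd h (by simp)
      | top => exact absurd h1 (by simp)
      | coe x =>
        have hx1 : l ≤ x := by exact_mod_cast h
        have hx2 : x < 1 := by exact_mod_cast h1
        have hx0 : 0 < x := hl0.trans_le hx1
        have h2 := core_value (ρ := 1 / x) hc hlow (by rw [le_div_iff₀ hx0]; linarith) (by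
          intro σ hσ
          exact exists_tau_gt hl hl1 (hσ.trans_le (one_div_le_one_div_of_le hl0 hx1)))
        rwa [one_div_one_div] at h2

theorem range_above {m : ℕ → ℕ} {c : ℝ} (hc : Real.exp (-1) < c)
    (hm : ∀ᶠ n : ℕ in atTop, c * Real.log n ≤ m n) (x : EReal) : IsValue m x ↔ 0 ≤ x := by
  have hc0 : 0 < c := (Real.exp_pos _).trans hc
  have hlow : ∀ ε : ℝ, 0 < ε → ∀ᶠ n : ℕ in atTop, (c - ε) * Real.log n ≤ m n := by
    intro ε hε
    filter_upwards [hm] with n hn
    have := mul_nonneg hε.le (Real.log_natCast_nonneg n)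
    linarith
  have htend : Tendsto m atTop atTop := by
    have h1 : Tendsto (fun n : ℕ => c * Real.log n) atTop atTop :=
      tendsto_log_nat.const_mul_atTop hc0
    have h2 : Tendsto (fun n : ℕ => (m n : ℝ)) atTop atTop := tendsto_atTop_mono' _ hm h1
    exact tendsto_natCast_atTop_iff.1 h2
  constructor
  · exact IsValue.nonneg
  · intro h
    rcases le_or_gt 1 x with h1 | h1
    · exact value_ge_one htend h1
    · induction x using EReal.rec with
      | bot => exact absurd h (by simp)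
      | top => exact absurd h1 (by simp)
      | coe x =>
        have hx1 : 0 ≤ x := by exact_mod_cast h
        have hx2 : x < 1 := by exact_mod_cast h1
        rcases hx1.eq_or_lt with hx0 | hx0
        · rw [← hx0]
          exact core_value_zero hc0.le hlow fun σ => exists_tau_gt' hc σ
        · have h2 := core_value (ρ := 1 / x) hc0.le hlow (by rw [le_div_iff₀ hx0]; linarith)
            fun σ _ => exists_tau_gt' hc σ
          rwa [one_div_one_div] at h2

end Pool.Agent.H41.LD
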