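import Pool.Agent.H41.LD.Thm
import Pool.Graph.R_seed8.Helper923.PNT

/-! # Cramér's constant of the primes and the primes after long prime-free intervals -/

set_option autoImplicit false

namespace Pool.Agent.H41.LD

open Filter Topology
open Pool.Agent.H34.ND (cramerConst)

/-- the `n < X` such that the interval `(n, n + h]` contains no prime -/
def freeSet (X h : ℕ) : Finset ℕ :=
  (Finset.range X).filter fun n => ∀ k ∈ Finset.Ioc n (n + h), ¬ k.Prime

/-- the `n < X` such that the interval `(n, n + h]` contains no prime and `n + h + d` is a prime -/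
def hitSet (X h d : ℕ) : Finset ℕ :=
  (Finset.range X).filter fun n => (∀ k ∈ Finset.Ioc n (n + h), ¬ k.Prime) ∧ (n + h + d).Prime

lemma pi_nat_tendsto : Tendsto (fun X : ℕ => (Nat.primeCounting X : ℝ) * Real.log X / X) atTop
    (𝓝 1) := by
  have := Pool.Agent.Helper923.PNT.pi_tendsto.comp (tendsto_natCast_atTop_atTop (R := ℝ))
  refine this.congr fun X => ?_
  simp [Function.comp]

lemma card_shift_le (X k : ℕ) :
    ((Finset.range X).filter fun n => (n + k + 1).Prime).card ≤ Nat.primeCounting X + k := by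
  have h1 : ((Finset.range X).filter fun n => (n + k + 1).Prime).card ≤
      (((Finset.range (X + 1)).filter Nat.Prime) ∪ Finset.Ioc X (X + k)).card := by
    apply Finset.card_le_card_of_injOn (fun n => n + k + 1)
    · intro n hn
      simp only [Finset.coe_filter, Finset.mem_range, Set.mem_setOf_eq] at hn
      simp only [Finset.coe_union, Finset.coe_filter, Finset.mem_range, Set.mem_union,
        Set.mem_setOf_eq, Finset.coe_Ioc, Set.mem_Ioc]
      by_cases h : n + k + 1 ≤ X
      · exact Or.inl ⟨by omega, hn.2⟩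
      · exact Or.inr ⟨by omega, by omega⟩
    · intro a _ b _ hab
      simp only at hab
      omega
  refine h1.trans ((Finset.card_union_le _ _).trans ?_)
  have h2 : Nat.primeCounting X = ((Finset.range (X + 1)).filter Nat.Prime).card := by
    rw [Nat.primeCounting, Nat.primeCounting', Nat.count_eq_card_filter_range]
  rw [Nat.card_Ioc, h2]
  omega

theorem primes_after_gaps {l : ℝ} (hl : Real.exp (-1) < l) (hl1 : l ≤ 1)
    (hL : cramerConst {n | n.Prime} < (l : EReal)) : ∃ δ : ℝ, 0 < δ ∧ ∀ᶠ X : ℕ in atTop,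
      ∀ d : ℕ, 1 ≤ d → (d : ℝ) ≤ (l * Real.log (1 / l) + δ) * Real.log X →
        ∃ h : ℕ, (h : ℝ) ≤ l * Real.log X ^ 2 ∧ (X : ℝ) ^ δ ≤ (freeSet X h).card ∧
          (1 + δ) / Real.log X * (freeSet X h).card ≤ (hitSet X h d).card := by
  have hinf : {n : ℕ | n.Prime}.Infinite := Nat.infinite_setOf_prime
  obtain ⟨lam, hlam1, hlam2⟩ := EReal.lt_iff_exists_real_btwn.1 hL
  have hlam0 : 0 < lam := by
    have h1 : (0 : EReal) ≤ cramerConst {n | n.Prime} := by
      have := Pool.Agent.H34.ND.le_cramer hinf (lam := 0) le_rfl (Eventually.frequently ?_)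
      · simpa using this
      · exact Eventually.of_forall fun x n h1 h2 => by
          rw [zero_mul, add_zero] at h2
          have : n ≤ x := by exact_mod_cast h2
          omega
    have h2 := lt_of_le_of_lt h1 hlam1
    exact_mod_cast h2
  have hlam2' : lam < l := by exact_mod_cast hlam2
  -- no long gaps
  have hnogap : ∀ᶠ X : ℕ in atTop, ∀ n < X, ∃ k : ℕ, n < k ∧ (k : ℝ) ≤ n + lam * Real.log X ^ 2 ∧
      k.Prime := by
    have h1 : ∀ᶠ x : ℕ in atTop, ∃ k : ℕ, x < k ∧ (k : ℝ) ≤ x + lam * Real.log x ^ 2 ∧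
        k.Prime := by
      by_contra hcon
      rw [not_eventually] at hcon
      have h2 := Pool.Agent.H34.ND.le_cramer hinf hlam0.le (hcon.mono fun x hx => by
        push Not at hx
        exact hx)
      exact absurd hlam1 (not_lt.2 h2)
    obtain ⟨x₀, hx₀⟩ := eventually_atTop.1 h1
    have h2 : Tendsto (fun X : ℕ => lam * Real.log X ^ 2) atTop atTop :=
      ((tendsto_pow_atTop (by norm_num)).comp tendsto_log_nat).const_mul_atTop hlam0
    filter_upwards [h2.eventually_ge_atTop ((x₀ : ℝ) + lam * Real.log x₀ ^ 2),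
      eventually_gt_atTop x₀] with X hX hX0 n hn
    rcases le_or_gt x₀ n with h3 | h3
    · obtain ⟨k, hk1, hk2, hk3⟩ := hx₀ n h3
      refine ⟨k, hk1, hk2.trans ?_, hk3⟩
      rcases Nat.eq_zero_or_pos n with h0 | h0
      · rw [h0]
        simp
        positivity
      have h4 : Real.log n ≤ Real.log X :=
        Real.log_le_log (by exact_mod_cast h0) (by exact_mod_cast hn.le)
      have h5 : Real.log n ^ 2 ≤ Real.log X ^ 2 :=
        pow_le_pow_left₀ (Real.log_natCast_nonneg n) h4 2
      have := mul_le_mul_of_nonneg_left h5 hlam0.le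
      linarith
    · obtain ⟨k, hk1, hk2, hk3⟩ := hx₀ x₀ le_rfl
      refine ⟨k, by omega, ?_, hk3⟩
      have : (0:ℝ) ≤ n := Nat.cast_nonneg n
      linarith
  -- constants
  obtain ⟨y₀, hy₀, hlamy, hκy⟩ := exists_constants one_pos hl hl1
    (by rw [div_one]; exact hlam2' : lam < l / 1)
  rw [div_one] at hκy
  set c : ℝ := l * Real.log (1 / l) with hc
  have hc0 : 0 ≤ c := by
    have hl0 : 0 < l := (Real.exp_pos _).trans hl
    have : 0 ≤ Real.log (1 / l) := Real.log_nonneg (by rw [le_div_iff₀ hl0]; linarith)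
    positivity
  obtain ⟨α, hα1, hα2⟩ := exists_between hlamy
  obtain ⟨δ, hδ0, hδ1, hδα, hδ⟩ : ∃ δ : ℝ, 0 < δ ∧ δ < 1 ∧ δ < 1 - α ∧
      1 + δ < y₀ * Real.exp (-((c + δ) * y₀)) := by
    have h1 : ContinuousAt (fun t : ℝ => y₀ * Real.exp (-((c + t) * y₀)) - (1 + t)) 0 := by
      fun_prop
    have h2 : ∀ᶠ t : ℝ in 𝓝 0, 0 < y₀ * Real.exp (-((c + t) * y₀)) - (1 + t) :=
      h1.eventually (lt_mem_nhds (by
        show 0 < y₀ * Real.exp (-((c + 0) * y₀)) - (1 + 0)
        rw [add_zero, add_zero]
        linarith))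
    have h3 : ∀ᶠ t : ℝ in 𝓝 0, t < 1 := gt_mem_nhds (by norm_num)
    have h4 : ∀ᶠ t : ℝ in 𝓝 0, t < 1 - α := gt_mem_nhds (by linarith)
    obtain ⟨t, ⟨⟨ht1, ht2⟩, ht3⟩, ht4⟩ := ((((h2.and h3).and h4).filter_mono
      nhdsWithin_le_nhds).and (self_mem_nhdsWithin (a := (0:ℝ)) (s := Set.Ioi 0))).exists
    exact ⟨t, ht4, ht2, ht3, by linarith⟩
  refine ⟨δ, hδ0, ?_⟩
  have hlim0 : Tendsto (fun L : ℝ => y₀ / L) atTop (𝓝 0) := tendsto_const_nhds.div_atTop tendsto_id
  have hlim1 : Tendsto (fun L : ℝ => y₀ * Real.exp (-((c + δ) * y₀ / (1 - y₀ / L)))) atTop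
      (𝓝 (y₀ * Real.exp (-((c + δ) * y₀ / (1 - 0))))) := by
    apply Tendsto.const_mul
    apply (Real.continuous_exp.tendsto _).comp
    apply Tendsto.neg
    exact Tendsto.div tendsto_const_nhds (tendsto_const_nhds.sub hlim0) (by norm_num)
  have hev1 : ∀ᶠ L : ℝ in atTop, 1 + δ ≤ y₀ * Real.exp (-((c + δ) * y₀ / (1 - y₀ / L))) := by
    have h1 : 1 + δ < y₀ * Real.exp (-((c + δ) * y₀ / (1 - 0))) := by
      rw [sub_zero, div_one]
      linarith
    filter_upwards [hlim1.eventually (lt_mem_nhds h1)] with L hL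
    exact hL.le
  have hlim2 : Tendsto (fun L : ℝ => (lam + 1 / L ^ 2) * (y₀ / (1 - y₀ / L))) atTop
      (𝓝 ((lam + 0) * (y₀ / (1 - 0)))) := by
    apply Tendsto.mul
    · apply tendsto_const_nhds.add
      exact tendsto_const_nhds.div_atTop (tendsto_pow_atTop (by norm_num))
    · exact Tendsto.div tendsto_const_nhds (tendsto_const_nhds.sub hlim0) (by norm_num)
  have hev2 : ∀ᶠ L : ℝ in atTop, (lam + 1 / L ^ 2) * (y₀ / (1 - y₀ / L)) ≤ α := by
    have h1 : (lam + 0) * (y₀ / (1 - 0)) < α := by
      rw [add_zero, sub_zero, div_one]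
      exact hα1
    filter_upwards [hlim2.eventually (gt_mem_nhds h1)] with L hL
    exact hL.le
  have hpi : ∀ᶠ X : ℕ in atTop, (Nat.primeCounting X : ℝ) * Real.log X / X < 1 + δ / 2 :=
    pi_nat_tendsto.eventually (gt_mem_nhds (by linarith))
  filter_upwards [tendsto_log_nat.eventually hev1, tendsto_log_nat.eventually hev2,
    ev_log_ge (2 * y₀), ev_log_ge 4, hpi, hnogap, ev_log_le (2 * (c + δ) / δ) 2,
    eventually_gt_atTop 0] with X hX1 hX2 hX3 hX4 hX5 hX6 hX7 hX8 d hd1 hd2
  set L : ℝ := Real.log X with hLdef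
  have hL0 : 0 < L := by linarith
  have hX0 : (0:ℝ) < X := by exact_mod_cast hX8
  set H : ℕ := ⌊lam * L ^ 2⌋₊ + 1 with hH
  have hHle : (H : ℝ) ≤ lam * L ^ 2 + 1 := by
    have h6 : (⌊lam * L ^ 2⌋₊ : ℝ) ≤ lam * L ^ 2 := Nat.floor_le (by positivity)
    rw [hH]
    push_cast
    linarith
  set M : ℕ := d - 1 with hM
  have hMd : (M : ℝ) ≤ (c + δ) * L := by
    have h1 : (M : ℝ) ≤ d := by
      have : M ≤ d := by omega
      exact_mod_cast this
    linarith
  set y : ℝ := y₀ / L with hy
  have hy0 : 0 < y := by positivity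
  have hy12 : y ≤ 1 / 2 := by
    rw [hy, div_le_iff₀ hL0]
    linarith
  have hpow : Real.exp (-(α * L)) ≤ (1 - y) ^ H := by
    refine le_trans ?_ (one_sub_pow_ge_exp (by linarith) H)
    apply Real.exp_le_exp.2
    apply neg_le_neg
    have h1 : (H : ℝ) * (y / (1 - y)) ≤ (lam * L ^ 2 + 1) * (y / (1 - y)) := by
      apply mul_le_mul_of_nonneg_right hHle
      apply div_nonneg hy0.le
      linarith
    have h2 : (lam * L ^ 2 + 1) * (y / (1 - y)) =
        ((lam + 1 / L ^ 2) * (y₀ / (1 - y₀ / L))) * L := by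
      have h3 : 1 - y₀ / L ≠ 0 := by
        have : (1:ℝ) - y ≠ 0 := by linarith
        exact this
      rw [hy]
      field_simp
    rw [h2] at h1
    exact h1.trans (mul_le_mul_of_nonneg_right hX2 hL0.le)
  have hcond : (1 + δ) / L ≤ y * (1 - y) ^ M := by
    have h1 : (1 + δ) / L ≤ y * Real.exp (-((c + δ) * y₀ / (1 - y₀ / L))) := by
      rw [hy, div_mul_eq_mul_div]
      exact div_le_div_of_nonneg_right hX1 hL0.le
    refine h1.trans ?_
    apply mul_le_mul_of_nonneg_left _ hy0.le
    refine le_trans ?_ (one_sub_pow_ge_exp (by linarith) M)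
    apply Real.exp_le_exp.2
    apply neg_le_neg
    have h2 : 0 < 1 - y := by linarith
    have h3 : (M : ℝ) * (y / (1 - y)) ≤ ((c + δ) * L) * (y / (1 - y)) := by
      apply mul_le_mul_of_nonneg_right hMd
      positivity
    refine h3.trans (le_of_eq ?_)
    have h4 : 1 - y₀ / L ≠ 0 := h2.ne'
    rw [hy]
    field_simp
  by_contra hcon
  push Not at hcon
  set g : ℕ → ℝ := fun k => ((freeSet X k).card : ℝ) with hg
  have hg0 : g 0 = X := by
    simp only [hg, freeSet]
    rw [Finset.filter_true_of_mem]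
    · simp
    · intro n _ k hk
      rw [Finset.mem_Ioc] at hk
      omega
  have hXδ : (X : ℝ) ^ δ ≤ (1 - y) ^ H * X := by
    have h1 : (X : ℝ) ^ δ = Real.exp (δ * L) := by
      rw [Real.rpow_def_of_pos hX0, mul_comm]
    have h2 : Real.exp (-(α * L)) * X = Real.exp ((1 - α) * L) := by
      nth_rewrite 1 [← exp_log_nat hX8]
      rw [← Real.exp_add]
      congr 1
      ring
    rw [h1]
    calc Real.exp (δ * L) ≤ Real.exp ((1 - α) * L) := by
          apply Real.exp_le_exp.2
          nlinarith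
      _ = Real.exp (-(α * L)) * X := h2.symm
      _ ≤ (1 - y) ^ H * X := mul_le_mul_of_nonneg_right hpow hX0.le
  have hkey := pow_le_of_rec' (g := g) (H := H) (M := M) (p := (1 + δ) / L) hy0.le (by linarith)
    (fun k _ => Nat.cast_nonneg _) hcond ?_ H le_rfl
  · rw [hg0] at hkey
    have h1 : 0 < g H := by
      have h2 : 0 < (1 - y) ^ H * (X : ℝ) := by
        have : 0 < 1 - y := by linarith
        positivity
      linarith
    have h1' : (0:ℝ) < ((freeSet X H).card : ℝ) := h1
    have h2 : 0 < (freeSet X H).card := by exact_mod_cast h1'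
    obtain ⟨n, hn⟩ := Finset.card_pos.1 h2
    rw [freeSet, Finset.mem_filter, Finset.mem_range] at hn
    obtain ⟨k, hk1, hk2, hk3⟩ := hX6 n hn.1
    apply hn.2 k _ hk3
    rw [Finset.mem_Ioc]
    refine ⟨hk1, ?_⟩
    have h3 : lam * L ^ 2 < (H : ℝ) := by
      rw [hH]
      push_cast
      exact Nat.lt_floor_add_one _
    have h4 : (k : ℝ) < ((n + H : ℕ) : ℝ) := by
      push_cast
      linarith
    have h5 : k < n + H := by exact_mod_cast h4
    exact h5.le
  · intro k hk hind
    have hstep : g k ≤ g (k + 1) +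
        ((((Finset.range X).filter fun n => (∀ j ∈ Finset.Ioc n (n + k), ¬ j.Prime) ∧
          (n + k + 1).Prime).card : ℕ) : ℝ) := by
      simp only [hg]
      have h1 : (freeSet X k).card ≤ (freeSet X (k + 1)).card +
          ((Finset.range X).filter fun n => (∀ j ∈ Finset.Ioc n (n + k), ¬ j.Prime) ∧
          (n + k + 1).Prime).card := by
        refine le_trans (Finset.card_le_card ?_) (Finset.card_union_le _ _)
        intro n hn
        rw [freeSet, Finset.mem_filter] at hn
        rw [Finset.mem_union, freeSet, Finset.mem_filter, Finset.mem_filter]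
        by_cases h2 : (n + k + 1).Prime
        · exact Or.inr ⟨hn.1, hn.2, h2⟩
        · refine Or.inl ⟨hn.1, fun j hj => ?_⟩
          rw [Finset.mem_Ioc] at hj
          rcases Nat.lt_or_ge (n + k) j with h3 | h3
          · have h4 : j = n + k + 1 := by omega
            rw [h4]
            exact h2
          · exact hn.2 j (Finset.mem_Ioc.2 ⟨hj.1, h3⟩)
      exact_mod_cast h1
    have hbound : ((((Finset.range X).filter fun n => (∀ j ∈ Finset.Ioc n (n + k), ¬ j.Prime) ∧
          (n + k + 1).Prime).card : ℕ) : ℝ) ≤ (1 + δ) / L * g (k - M) := by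
      rcases le_or_gt M k with hMk | hMk
      · have h1 : (((Finset.range X).filter fun n => (∀ j ∈ Finset.Ioc n (n + k), ¬ j.Prime) ∧
          (n + k + 1).Prime).card : ℕ) ≤ (hitSet X (k - M) d).card := by
          apply Finset.card_le_card
          intro n hn
          rw [Finset.mem_filter] at hn
          rw [hitSet, Finset.mem_filter]
          refine ⟨hn.1, fun j hj => hn.2.1 j ?_, ?_⟩
          · rw [Finset.mem_Ioc] at hj ⊢
            omega
          · have : n + (k - M) + d = n + k + 1 := by omega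
            rw [this]
            exact hn.2.2
        have h2 : (X : ℝ) ^ δ ≤ (freeSet X (k - M)).card := by
          have h3 := hind (k - M) (by omega)
          rw [hg0] at h3
          refine hXδ.trans (le_trans ?_ h3)
          apply mul_le_mul_of_nonneg_right _ hX0.le
          exact pow_le_pow_of_le_one (by linarith) (by linarith) (by omega)
        have h3 : (((k - M : ℕ)) : ℝ) ≤ l * L ^ 2 := by
          have h4 : k - M ≤ ⌊lam * L ^ 2⌋₊ := by omega
          have h5 : ((k - M : ℕ) : ℝ) ≤ (⌊lam * L ^ 2⌋₊ : ℝ) := by exact_mod_cast h4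
          have h6 : (⌊lam * L ^ 2⌋₊ : ℝ) ≤ lam * L ^ 2 := Nat.floor_le (by positivity)
          have h7 : lam * L ^ 2 ≤ l * L ^ 2 := mul_le_mul_of_nonneg_right hlam2'.le (sq_nonneg _)
          linarith
        have h4 := hcon (k - M) h3 h2
        have h5 : ((((Finset.range X).filter fun n => (∀ j ∈ Finset.Ioc n (n + k), ¬ j.Prime) ∧
          (n + k + 1).Prime).card : ℕ) : ℝ) ≤ ((hitSet X (k - M) d).card : ℝ) := by
          exact_mod_cast h1
        exact h5.trans h4.le
      · have h0 : k - M = 0 := by omega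
        rw [h0, hg0]
        have h1 : (((Finset.range X).filter fun n => (∀ j ∈ Finset.Ioc n (n + k), ¬ j.Prime) ∧
          (n + k + 1).Prime).card : ℕ) ≤ Nat.primeCounting X + k := by
          refine le_trans (Finset.card_le_card ?_) (card_shift_le X k)
          intro n hn
          rw [Finset.mem_filter] at hn ⊢
          exact ⟨hn.1, hn.2.2⟩
        have h2 : ((((Finset.range X).filter fun n => (∀ j ∈ Finset.Ioc n (n + k), ¬ j.Prime) ∧
          (n + k + 1).Prime).card : ℕ) : ℝ) ≤ Nat.primeCounting X + k := by exact_mod_cast h1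
        refine h2.trans ?_
        have h3 : (k : ℝ) ≤ (c + δ) * L := by
          have : (k : ℝ) ≤ M := by exact_mod_cast hMk.le
          linarith
        rw [div_mul_eq_mul_div, le_div_iff₀ hL0]
        rw [div_lt_iff₀ hX0] at hX5
        have h4 : (c + δ) * L * L ≤ δ / 2 * X := by
          have h5 : 2 * (c + δ) / δ * L ^ 2 ≤ X := hX7
          rw [div_mul_eq_mul_div, div_le_iff₀ hδ0] at h5
          nlinarith
        nlinarith
    linarith

end Pool.Agent.H41.LD
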