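import Pool.Agent.H41.LD.Defs
import Pool.Agent.H41.LD.Hard

/-! # Random sets with given avoidance probabilities -/

set_option autoImplicit false

namespace Pool.Agent.H41.LD

open MeasureTheory Filter Topology ProbabilityTheory

/-- the event that the random set avoids `S` -/
def Avoid {Ω : Type*} (E : ℕ → Set Ω) (S : Finset ℕ) : Set Ω := {ω | ∀ n ∈ S, ω ∉ E n}

lemma avoid_meas {Ω : Type*} [MeasurableSpace Ω] {E : ℕ → Set Ω} (h : ∀ n, MeasurableSet (E n))
    (S : Finset ℕ) : MeasurableSet (Avoid E S) := by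
  have : Avoid E S = ⋂ n ∈ S, (E n)ᶜ := by
    ext ω
    simp [Avoid]
  rw [this]
  exact Finset.measurableSet_biInter _ fun n _ => (h n).compl

/-- `φ` is the avoidance function, on the subsets of `V`, of some random set -/
def Realizable (φ : Finset ℕ → ℝ) (V : Finset ℕ) : Prop :=
  ∃ (Ω : Type) (_ : MeasurableSpace Ω) (P : Measure Ω) (_ : IsProbabilityMeasure P)
    (e : ℕ → Set Ω), (∀ n, MeasurableSet (e n)) ∧ ∀ S ⊆ V, P.real (Avoid e S) = φ S

lemma realizable_of_weights {V : Finset ℕ} {w : Finset ℕ → ℝ} (h0 : ∀ B ⊆ V, 0 ≤ w B)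
    (h1 : ∑ B ∈ V.powerset, w B = 1) :
    Realizable (fun S => ∑ B ∈ V.powerset with Disjoint B S, w B) V := by
  classical
  let mΩ : MeasurableSpace (Finset ℕ) := ⊤
  set P : Measure (Finset ℕ) := ∑ B ∈ V.powerset, ENNReal.ofReal (w B) • Measure.dirac B with hP
  have hmeas : ∀ U : Set (Finset ℕ), MeasurableSet U := fun U => MeasurableSpace.measurableSet_top
  have happ : ∀ U : Set (Finset ℕ), P U = ENNReal.ofReal (∑ B ∈ V.powerset with B ∈ U, w B) := by
    intro U
    rw [hP, Measure.finsetSum_apply, Finset.sum_filter, ENNReal.ofReal_sum_of_nonneg]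
    · refine Finset.sum_congr rfl fun B hB => ?_
      rw [Measure.smul_apply, Measure.dirac_apply' _ (hmeas U), smul_eq_mul]
      by_cases h : B ∈ U
      · simp [h]
      · simp [h]
    · intro B hB
      split_ifs
      · exact h0 B (Finset.mem_powerset.1 hB)
      · exact le_rfl
  refine ⟨Finset ℕ, mΩ, P, ⟨?_⟩, fun n => {B | n ∈ B}, fun n => hmeas _, ?_⟩
  · rw [happ]
    simp [h1]
  · intro S _
    rw [measureReal_def, happ, ENNReal.toReal_ofReal]
    · apply Finset.sum_congr _ fun _ _ => rfl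
      ext B
      simp only [Finset.mem_filter, Avoid, Set.mem_setOf_eq, Finset.disjoint_right]
    · apply Finset.sum_nonneg
      intro B hB
      exact h0 B (Finset.mem_powerset.1 (Finset.mem_filter.1 hB).1)

lemma Realizable.congr {φ ψ : Finset ℕ → ℝ} {V : Finset ℕ} (h : Realizable φ V)
    (hφ : ∀ S ⊆ V, φ S = ψ S) : Realizable ψ V := by
  obtain ⟨Ω, mΩ, P, hP, e, he, h⟩ := h
  exact ⟨Ω, mΩ, P, hP, e, he, fun S hS => (h S hS).trans (hφ S hS)⟩

lemma Realizable.mul {φ ψ : Finset ℕ → ℝ} {V : Finset ℕ} (hφ : Realizable φ V)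
    (hψ : Realizable ψ V) : Realizable (fun S => φ S * ψ S) V := by
  obtain ⟨Ω, mΩ, P, hP, e, he, h⟩ := hφ
  obtain ⟨Ω', mΩ', P', hP', e', he', h'⟩ := hψ
  refine ⟨Ω × Ω', inferInstance, P.prod P', inferInstance,
    fun n => (Prod.fst ⁻¹' e n) ∪ (Prod.snd ⁻¹' e' n),
    fun n => (measurable_fst (he n)).union (measurable_snd (he' n)), ?_⟩
  intro S hS
  have h1 : Avoid (fun n => ((Prod.fst : Ω × Ω' → Ω) ⁻¹' e n) ∪ (Prod.snd ⁻¹' e' n)) S =
      Avoid e S ×ˢ Avoid e' S := by
    ext ⟨ω, ω'⟩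
    simp only [Avoid, Set.mem_setOf_eq, Set.mem_union, Set.mem_preimage, not_or, Set.mem_prod]
    exact ⟨fun h => ⟨fun n hn => (h n hn).1, fun n hn => (h n hn).2⟩,
      fun h n hn => ⟨h.1 n hn, h.2 n hn⟩⟩
  rw [h1, measureReal_def, Measure.prod_prod, ENNReal.toReal_mul, ← measureReal_def,
    ← measureReal_def, h S hS, h' S hS]

/-- the hard-core model on an interval exists -/
lemma realizable_Z {r N : ℕ} {x : ℝ} (hx : 0 ≤ x) (hz : ∀ k ≤ N, 0 < zz r x k) {a : ℕ}
    {V : Finset ℕ} (hV : V ⊆ Finset.Ioc a (a + N)) : Realizable (Z r x) V := by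
  have h1 : ∑ B ∈ V.powerset, wt r x V B = 1 := by
    have := sum_wt (r := r) (x := x) (V := V) (S := ∅) (Finset.empty_subset _)
    rw [Z_empty] at this
    rw [← this]
    apply Finset.sum_congr _ fun _ _ => rfl
    ext B
    simp
  exact (realizable_of_weights (fun B hB => wt_nonneg hx hz hV hB) h1).congr
    fun S hS => sum_wt hS

lemma zz_range_zero (x : ℝ) (k : ℕ) : zz 0 x k = (1 - x) ^ k := by
  induction k with
  | zero => simp
  | succ k ih =>
    rw [zz_succ, Nat.sub_zero, ih]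
    ring

lemma Z_range_zero (x : ℝ) (S : Finset ℕ) : Z 0 x S = (1 - x) ^ S.card := by
  unfold Z
  have h1 : (S.powerset.filter fun T => Sep 0 T) = S.powerset := by
    rw [Finset.filter_eq_self]
    intro T _ a _ b _ h
    exact h
  rw [h1]
  have h2 := Finset.sum_pow_mul_eq_add_pow (-x) 1 S
  simp only [one_pow, mul_one] at h2
  rw [h2]
  ring

/-- independent elements with the same probability `1 - s` -/
lemma realizable_pow {s : ℝ} (h0 : 0 < s) (h1 : s ≤ 1) (V : Finset ℕ) :
    Realizable (fun S => s ^ S.card) V := by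
  obtain ⟨N, hN⟩ : ∃ N, ∀ v ∈ V, v ≤ N := ⟨V.sup id, fun v hv => Finset.le_sup (f := id) hv⟩
  have h2 : V.filter (0 < ·) ⊆ Finset.Ioc 0 (0 + N) := by
    intro v hv
    rw [Finset.mem_filter] at hv
    rw [Finset.mem_Ioc]
    exact ⟨hv.2, by rw [Nat.zero_add]; exact hN v hv.1⟩
  -- shift by one to include 0
  obtain ⟨Ω, mΩ, P, hP, e, he, h⟩ := realizable_Z (r := 0) (x := 1 - s) (N := N + 1)
    (by linarith) (fun k _ => by rw [zz_range_zero]; simp; positivity) (a := 0)
    (V := V.image (· + 1)) (by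
      intro v hv
      rw [Finset.mem_image] at hv
      obtain ⟨w, hw, rfl⟩ := hv
      have := hN w hw
      rw [Finset.mem_Ioc]
      omega)
  refine ⟨Ω, mΩ, P, hP, fun n => e (n + 1), fun n => he _, fun S hS => ?_⟩
  have h3 := h (S.image (· + 1)) (Finset.image_subset_image hS)
  rw [Z_range_zero, Finset.card_image_of_injective _ (add_left_injective 1)] at h3
  have h4 : Avoid (fun n => e (n + 1)) S = Avoid e (S.image (· + 1)) := by
    ext ω
    simp [Avoid]
  rw [h4, h3]
  simp

/-- all elements of `V` or none -/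
lemma realizable_full {β : ℝ} (h0 : 0 ≤ β) (h1 : β ≤ 1) (V : Finset ℕ) :
    Realizable (fun S => if S = ∅ then 1 else 1 - β) V := by
  classical
  rcases V.eq_empty_or_nonempty with rfl | hne
  · refine (realizable_pow (s := 1) (by norm_num) le_rfl ∅).congr fun S hS => ?_
    rw [Finset.subset_empty] at hS
    simp [hS]
  have hV : V ≠ ∅ := hne.ne_empty
  have hsum : ∀ p : Finset ℕ → Prop, ∀ [DecidablePred p],
      ∑ B ∈ V.powerset with p B, (if B = V then β else if B = ∅ then 1 - β else 0) =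
      (if p V then β else 0) + (if p ∅ then 1 - β else 0) := by
    intro p _
    have h2 : ∀ B ∈ V.powerset, (if p B then (if B = V then β else if B = ∅ then 1 - β else 0)
        else 0) = (if B = V then (if p V then β else 0) else 0) +
          (if B = ∅ then (if p ∅ then 1 - β else 0) else 0) := by
      intro B _
      by_cases h3 : B = V
      · subst h3
        simp [hV]
      · by_cases h4 : B = ∅
        · subst h4
          simp [h3]
        · simp [h3, h4]
    rw [Finset.sum_filter, Finset.sum_congr rfl h2, Finset.sum_add_distrib]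
    simp
  have h3 : ∑ B ∈ V.powerset, (if B = V then β else if B = ∅ then 1 - β else 0) = 1 := by
    have := hsum fun _ => True
    simpa using this
  refine (realizable_of_weights (V := V)
    (w := fun B => if B = V then β else if B = ∅ then 1 - β else 0) ?_ h3).congr ?_
  · intro B _
    split_ifs <;> linarith
  · intro S hS
    rw [hsum]
    by_cases hSe : S = ∅
    · subst hSe
      simp
    · have h5 : ¬ Disjoint V S := by
        intro h
        obtain ⟨s, hs⟩ := Finset.nonempty_iff_ne_empty.2 hSe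
        exact (Finset.disjoint_left.1 h (hS hs)) hs
      simp [h5, hSe]

/-! ### independence of the past and the future -/

section

variable {Ω : Type*} {E : ℕ → Set Ω}

lemma avoid_union (S T : Finset ℕ) : Avoid E (S ∪ T) = Avoid E S ∩ Avoid E T := by
  ext ω
  simp only [Avoid, Finset.mem_union, Set.mem_setOf_eq, Set.mem_inter_iff]
  exact ⟨fun h => ⟨fun n hn => h n (Or.inl hn), fun n hn => h n (Or.inr hn)⟩,
    fun h n hn => hn.elim (h.1 n) (h.2 n)⟩

lemma generate_eq (I : ℕ → Prop) :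
    MeasurableSpace.generateFrom {s | ∃ k, I k ∧ E k = s} =
      MeasurableSpace.generateFrom {s | ∃ S : Finset ℕ, (∀ n ∈ S, I n) ∧ Avoid E S = s} := by
  apply le_antisymm
  · apply MeasurableSpace.generateFrom_le
    rintro s ⟨k, hk, rfl⟩
    have h1 : E k = (Avoid E {k})ᶜ := by
      ext ω
      simp [Avoid]
    rw [h1]
    apply MeasurableSet.compl
    apply MeasurableSpace.measurableSet_generateFrom
    exact ⟨{k}, by simpa using hk, rfl⟩
  · apply MeasurableSpace.generateFrom_le
    rintro s ⟨S, hS, rfl⟩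
    have h1 : Avoid E S = ⋂ n ∈ S, (E n)ᶜ := by
      ext ω
      simp [Avoid]
    rw [h1]
    refine Finset.measurableSet_biInter _ fun n hn => MeasurableSet.compl ?_
    exact MeasurableSpace.measurableSet_generateFrom ⟨n, hS n hn, rfl⟩

end

lemma indep_of_avoid {Ω : Type*} [MeasurableSpace Ω] {P : Measure Ω} {E : ℕ → Set Ω}
    [IsProbabilityMeasure P] (hE : ∀ n, MeasurableSet (E n)) {a b : ℕ}
    (h : ∀ S T : Finset ℕ, (∀ s ∈ S, s ≤ a) → (∀ t ∈ T, b < t) →
      P.real (Avoid E (S ∪ T)) = P.real (Avoid E S) * P.real (Avoid E T)) :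
    Indep (Past E a) (Future E b) P := by
  have hpi : ∀ I : ℕ → Prop,
      IsPiSystem {s | ∃ S : Finset ℕ, (∀ n ∈ S, I n) ∧ Avoid E S = s} := by
    rintro I s ⟨S, hS, rfl⟩ t ⟨T, hT, rfl⟩ _
    refine ⟨S ∪ T, ?_, avoid_union S T⟩
    intro n hn
    rw [Finset.mem_union] at hn
    exact hn.elim (hS n) (hT n)
  unfold Past Future
  rw [generate_eq (E := E) (fun k => k ≤ a), generate_eq (E := E) (fun k => b < k)]
  apply IndepSets.indep' _ _ (hpi _) (hpi _)
  · rw [IndepSets_iff]
    rintro s t ⟨S, hS, rfl⟩ ⟨T, hT, rfl⟩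
    rw [← avoid_union]
    have h1 := h S T hS hT
    rw [measureReal_def, measureReal_def, measureReal_def, ← ENNReal.toReal_mul] at h1
    exact (ENNReal.toReal_eq_toReal_iff' (measure_ne_top _ _)
      (ENNReal.mul_ne_top (measure_ne_top _ _) (measure_ne_top _ _))).1 h1
  · rintro s ⟨S, _, rfl⟩
    exact avoid_meas hE S
  · rintro s ⟨S, _, rfl⟩
    exact avoid_meas hE S

/-! ### independent blocks -/

/-- the index of the block `(b j, b (j + 1)]` which contains `n` -/
noncomputable def idx (b : ℕ → ℕ) (n : ℕ) : ℕ := Nat.findGreatest (fun j => b j < n) n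

lemma idx_spec {b : ℕ → ℕ} (hb : StrictMono b) (hb0 : b 0 = 0) {n : ℕ} (hn : 0 < n) :
    b (idx b n) < n ∧ n ≤ b (idx b n + 1) := by
  classical
  constructor
  · exact Nat.findGreatest_spec (P := fun j => b j < n) (m := 0) (Nat.zero_le n) (by rw [hb0]; exact hn)
  · by_contra hcon
    rw [not_le] at hcon
    have h1 : idx b n + 1 ≤ n := (hb.id_le _).trans hcon.le
    have h2 : idx b n + 1 ≤ idx b n := Nat.le_findGreatest h1 hcon
    omega

lemma idx_unique {b : ℕ → ℕ} (hb : StrictMono b) (hb0 : b 0 = 0) {n j : ℕ} (h1 : b j < n)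
    (h2 : n ≤ b (j + 1)) : idx b n = j := by
  obtain ⟨h3, h4⟩ := idx_spec hb hb0 (n := n) (by omega)
  have h5 : j < idx b n + 1 := hb.lt_iff_lt.1 (lt_of_lt_of_le h1 h4)
  have h6 : idx b n < j + 1 := hb.lt_iff_lt.1 (lt_of_lt_of_le h3 h2)
  omega

lemma exists_blocks {b : ℕ → ℕ} (hb : StrictMono b) (hb0 : b 0 = 0) {φ : ℕ → Finset ℕ → ℝ}
    (h : ∀ j, Realizable (φ j) (Finset.Ioc (b j) (b (j + 1)))) :
    ∃ (Ω : Type) (_ : MeasurableSpace Ω) (P : Measure Ω) (_ : IsProbabilityMeasure P)
      (E : ℕ → Set Ω), (∀ n, MeasurableSet (E n)) ∧ ∀ (S : Finset ℕ) (J : ℕ), (∀ s ∈ S, s ≤ b J) →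
        P.real (Avoid E S) = ∏ j ∈ Finset.range J, φ j (S ∩ Finset.Ioc (b j) (b (j + 1))) := by
  classical
  choose Ω mΩ P hP e he hφ using h
  refine ⟨∀ j, Ω j, inferInstance, Measure.infinitePi P, inferInstance,
    fun n => {ω | n ≠ 0 ∧ ω (idx b n) ∈ e (idx b n) n}, ?_, ?_⟩
  · intro n
    by_cases hn : n = 0
    · subst hn
      simp
    · have : {ω : ∀ j, Ω j | n ≠ 0 ∧ ω (idx b n) ∈ e (idx b n) n} =
          (fun ω : ∀ j, Ω j => ω (idx b n)) ⁻¹' e (idx b n) n := by
        ext ω
        simp [hn]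
      beta_reduce
      rw [this]
      exact measurable_pi_apply _ (he _ _)
  · intro S J hJ
    have h1 : Avoid (fun n => {ω : ∀ j, Ω j | n ≠ 0 ∧ ω (idx b n) ∈ e (idx b n) n}) S =
        Set.pi (Finset.range J : Set ℕ)
          fun j => Avoid (e j) (S ∩ Finset.Ioc (b j) (b (j + 1))) := by
      ext ω
      simp only [Avoid, Set.mem_pi, Finset.coe_range, Set.mem_Iio, Finset.mem_inter,
        Finset.mem_Ioc]
      constructor
      · intro h2 j _ n hn hne
        have h3 := idx_unique hb hb0 hn.2.1 hn.2.2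
        apply h2 n hn.1
        refine ⟨by omega, ?_⟩
        rw [h3]
        exact hne
      · rintro h2 n hn ⟨h3, h4⟩
        obtain ⟨h5, h6⟩ := idx_spec hb hb0 (Nat.pos_of_ne_zero h3)
        have h7 : idx b n < J := hb.lt_iff_lt.1 (lt_of_lt_of_le h5 (hJ n hn))
        exact h2 _ h7 n ⟨hn, h5, h6⟩ h4
    rw [h1, measureReal_def, Measure.infinitePi_pi]
    · rw [ENNReal.toReal_prod]
      refine Finset.prod_congr rfl fun j _ => ?_
      rw [← measureReal_def, hφ j _ Finset.inter_subset_right]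
    · intro j _
      exact avoid_meas (he j) _

end Pool.Agent.H41.LD
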