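import Mathlib

/-! # Recursions for the avoidance probabilities -/

set_option autoImplicit false

namespace Pool.Agent.H41.LD

open Filter Topology

/-- lower bound for a sequence with `g (k + 1) ≥ g k - p g (k - M)` -/
lemma pow_le_of_rec' {g : ℕ → ℝ} {H M : ℕ} {p y : ℝ} (hy0 : 0 ≤ y) (hy1 : y < 1)
    (hg : ∀ k ≤ H, 0 ≤ g k) (hp : p ≤ y * (1 - y) ^ M)
    (hrec : ∀ k < H, (∀ i ≤ k, (1 - y) ^ i * g 0 ≤ g i) → g k - p * g (k - M) ≤ g (k + 1)) :
    ∀ k ≤ H, (1 - y) ^ k * g 0 ≤ g k := by
  have hq : 0 < 1 - y := by linarith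
  have main : ∀ k ≤ H, ∀ i ≤ k, (1 - y) ^ (k - i) * g i ≤ g k := by
    intro k
    induction k using Nat.strong_induction_on with
    | _ k ih =>
      intro hk i hi
      rcases Nat.eq_or_lt_of_le hi with rfl | hlt
      · simp
      obtain ⟨k', rfl⟩ : ∃ k', k = k' + 1 := ⟨k - 1, by omega⟩
      have h1 : (1 - y) ^ (k' - i) * g i ≤ g k' := ih k' (by omega) (by omega) i (by omega)
      have h2 : (1 - y) ^ M * g (k' - M) ≤ g k' := by
        have h3 := ih k' (by omega) (by omega) (k' - M) (by omega)
        refine le_trans ?_ h3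
        apply mul_le_mul_of_nonneg_right _ (hg _ (by omega))
        exact pow_le_pow_of_le_one hq.le (by linarith) (by omega)
      have h4 : p * g (k' - M) ≤ y * g k' := by
        calc p * g (k' - M) ≤ (y * (1 - y) ^ M) * g (k' - M) :=
              mul_le_mul_of_nonneg_right hp (hg _ (by omega))
          _ = y * ((1 - y) ^ M * g (k' - M)) := by ring
          _ ≤ y * g k' := mul_le_mul_of_nonneg_left h2 hy0
      have h5 := hrec k' (by omega) fun i hi => by
        simpa using ih i (by omega) (by omega) 0 (Nat.zero_le _)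
      have h6 : (1 - y) ^ (k' + 1 - i) * g i = (1 - y) * ((1 - y) ^ (k' - i) * g i) := by
        rw [show k' + 1 - i = (k' - i) + 1 by omega, pow_succ]
        ring
      rw [h6]
      have h7 := mul_le_mul_of_nonneg_left h1 hq.le
      nlinarith
  intro k hk
  simpa using main k hk 0 (Nat.zero_le k)

lemma pow_le_of_rec {g : ℕ → ℝ} {H M : ℕ} {p y : ℝ} (hy0 : 0 ≤ y) (hy1 : y < 1)
    (hg : ∀ k ≤ H, 0 ≤ g k) (hp : p ≤ y * (1 - y) ^ M)
    (hrec : ∀ k < H, g k - p * g (k - M) ≤ g (k + 1)) :
    ∀ k ≤ H, (1 - y) ^ k * g 0 ≤ g k :=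
  pow_le_of_rec' hy0 hy1 hg hp fun k hk _ => hrec k hk

/-- the avoidance probabilities of intervals in the hard-core model with range `r` and density `x` -/
noncomputable def zz (r : ℕ) (x : ℝ) : ℕ → ℝ
  | 0 => 1
  | k + 1 => zz r x k - x * zz r x (k - r)
decreasing_by all_goals omega

@[simp] lemma zz_zero (r : ℕ) (x : ℝ) : zz r x 0 = 1 := by rw [zz]

lemma zz_succ (r : ℕ) (x : ℝ) (k : ℕ) : zz r x (k + 1) = zz r x k - x * zz r x (k - r) := by
  rw [zz]

lemma zz_continuous (r k : ℕ) : Continuous fun x => zz r x k := by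
  induction k using Nat.strong_induction_on with
  | _ k ih =>
    rcases k with _ | k
    · simpa using continuous_const
    · simp_rw [zz_succ]
      exact (ih k (by omega)).sub (continuous_id.mul (ih (k - r) (by omega)))

lemma zz_anti {r N : ℕ} {x : ℝ} (hx : 0 ≤ x) (h : ∀ k < N, 0 ≤ zz r x k) {i j : ℕ} (hij : i ≤ j)
    (hj : j ≤ N) : zz r x j ≤ zz r x i := by
  induction j, hij using Nat.le_induction with
  | base => exact le_rfl
  | succ j hij ih =>
    refine le_trans ?_ (ih (by omega))
    rw [zz_succ]
    have := mul_nonneg hx (h (j - r) (by omega))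
    linarith

/-- comparison with the sequence of the avoidance probabilities of intervals -/
lemma zz_le_of_rec {r N : ℕ} {x : ℝ} (hx : 0 ≤ x) (hz : ∀ k ≤ N, 0 < zz r x k) {Y : ℕ → ℝ}
    (hY0 : Y 0 = 1) (hY : ∀ k < N, Y (k + 1) = Y k ∨ Y (k + 1) = Y k - x * Y (k - r)) :
    ∀ k ≤ N, zz r x k ≤ Y k := by
  have key : ∀ j ≤ N, ∀ i ≤ j, Y i * zz r x j ≤ Y j * zz r x i := by
    intro j
    induction j using Nat.strong_induction_on with
    | _ j ih =>
      intro hj
      rcases j with _ | j
      · intro i hi
        obtain rfl : i = 0 := by omega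
        exact le_rfl
      have hpos : ∀ i ≤ j, 0 < Y i := by
        intro i hi
        have h1 := ih i (by omega) (by omega) 0 (Nat.zero_le _)
        rw [hY0, zz_zero, one_mul, mul_one] at h1
        exact lt_of_lt_of_le (hz i (by omega)) h1
      have hstep : Y j * zz r x (j + 1) ≤ Y (j + 1) * zz r x j := by
        have hzj := hz j (by omega)
        have hzjr := hz (j - r) (by omega)
        rcases hY j (by omega) with h | h
        · rw [h, zz_succ]
          have := mul_nonneg hx hzjr.le
          have h2 := hpos j le_rfl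
          nlinarith
        · rw [h, zz_succ]
          have h1 := ih j (by omega) (by omega) (j - r) (by omega)
          nlinarith
      intro i hi
      rcases Nat.eq_or_lt_of_le hi with rfl | hlt
      · exact le_rfl
      have h1 := ih j (by omega) (by omega) i (by omega)
      have hzj := hz j (by omega)
      have hzi := hz i (by omega)
      have h3 : Y i * zz r x j * zz r x (j + 1) ≤ Y j * zz r x i * zz r x (j + 1) :=
        mul_le_mul_of_nonneg_right h1 (hz (j + 1) hj).le
      have h4 := mul_le_mul_of_nonneg_right hstep hzi.le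
      have h2 : Y i * zz r x (j + 1) * zz r x j ≤ Y (j + 1) * zz r x i * zz r x j := by
        nlinarith
      exact le_of_mul_le_mul_right h2 hzj
  intro k hk
  have h1 := key k hk 0 (Nat.zero_le _)
  rwa [hY0, zz_zero, one_mul, mul_one] at h1

/-- the running minimum of the avoidance probabilities -/
noncomputable def zmin (r : ℕ) (x : ℝ) : ℕ → ℝ
  | 0 => 1
  | k + 1 => min (zmin r x k) (zz r x (k + 1))

lemma zmin_continuous (r k : ℕ) : Continuous fun x => zmin r x k := by
  induction k with
  | zero => exact continuous_const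
  | succ k ih => exact ih.min (zz_continuous r (k + 1))

lemma zmin_le (r : ℕ) (x : ℝ) {k N : ℕ} (hk : k ≤ N) : zmin r x N ≤ zz r x k := by
  induction N, hk using Nat.le_induction with
  | base =>
    rcases k with _ | k
    · rw [zz_zero]
      exact le_rfl
    · exact min_le_right _ _
  | succ N _ ih => exact (min_le_left _ _).trans ih

lemma zmin_mem (r : ℕ) (x : ℝ) (N : ℕ) : ∃ k ≤ N, zmin r x N = zz r x k := by
  induction N with
  | zero => exact ⟨0, le_rfl, by rw [zz_zero]; rfl⟩
  | succ N ih =>
    obtain ⟨k, hk, hk2⟩ := ih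
    rcases min_choice (zmin r x N) (zz r x (N + 1)) with h | h
    · exact ⟨k, by omega, by rw [← hk2]; exact h⟩
    · exact ⟨N + 1, le_rfl, h⟩

lemma zmin_eq {r N : ℕ} {x : ℝ} (hx : 0 ≤ x) (h : ∀ k ≤ N, 0 < zz r x k) :
    zmin r x N = zz r x N := by
  obtain ⟨k, hk, hk2⟩ := zmin_mem r x N
  apply le_antisymm (zmin_le r x le_rfl)
  rw [hk2]
  exact zz_anti hx (fun i hi => (h i hi.le).le) hk le_rfl

lemma zz_at_zero (r k : ℕ) : zz r 0 k = 1 := by
  induction k with
  | zero => simp
  | succ k ih => rw [zz_succ, ih]; ring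

lemma zmin_at_zero (r k : ℕ) : zmin r 0 k = 1 := by
  obtain ⟨i, _, hi⟩ := zmin_mem r 0 k
  rw [hi, zz_at_zero]

/-- a hard-core model with a smaller density and an independent noise have any prescribed avoidance
probability between that of the hard-core model and that of the independent model -/
lemma exists_density {r N : ℕ} {x q : ℝ} (hx0 : 0 ≤ x) (hx1 : x < 1) (hq0 : 0 < q)
    (hq1 : zmin r x N ≤ q) (hq2 : q ≤ (1 - x) ^ N) :
    ∃ u : ℝ, 0 ≤ u ∧ u ≤ x ∧ (∀ k ≤ N, 0 < zz r u k) ∧
      zz r u N * ((1 - x) / (1 - u)) ^ N = q := by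
  set g : ℝ → ℝ := fun u => zmin r u N * ((1 - x) / (1 - u)) ^ N with hg
  have hcont : ContinuousOn g (Set.Icc 0 x) := by
    apply (zmin_continuous r N).continuousOn.mul
    apply ContinuousOn.pow
    apply ContinuousOn.div continuousOn_const (by fun_prop)
    intro u hu
    have := hu.2
    linarith
  have h0 : g 0 = (1 - x) ^ N := by
    simp [hg, zmin_at_zero]
  have h1 : g x = zmin r x N := by
    have : (1 - x) / (1 - x) = 1 := div_self (by linarith)
    simp [hg, this]
  have hmem : q ∈ Set.Icc (g x) (g 0) := ⟨by rw [h1]; exact hq1, by rw [h0]; exact hq2⟩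
  obtain ⟨u, hu, huq⟩ := intermediate_value_Icc' hx0 hcont hmem
  have hfac : 0 < ((1 - x) / (1 - u)) ^ N := by
    apply pow_pos
    apply div_pos (by linarith)
    have := hu.2
    linarith
  have hpos : 0 < zmin r u N := by
    by_contra hcon
    rw [not_lt] at hcon
    have h2 : g u ≤ 0 := mul_nonpos_of_nonpos_of_nonneg hcon hfac.le
    rw [huq] at h2
    linarith
  have hall : ∀ k ≤ N, 0 < zz r u k := fun k hk => lt_of_lt_of_le hpos (zmin_le r u hk)
  refine ⟨u, hu.1, hu.2, hall, ?_⟩
  rw [← zmin_eq hu.1 hall]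
  exact huq

lemma zz_pow_le {r : ℕ} {x : ℝ} (hx0 : 0 ≤ x) : ∀ {N : ℕ}, (∀ k ≤ N, 0 < zz r x k) →
    ∀ k ≤ N, zz r x k ≤ (1 - x) ^ k := by
  intro N h k
  induction k with
  | zero => intro _; simp
  | succ k ih =>
    intro hk
    have h1 := ih (by omega)
    have h2 : zz r x k ≤ zz r x (k - r) :=
      zz_anti hx0 (fun i hi => (h i (by omega)).le) (Nat.sub_le k r) (show k ≤ k from le_rfl)
    have h3 : zz r x (k + 1) ≤ (1 - x) * zz r x k := by
      rw [zz_succ]
      nlinarith
    have h4 : 0 < zz r x (k + 1) := h _ hk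
    have h5 : 0 < zz r x k := h _ (by omega)
    have h6 : 0 < 1 - x := by
      by_contra hcon
      rw [not_lt] at hcon
      have := mul_nonpos_of_nonpos_of_nonneg hcon h5.le
      linarith
    calc zz r x (k + 1) ≤ (1 - x) * zz r x k := h3
      _ ≤ (1 - x) * (1 - x) ^ k := mul_le_mul_of_nonneg_left h1 h6.le
      _ = (1 - x) ^ (k + 1) := by ring

lemma zmin_le_pow {r N : ℕ} {x : ℝ} (hx0 : 0 ≤ x) (hx1 : x ≤ 1) : zmin r x N ≤ (1 - x) ^ N := by
  by_cases h : ∀ k ≤ N, 0 < zz r x k
  · exact (zmin_le r x le_rfl).trans (zz_pow_le hx0 h N le_rfl)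
  · push Not at h
    obtain ⟨k, hk, hk2⟩ := h
    exact ((zmin_le r x hk).trans hk2).trans (pow_nonneg (by linarith) _)

/-! ### the rate -/

/-- the iterates of `τ ↦ exp (c τ)` starting at `0` -/
noncomputable def tau (c : ℝ) : ℕ → ℝ
  | 0 => 0
  | i + 1 => Real.exp (c * tau c i)

lemma tau_nonneg (c : ℝ) (i : ℕ) : 0 ≤ tau c i := by
  rcases i with _ | i
  · exact le_rfl
  · exact (Real.exp_pos _).le

lemma tau_mono_left {c d : ℝ} (hc : 0 ≤ c) (hcd : c ≤ d) (i : ℕ) : tau c i ≤ tau d i := by
  induction i with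
  | zero => exact le_rfl
  | succ i ih =>
    apply Real.exp_le_exp.2
    exact mul_le_mul hcd ih (tau_nonneg c i) (hc.trans hcd)

lemma tau_continuous (i : ℕ) : Continuous fun c => tau c i := by
  induction i with
  | zero => exact continuous_const
  | succ i ih => exact Real.continuous_exp.comp (continuous_id.mul ih)

/-- the rounds -/
lemma zz_round {r N : ℕ} {x : ℝ} (hx0 : 0 ≤ x) (h : ∀ k ≤ N, 0 < zz r x k) (i : ℕ) :
    ∀ k, i * r ≤ k → k < N → zz r x (k + 1) ≤ (1 - x * tau (x * r) i) * zz r x k := by
  induction i with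
  | zero =>
    intro k _ hk
    have h2 := zz_anti (r := r) (N := N) hx0 (fun i hi => (h i hi.le).le)
      (Nat.le_succ k) (by omega)
    simpa [tau] using h2
  | succ i ih =>
    intro k hk1 hk2
    have hkr : i * r + r ≤ k := by
      have : (i + 1) * r = i * r + r := by ring
      omega
    set t : ℝ := x * tau (x * r) i with ht
    have h1 : ∀ d : ℕ, k - r + d ≤ k → zz r x (k - r + d) ≤ (1 - t) ^ d * zz r x (k - r) ∧
        (d ≠ 0 → 0 ≤ 1 - t) := by
      intro d
      induction d with
      | zero => intro _; simp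
      | succ d ihd =>
        intro hd
        have h3 := ih (k - r + d) (by omega) (by omega)
        have h4 := h (k - r + d) (by omega)
        have h5 := h (k - r + d + 1) (by omega)
        have h6 : 0 ≤ 1 - t := by
          by_contra hcon
          rw [not_le] at hcon
          have := mul_neg_of_neg_of_pos hcon h4
          linarith
        refine ⟨?_, fun _ => h6⟩
        calc zz r x (k - r + (d + 1)) = zz r x (k - r + d + 1) := rfl
          _ ≤ (1 - t) * zz r x (k - r + d) := h3
          _ ≤ (1 - t) * ((1 - t) ^ d * zz r x (k - r)) :=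
            mul_le_mul_of_nonneg_left (ihd (by omega)).1 h6
          _ = (1 - t) ^ (d + 1) * zz r x (k - r) := by ring
    have h2 : zz r x k ≤ Real.exp (-(t * r)) * zz r x (k - r) := by
      have h3 := h1 r (by omega)
      rw [show k - r + r = k by omega] at h3
      refine h3.1.trans ?_
      apply mul_le_mul_of_nonneg_right _ (h _ (by omega)).le
      rcases Nat.eq_zero_or_pos r with hr | hr
      · subst hr
        simp
      · have h4 := h3.2 (by omega)
        have h5 : 1 - t ≤ Real.exp (-t) := by
          have := Real.add_one_le_exp (-t)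
          linarith
        calc (1 - t) ^ r ≤ (Real.exp (-t)) ^ r := pow_le_pow_left₀ h4 h5 r
          _ = Real.exp (-(t * r)) := by
            rw [← Real.exp_nat_mul]
            congr 1
            ring
    have h3 : Real.exp (t * r) * zz r x k ≤ zz r x (k - r) := by
      have h4 := mul_le_mul_of_nonneg_left h2 (Real.exp_pos (t * r)).le
      rw [← mul_assoc, ← Real.exp_add] at h4
      simpa using h4
    have h5 : tau (x * r) (i + 1) = Real.exp (t * r) := by
      simp only [tau]
      congr 1
      rw [ht]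
      ring
    rw [h5, zz_succ]
    have h6 := mul_le_mul_of_nonneg_left h3 hx0
    nlinarith

lemma zmin_le_exp {r N : ℕ} {x : ℝ} (hx0 : 0 ≤ x) (i : ℕ) (hi : i * r ≤ N) :
    zmin r x N ≤ Real.exp (-(x * tau (x * r) i * (N - i * r))) := by
  by_cases h : ∀ k ≤ N, 0 < zz r x k
  · refine (zmin_le r x le_rfl).trans ?_
    set t : ℝ := x * tau (x * r) i with ht
    have key : ∀ d : ℕ, i * r + d ≤ N → zz r x (i * r + d) ≤ Real.exp (-(t * d)) := by
      intro d
      induction d with
      | zero =>
        intro _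
        have h1 := zz_anti (r := r) (N := N) (i := 0) (j := i * r) hx0
          (fun i hi => (h i hi.le).le) (Nat.zero_le _) hi
        simpa using h1
      | succ d ihd =>
        intro hd
        have h3 := zz_round hx0 h i (i * r + d) (by omega) (by omega)
        rw [← ht] at h3
        have h4 := h (i * r + d) (by omega)
        have h5 : 1 - t ≤ Real.exp (-t) := by
          have := Real.add_one_le_exp (-t)
          linarith
        calc zz r x (i * r + (d + 1)) ≤ (1 - t) * zz r x (i * r + d) := h3
          _ ≤ Real.exp (-t) * zz r x (i * r + d) := mul_le_mul_of_nonneg_right h5 h4.le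
          _ ≤ Real.exp (-t) * Real.exp (-(t * d)) :=
            mul_le_mul_of_nonneg_left (ihd (by omega)) (Real.exp_pos _).le
          _ = Real.exp (-(t * (d + 1 : ℕ))) := by
            rw [← Real.exp_add]
            congr 1
            push_cast
            ring
    have h1 := key (N - i * r) (by omega)
    rw [show i * r + (N - i * r) = N by omega] at h1
    rw [Nat.cast_sub hi] at h1
    push_cast at h1
    exact h1
  · push Not at h
    obtain ⟨k, hk, hk2⟩ := h
    exact ((zmin_le r x hk).trans hk2).trans (Real.exp_pos _).le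

/-- below the threshold the iterates converge to `1 / l`, `c = l log (1 / l)` -/
lemma exists_tau_gt {l rho : ℝ} (hl : Real.exp (-1) < l) (hl1 : l ≤ 1) (hrho : rho < 1 / l) :
    ∃ i, rho < tau (l * Real.log (1 / l)) i := by
  have hl0 : 0 < l := (Real.exp_pos _).trans hl
  set c : ℝ := l * Real.log (1 / l) with hc
  set θ : ℝ := Real.log (1 / l) with hθ
  have hθ0 : 0 ≤ θ := Real.log_nonneg (by rw [le_div_iff₀ hl0]; linarith)
  have hθ1 : θ < 1 := by
    rw [hθ, one_div, Real.log_inv]
    have := Real.log_lt_log (Real.exp_pos _) hl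
    rw [Real.log_exp] at this
    linarith
  have hexp : Real.exp θ = 1 / l := Real.exp_log (by positivity)
  have key : ∀ i, 1 / l - tau c i ≤ θ ^ i * (1 / l) := by
    intro i
    induction i with
    | zero => simp [tau]
    | succ i ih =>
      have h1 : (1 / l) * (1 + c * (tau c i - 1 / l)) ≤ Real.exp (c * tau c i) := by
        have h2 : Real.exp (c * tau c i) = Real.exp θ * Real.exp (c * (tau c i - 1 / l)) := by
          rw [← Real.exp_add]
          congr 1
          rw [mul_sub, show c * (1 / l) = θ by rw [hc]; field_simp]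
          ring
        rw [h2, hexp]
        apply mul_le_mul_of_nonneg_left _ (by positivity)
        have := Real.add_one_le_exp (c * (tau c i - 1 / l))
        linarith
      have h3 : (1 / l) * (c * (tau c i - 1 / l)) = - (θ * (1 / l - tau c i)) := by
        rw [hc]
        field_simp
        ring
      have h4 := mul_le_mul_of_nonneg_left ih hθ0
      simp only [tau]
      calc 1 / l - Real.exp (c * tau c i) ≤ 1 / l - (1 / l) * (1 + c * (tau c i - 1 / l)) := by
            linarith
        _ = θ * (1 / l - tau c i) := by rw [mul_add, h3]; ring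
        _ ≤ θ * (θ ^ i * (1 / l)) := h4
        _ = θ ^ (i + 1) * (1 / l) := by ring
  have hlim : Tendsto (fun i : ℕ => θ ^ i * (1 / l)) atTop (𝓝 (0 * (1 / l))) :=
    (tendsto_pow_atTop_nhds_zero_of_lt_one hθ0 hθ1).mul_const _
  rw [zero_mul] at hlim
  obtain ⟨i, hi⟩ := (hlim.eventually (gt_mem_nhds (show (0:ℝ) < 1 / l - rho by linarith))).exists
  exact ⟨i, by have := key i; linarith⟩

/-- above the threshold the iterates are unbounded -/
lemma exists_tau_gt' {c : ℝ} (hc : Real.exp (-1) < c) (rho : ℝ) : ∃ i, rho < tau c i := by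
  have hc0 : 0 < c := (Real.exp_pos _).trans hc
  have hce : 1 < Real.exp 1 * c := by
    have h1 := mul_lt_mul_of_pos_left hc (Real.exp_pos 1)
    rwa [← Real.exp_add, show (1:ℝ) + -1 = 0 by ring, Real.exp_zero] at h1
  set δ : ℝ := min (1 / 2) ((Real.exp 1 * c - 1) / 2) with hδ
  have hδ0 : 0 < δ := lt_min (by norm_num) (by linarith)
  have hstep : ∀ τ : ℝ, 0 ≤ τ → τ + δ ≤ Real.exp (c * τ) := by
    intro τ hτ
    rcases le_or_gt τ (1 / 2) with h | h
    · have h1 : 1 ≤ Real.exp (c * τ) := Real.one_le_exp (by positivity)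
      have h2 : δ ≤ 1 / 2 := min_le_left _ _
      linarith
    · have h1 : Real.exp 1 * (c * τ) ≤ Real.exp (c * τ) := by
        have h3 := Real.add_one_le_exp (c * τ - 1)
        have h4 : Real.exp (c * τ) = Real.exp 1 * Real.exp (c * τ - 1) := by
          rw [← Real.exp_add]
          congr 1
          ring
        rw [h4]
        apply mul_le_mul_of_nonneg_left _ (Real.exp_pos _).le
        linarith
      have h2 : δ ≤ (Real.exp 1 * c - 1) / 2 := min_le_right _ _
      nlinarith
  have key : ∀ i : ℕ, i * δ ≤ tau c i := by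
    intro i
    induction i with
    | zero => simp [tau]
    | succ i ih =>
      have := hstep (tau c i) (tau_nonneg c i)
      simp only [tau]
      push_cast
      linarith
  obtain ⟨i, hi⟩ := exists_nat_gt (rho / δ)
  refine ⟨i, ?_⟩
  rw [div_lt_iff₀ hδ0] at hi
  exact lt_of_lt_of_le hi (key i)

end Pool.Agent.H41.LD
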