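import Pool.Agent.H41.LD.Block

/-! # Sequences of blocks -/

set_option autoImplicit false
set_option linter.unusedSectionVars false

namespace Pool.Agent.H41.LD

open MeasureTheory Filter Topology ProbabilityTheory
open Pool.Agent.H34.ND (Free cramerConst)

/-- the ends of the blocks: the block which starts at `b` has the length `len b` -/
def blk (len : ℕ → ℕ) : ℕ → ℕ
  | 0 => 0
  | j + 1 => blk len j + len (blk len j)

lemma blk_mono {len : ℕ → ℕ} (h : ∀ b, 1 ≤ len b) : StrictMono (blk len) := by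
  apply strictMono_nat_of_lt_succ
  intro j
  have := h (blk len j)
  simp only [blk]
  omega

lemma blk_diff (len : ℕ → ℕ) (j : ℕ) : ((blk len (j + 1) : ℝ) - blk len j) = len (blk len j) := by
  simp only [blk]
  push_cast
  ring

lemma blk_tendsto {len : ℕ → ℕ} (h : ∀ b, 1 ≤ len b) : Tendsto (blk len) atTop atTop :=
  (blk_mono h).tendsto_atTop

/-- `2 + log b`, the inverse of the density of the elements in the block which starts at `b` -/
noncomputable def LL (b : ℕ) : ℝ := 2 + Real.log b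

lemma two_le_LL (b : ℕ) : 2 ≤ LL b := by
  unfold LL
  have : 0 ≤ Real.log b := Real.log_natCast_nonneg b
  linarith

lemma LL_pos (b : ℕ) : 0 < LL b := by
  have := two_le_LL b
  linarith

lemma LL_tendsto : Tendsto LL atTop atTop := tendsto_atTop_add_const_left _ 2 tendsto_log_nat

lemma short_blk {len : ℕ → ℕ} (h : ∀ b, 1 ≤ len b)
    (hlen : ∀ η : ℝ, 0 < η → ∀ᶠ b : ℕ in atTop, (len b : ℝ) ≤ η * Real.log b ^ 2) :
    Short (blk len) := by
  intro η hη
  filter_upwards [(blk_tendsto h).eventually (hlen η hη)] with j hj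
  rw [blk_diff]
  exact hj

variable {Ω : Type*} [mΩ : MeasurableSpace Ω] {P : Measure Ω} {E : ℕ → Set Ω}
  [IsProbabilityMeasure P] {φ : ℕ → Finset ℕ → ℝ}

lemma dens_of_blocks {len : ℕ → ℕ} (h1 : ∀ b, 1 ≤ len b)
    (hlen : ∀ η : ℝ, 0 < η → ∀ᶠ b : ℕ in atTop, (len b : ℝ) ≤ η * Real.log b ^ 2)
    (h : Blocks P E (blk len) φ)
    (hφ : ∀ j n, blk len j < n → n ≤ blk len (j + 1) → φ j {n} = 1 - 1 / LL (blk len j)) :
    Tendsto (fun n : ℕ => P.real (E n) * Real.log n) atTop (𝓝 1) := by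
  have hval : ∀ n : ℕ, 0 < n → P.real (E n) = 1 / LL (blk len (idx (blk len) n)) := by
    intro n hn
    obtain ⟨h2, h3⟩ := idx_spec h.mono h.zero hn
    rw [h.real_event hn, hφ _ n h2 h3]
    ring
  -- the lower function
  have hlow : Tendsto (fun n : ℕ => Real.log n / (2 + Real.log n)) atTop (𝓝 1) := by
    have h2 : Tendsto (fun u : ℝ => 1 - 2 / (2 + u)) atTop (𝓝 (1 - 0)) := by
      apply tendsto_const_nhds.sub
      exact tendsto_const_nhds.div_atTop (tendsto_atTop_add_const_left _ 2 tendsto_id)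
    rw [sub_zero] at h2
    have h3 := h2.comp tendsto_log_nat
    refine h3.congr fun n => ?_
    have h4 : 0 ≤ Real.log n := Real.log_natCast_nonneg n
    simp only [Function.comp]
    field_simp
    ring
  obtain ⟨b₀, hb₀⟩ := eventually_atTop.1 ((hlen 1 one_pos).and (ev_log_le 1 2))
  have hup : ∀ᶠ n : ℕ in atTop, P.real (E n) * Real.log n ≤ 1 := by
    obtain ⟨j₀, hj₀⟩ := eventually_atTop.1 ((blk_tendsto h1).eventually_ge_atTop (b₀ + 1))
    filter_upwards [eventually_gt_atTop (blk len j₀)] with n hn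
    have hn0 : 0 < n := by omega
    obtain ⟨h2, h3⟩ := idx_spec h.mono h.zero hn0
    have h4 := hj₀ _ (le_idx h.mono hn)
    set b : ℕ := blk len (idx (blk len) n) with hb
    have h5 := hb₀ b (by omega)
    have h6 : n ≤ b + len b := h3
    have h7 : (n : ℝ) ≤ 2 * b := by
      have h8 : (n : ℝ) ≤ b + len b := by exact_mod_cast h6
      linarith [h5.1, h5.2]
    have hbpos : (0:ℝ) < b := by
      have : 0 < b := by omega
      exact_mod_cast this
    have h8 : Real.log n ≤ LL b := by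
      have h9 : Real.log n ≤ Real.log (2 * b) :=
        Real.log_le_log (by exact_mod_cast hn0) h7
      rw [Real.log_mul (by norm_num) hbpos.ne'] at h9
      have := Real.log_two_lt_d9
      unfold LL
      linarith
    rw [hval n hn0, ← hb, one_div, inv_mul_le_iff₀ (LL_pos b)]
    linarith
  refine tendsto_of_tendsto_of_tendsto_of_le_of_le' hlow tendsto_const_nhds ?_ hup
  filter_upwards [eventually_gt_atTop 0] with n hn
  obtain ⟨h2, h3⟩ := idx_spec h.mono h.zero hn
  rw [hval n hn, one_div, ← div_eq_inv_mul]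
  apply div_le_div_of_nonneg_left (Real.log_natCast_nonneg n) (LL_pos _)
  unfold LL
  rcases Nat.eq_zero_or_pos (blk len (idx (blk len) n)) with h4 | h4
  · rw [h4]
    simp [Real.log_natCast_nonneg]
  · have : Real.log (blk len (idx (blk len) n) : ℝ) ≤ Real.log n :=
      Real.log_le_log (by exact_mod_cast h4) (by exact_mod_cast h2.le)
    linarith

/-- the value of the constant, from the probabilities that the blocks are empty -/
lemma value_of_blocks {b : ℕ → ℕ} (h : Blocks P E b φ) (hs : Short b)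
    (hinf : ∀ᵐ ω ∂P, {n | ω ∈ E n}.Infinite) {x : EReal} (hx : 0 ≤ x)
    (hup : ∀ lam : ℝ, 0 ≤ lam → x < lam → ∃ σ : ℝ, 0 < σ ∧ 1 < lam * σ ∧
      ∀ᶠ j : ℕ in atTop, φ j (Finset.Ioc (b j) (b (j + 1))) ≤
        Real.exp (-(σ * ((b (j + 1) : ℝ) - b j) / Real.log (b j))))
    (hlow : ∀ lam : ℝ, 0 ≤ lam → (lam : EReal) < x → ∃ σ : ℝ, 0 ≤ σ ∧ lam * σ < 1 ∧
      ∀ᶠ j : ℕ in atTop, Real.exp (-(σ * ((b (j + 1) : ℝ) - b j) / Real.log (b j))) ≤
        φ j (Finset.Ioc (b j) (b (j + 1)))) :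
    ∀ᵐ ω ∂P, {n | ω ∈ E n}.Infinite ∧ cramerConst {n | ω ∈ E n} = x := by
  apply cramer_eq hx hinf
  · intro lam hlam hlt
    obtain ⟨σ, h1, h2, h3⟩ := hup lam hlam hlt
    exact h.upper hs h1 hlam h2 h3
  · intro lam hlam hlt
    obtain ⟨σ, h1, h2, h3⟩ := hlow lam hlam hlt
    exact h.lower hs h1 hlam h2 h3

/-- comparison of the two normalisations -/
lemma ev_rate {σ ρ : ℝ} (h : σ < ρ) : ∀ᶠ b : ℕ in atTop, σ / Real.log b ≤ ρ / LL b := by
  have h1 : Tendsto (fun u : ℝ => ρ * u - σ * (2 + u)) atTop atTop := by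
    have h2 : Tendsto (fun u : ℝ => (ρ - σ) * u) atTop atTop :=
      tendsto_id.const_mul_atTop (by linarith)
    have h3 := tendsto_atTop_add_const_right atTop (-2 * σ) h2
    refine h3.congr fun u => by ring
  filter_upwards [tendsto_log_nat.eventually (h1.eventually_ge_atTop 0), ev_log_ge 1] with b h2 h3
  rw [div_le_div_iff₀ (by linarith) (LL_pos b)]
  unfold LL
  linarith

lemma ev_rate' {σ ρ : ℝ} (h : σ < ρ) (hρ : 0 ≤ ρ) :
    ∀ᶠ b : ℕ in atTop, σ / LL b ≤ ρ / Real.log b := by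
  filter_upwards [ev_log_ge 1] with b h3
  rw [div_le_div_iff₀ (LL_pos b) (by linarith)]
  unfold LL
  nlinarith

/-- the smallest value of `m` on `[b, ∞)` -/
noncomputable def low (m : ℕ → ℕ) (b : ℕ) : ℕ := sInf (m '' Set.Ici b)

lemma low_le (m : ℕ → ℕ) {b n : ℕ} (h : b ≤ n) : low m b ≤ m n := Nat.sInf_le ⟨n, h, rfl⟩

lemma low_mem (m : ℕ → ℕ) (b : ℕ) : ∃ n, b ≤ n ∧ m n = low m b := by
  have h1 : (m '' Set.Ici b).Nonempty := ⟨m b, b, Set.mem_Ici.2 le_rfl, rfl⟩
  obtain ⟨n, hn, hn2⟩ := Nat.sInf_mem h1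
  exact ⟨n, hn, hn2⟩

lemma low_mono (m : ℕ → ℕ) {a b : ℕ} (h : a ≤ b) : low m a ≤ low m b := by
  obtain ⟨n, h1, h2⟩ := low_mem m b
  rw [← h2]
  exact low_le m (h.trans h1)

lemma low_tendsto {m : ℕ → ℕ} (h : Tendsto m atTop atTop) : Tendsto (low m) atTop atTop := by
  rw [tendsto_atTop]
  intro K
  obtain ⟨n₀, hn₀⟩ := eventually_atTop.1 (h.eventually_ge_atTop K)
  filter_upwards [eventually_ge_atTop n₀] with b hb
  obtain ⟨n, h1, h2⟩ := low_mem m b
  rw [← h2]
  exact hn₀ n (hb.trans h1)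

end Pool.Agent.H41.LD
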