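import Pool.Agent.H41.LD.Core

/-! # The values of the constant for the models with hard-core blocks -/

set_option autoImplicit false
set_option linter.unusedSectionVars false

namespace Pool.Agent.H41.LD

open MeasureTheory Filter Topology ProbabilityTheory
open Pool.Agent.H34.ND (Free cramerConst)

lemma exists_pos_between {lam ρ : ℝ} (h : lam * ρ < 1) :
    ∃ σ, ρ < σ ∧ lam * σ < 1 := by
  have h1 : ContinuousAt (fun t : ℝ => lam * t) ρ := by fun_prop
  have h2 : ∀ᶠ t : ℝ in 𝓝 ρ, lam * t < 1 := h1.eventually (gt_mem_nhds h)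
  obtain ⟨t, ht1, ht2⟩ := ((h2.filter_mono nhdsWithin_le_nhds).and
    (self_mem_nhdsWithin (a := ρ) (s := Set.Ioi ρ))).exists
  exact ⟨t, ht2, ht1⟩

lemma exists_lt_between {lam ρ : ℝ} (hρ : 0 < ρ) (h : 1 < lam * ρ) :
    ∃ σ, 0 < σ ∧ σ < ρ ∧ 1 < lam * σ := by
  have h1 : ContinuousAt (fun t : ℝ => lam * t) ρ := by fun_prop
  have h2 : ∀ᶠ t : ℝ in 𝓝 ρ, 1 < lam * t ∧ 0 < t :=
    (h1.eventually (lt_mem_nhds h)).and (lt_mem_nhds hρ)
  obtain ⟨t, ⟨ht1, ht3⟩, ht2⟩ := ((h2.filter_mono nhdsWithin_le_nhds).and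
    (self_mem_nhdsWithin (a := ρ) (s := Set.Iio ρ))).exists
  exact ⟨t, ht3, ht2, ht1⟩

lemma infinite_of_upper {Ω : Type*} [MeasurableSpace Ω] {P : Measure Ω} {E : ℕ → Set Ω} {lam : ℝ}
    (h : ∀ᵐ ω ∂P, Upper {n | ω ∈ E n} lam) : ∀ᵐ ω ∂P, {n | ω ∈ E n}.Infinite := by
  filter_upwards [h] with ω hω
  exact Pool.Agent.H34.ND.inf_of_upper hω

/-- a positive value in the range of the models with hard-core blocks -/
theorem core_value {m : ℕ → ℕ} {c ρ : ℝ} (hc : 0 ≤ c)
    (hm : ∀ ε : ℝ, 0 < ε → ∀ᶠ n : ℕ in atTop, (c - ε) * Real.log n ≤ m n) (hρ : 1 ≤ ρ)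
    (htau : ∀ σ < ρ, ∃ i, σ < tau c i) : IsValue m ((1 / ρ : ℝ) : EReal) := by
  obtain ⟨Ω, mΩ, P, hP, E, φ, hB, hM, hq⟩ := exists_core m c fun _ => ρ
  have hρ0 : 0 < ρ := by linarith
  have hs := short_blk one_le_hlen hlen_short
  have htend := blk_tendsto one_le_hlen
  have hup : ∀ lam : ℝ, 0 ≤ lam → ((1 / ρ : ℝ) : EReal) < lam → ∃ σ : ℝ, 0 < σ ∧ 1 < lam * σ ∧
      ∀ᶠ j : ℕ in atTop, φ j (Finset.Ioc (blk hlen j) (blk hlen (j + 1))) ≤
        Real.exp (-(σ * ((blk hlen (j + 1) : ℝ) - blk hlen j) / Real.log (blk hlen j))) := by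
    intro lam hlam hlt
    rw [EReal.coe_lt_coe_iff, div_lt_iff₀ hρ0] at hlt
    obtain ⟨σ, hσ0, hσ1, hσ2⟩ := exists_lt_between hρ0 hlt
    refine ⟨σ, hσ0, hσ2, ?_⟩
    obtain ⟨i, hi⟩ := htau σ hσ1
    filter_upwards [htend.eventually (ev_zmin hc hm hσ0.le hi),
      htend.eventually (ev_rate hσ1)] with j h1 h2
    rw [hq, blk_diff]
    refine (min_le_right _ _).trans (max_le h1 (Real.exp_le_exp.2 (neg_le_neg ?_)))
    rw [mul_div_right_comm, mul_div_right_comm]
    exact mul_le_mul_of_nonneg_right h2 (Nat.cast_nonneg _)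
  have hinf : ∀ᵐ ω ∂P, {n | ω ∈ E n}.Infinite := by
    obtain ⟨σ, h1, h2, h3⟩ := hup (1 / ρ + 1) (by positivity) (by
      rw [EReal.coe_lt_coe_iff]
      linarith)
    exact infinite_of_upper (hB.upper hs h1 (by positivity) h2 h3)
  refine ⟨Ω, mΩ, P, hP, E, hM, value_of_blocks hB hs hinf ?_ hup ?_⟩
  · have : (0:ℝ) ≤ 1 / ρ := by positivity
    exact_mod_cast this
  · intro lam hlam hlt
    rw [EReal.coe_lt_coe_iff, lt_div_iff₀ hρ0] at hlt
    obtain ⟨σ, hσ1, hσ2⟩ := exists_pos_between hlt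
    refine ⟨σ, by linarith, hσ2, ?_⟩
    filter_upwards [htend.eventually (ev_rate' hσ1 (by linarith)),
      htend.eventually (ev_log_ge 1)] with j h1 h2
    rw [hq, blk_diff]
    set b := blk hlen j
    apply le_min
    · have h3 := inv_LL_le b
      refine le_trans ?_ (one_sub_pow_ge_exp (by linarith) (hlen b))
      apply Real.exp_le_exp.2
      apply neg_le_neg
      rw [mul_div_right_comm, mul_comm]
      apply mul_le_mul_of_nonneg_right _ (Nat.cast_nonneg _)
      have h4 : LL b = 2 + Real.log b := rfl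
      have h5 := LL_pos b
      have h6 : 1 / LL b / (1 - 1 / LL b) = 1 / (LL b - 1) := by
        have h7 : LL b - 1 ≠ 0 := by rw [h4]; linarith
        field_simp
      rw [h6, div_le_div_iff₀ (by rw [h4]; linarith) (by linarith), h4]
      nlinarith
    · apply le_max_of_le_right
      apply Real.exp_le_exp.2
      apply neg_le_neg
      rw [mul_div_right_comm, mul_div_right_comm]
      exact mul_le_mul_of_nonneg_right h1 (Nat.cast_nonneg _)

/-- the value zero above the threshold -/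
theorem core_value_zero {m : ℕ → ℕ} {c : ℝ} (hc : 0 ≤ c)
    (hm : ∀ ε : ℝ, 0 < ε → ∀ᶠ n : ℕ in atTop, (c - ε) * Real.log n ≤ m n)
    (htau : ∀ σ, ∃ i, σ < tau c i) : IsValue m 0 := by
  obtain ⟨Ω, mΩ, P, hP, E, φ, hB, hM, hq⟩ := exists_core m c fun b => LL b
  have hs := short_blk one_le_hlen hlen_short
  have htend := blk_tendsto one_le_hlen
  have hup : ∀ lam : ℝ, 0 ≤ lam → (0 : EReal) < lam → ∃ σ : ℝ, 0 < σ ∧ 1 < lam * σ ∧
      ∀ᶠ j : ℕ in atTop, φ j (Finset.Ioc (blk hlen j) (blk hlen (j + 1))) ≤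
        Real.exp (-(σ * ((blk hlen (j + 1) : ℝ) - blk hlen j) / Real.log (blk hlen j))) := by
    intro lam hlam hlt
    have hlam0 : 0 < lam := by exact_mod_cast hlt
    refine ⟨2 / lam, by positivity, by field_simp; norm_num, ?_⟩
    obtain ⟨i, hi⟩ := htau (2 / lam)
    filter_upwards [htend.eventually (ev_zmin hc hm (by positivity) hi),
      htend.eventually (ev_log_ge (2 / lam)), htend.eventually (ev_log_ge 1)] with j h1 h2 h3
    rw [hq, blk_diff]
    set b := blk hlen j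
    refine (min_le_right _ _).trans (max_le h1 (Real.exp_le_exp.2 (neg_le_neg ?_)))
    have h4 := LL_pos b
    rw [mul_div_right_comm, mul_div_right_comm]
    apply mul_le_mul_of_nonneg_right _ (Nat.cast_nonneg _)
    rw [div_self h4.ne', div_le_one (by linarith)]
    exact h2
  have hinf : ∀ᵐ ω ∂P, {n | ω ∈ E n}.Infinite := by
    obtain ⟨σ, h1, h2, h3⟩ := hup 1 (by norm_num) (by norm_num)
    exact infinite_of_upper (hB.upper hs h1 (by norm_num) h2 h3)
  refine ⟨Ω, mΩ, P, hP, E, hM, value_of_blocks hB hs hinf le_rfl hup ?_⟩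
  intro lam hlam hlt
  exfalso
  have : lam < 0 := by exact_mod_cast hlt
  linarith

end Pool.Agent.H41.LD
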