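import Pool.Agent.H41.LD.Low

/-! # Zero-one law, infinitude and upper bounds -/

set_option autoImplicit false

namespace Pool.Agent.H41.LD

open MeasureTheory Filter Topology ProbabilityTheory
open Pool.Agent.H34.ND (Free cramerConst)

/-- For all large `x` there is an element in `(x, x + lam * (log x) ^ 2]`. -/
def Upper (A : Set ℕ) (lam : ℝ) : Prop :=
  ∀ᶠ x : ℕ in atTop, ∃ n : ℕ, x < n ∧ (n : ℝ) ≤ x + lam * Real.log x ^ 2 ∧ n ∈ A

lemma upper_meas {Ω : Type*} {E : ℕ → Set Ω} (lam : ℝ) (N : ℕ) : MeasurableSet[Future E N] {ω | Upper {n | ω ∈ E n} lam} := by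
  have h1 : {ω | Upper {n | ω ∈ E n} lam} = ⋃ k : ℕ, ⋂ x : ℕ, ⋂ _ : k + N ≤ x,
      ⋃ n : ℕ, ⋃ _ : x < n ∧ (n : ℝ) ≤ x + lam * Real.log x ^ 2, E n := by
    ext ω
    simp only [Upper, eventually_atTop, Set.mem_iUnion, Set.mem_iInter, exists_prop]
    constructor
    · rintro ⟨k, hk⟩
      refine ⟨k, fun x hx => ?_⟩
      obtain ⟨n, h1, h2, h3⟩ := hk x (by omega)
      exact ⟨n, ⟨h1, h2⟩, h3⟩
    · rintro ⟨k, hk⟩
      refine ⟨k + N, fun x hx => ?_⟩
      obtain ⟨n, ⟨h1, h2⟩, h3⟩ := hk x hx
      exact ⟨n, h1, h2, h3⟩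
  rw [h1]
  refine MeasurableSet.iUnion fun k => MeasurableSet.iInter fun x => MeasurableSet.iInter fun hx =>
    MeasurableSet.iUnion fun n => MeasurableSet.iUnion fun hn => event_future (by omega)

variable {Ω : Type*} [mΩ : MeasurableSpace Ω] {P : Measure Ω} {E : ℕ → Set Ω} {m : ℕ → ℕ}
  [IsProbabilityMeasure P]

lemma RangeDep.zero_one (h : RangeDep P E m) {T : Set Ω}
    (hT : ∀ N, MeasurableSet[Future E N] T) : P T = 0 ∨ P T = 1 := by
  have h1 : ∀ n, Indep (Past E n) (MeasurableSpace.generateFrom {T}) P := by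
    intro n
    apply indep_of_indep_of_le_right (h.indep n)
    apply MeasurableSpace.generateFrom_le
    rintro s hs
    rw [Set.mem_singleton_iff.1 hs]
    exact hT _
  have hle : MeasurableSpace.generateFrom {T} ≤ mΩ := by
    apply MeasurableSpace.generateFrom_le
    rintro s hs
    rw [Set.mem_singleton_iff.1 hs]
    exact future_le h.meas 0 _ (hT 0)
  have h2 : Indep (⨆ n, Past E n) (MeasurableSpace.generateFrom {T}) P :=
    indep_iSup_of_monotone h1 (fun n => past_le h.meas n) hle fun i j hij => past_mono hij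
  have h3 : Future E 0 ≤ ⨆ n, Past E n := by
    apply MeasurableSpace.generateFrom_le
    rintro s ⟨k, _, rfl⟩
    exact le_iSup (fun n => Past E n) k _ (event_past le_rfl)
  have h4 := (Indep_iff _ _ P).1 h2 T T (h3 T (hT 0))
    (MeasurableSpace.measurableSet_generateFrom (Set.mem_singleton T))
  rw [Set.inter_self] at h4
  have h5 : P T ≠ ⊤ := measure_ne_top _ _
  by_cases h0 : P T = 0
  · exact Or.inl h0
  · right
    have h6 : P T * 1 = P T * P T := by rw [mul_one]; exact h4
    exact ((ENNReal.mul_right_inj h0 h5).1 h6).symm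

lemma cramer_nonneg {A : Set ℕ} (hA : A.Infinite) : 0 ≤ cramerConst A := by
  have := Pool.Agent.H34.ND.le_cramer hA (lam := 0) le_rfl (Eventually.frequently ?_)
  · simpa using this
  · exact Eventually.of_forall fun x n h1 h2 => by
      rw [zero_mul, add_zero] at h2
      have : n ≤ x := by exact_mod_cast h2
      omega

lemma le_cramer_of_not_upper {A : Set ℕ} (hA : A.Infinite) {lam : ℝ} (hlam : 0 ≤ lam)
    (h : ¬ Upper A lam) : (lam : EReal) ≤ cramerConst A := by
  apply Pool.Agent.H34.ND.le_cramer hA hlam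
  unfold Upper at h
  rw [not_eventually] at h
  refine h.mono fun x hx => ?_
  push Not at hx
  intro n h1 h2 h3
  exact hx n h1 h2 h3

/-- Cramér's constant is almost surely constant. -/
lemma RangeDep.const (h : RangeDep P E m) (hinf : ∀ᵐ ω ∂P, {n | ω ∈ E n}.Infinite) :
    ∃ l : EReal, 0 ≤ l ∧ ∀ᵐ ω ∂P, {n | ω ∈ E n}.Infinite ∧ cramerConst {n | ω ∈ E n} = l := by
  set T : ℚ → Set Ω := fun q => {ω | Upper {n | ω ∈ E n} (q : ℝ)} with hT
  set l : EReal := sInf {x : EReal | ∃ q : ℚ, P (T q) = 1 ∧ x = ((q : ℝ) : EReal)} with hl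
  have hq : ∀ᵐ ω ∂P, ∀ q : ℚ, (P (T q) = 1 → ω ∈ T q) ∧ (P (T q) ≠ 1 → ω ∉ T q) := by
    rw [ae_all_iff]
    intro q
    have hmeas : MeasurableSet (T q) := future_le h.meas 0 _ (upper_meas _ 0)
    rcases h.zero_one (T := T q) (fun N => upper_meas _ N) with h0 | h1
    · have h2 : ∀ᵐ ω ∂P, ω ∉ T q := measure_eq_zero_iff_ae_notMem.1 h0
      filter_upwards [h2] with ω hω
      exact ⟨fun h3 => absurd h3 (by rw [h0]; exact zero_ne_one), fun _ => hω⟩
    · have h2 : ∀ᵐ ω ∂P, ω ∈ T q := by
        rw [ae_iff]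
        have h3 : {ω | ω ∉ T q} = (T q)ᶜ := rfl
        rw [h3, prob_compl_eq_zero_iff hmeas]
        exact h1
      filter_upwards [h2] with ω hω
      exact ⟨fun _ => hω, fun h3 => absurd h1 h3⟩
  have hval : ∀ᵐ ω ∂P, {n | ω ∈ E n}.Infinite ∧ cramerConst {n | ω ∈ E n} = l := by
    filter_upwards [hq, hinf] with ω hω hA
    refine ⟨hA, le_antisymm ?_ ?_⟩
    · apply le_sInf
      rintro x ⟨q, hq1, rfl⟩
      exact Pool.Agent.H34.ND.cramer_le ((hω q).1 hq1)
    · by_contra hcon
      rw [not_le] at hcon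
      obtain ⟨q, hq1, hq2⟩ := EReal.lt_iff_exists_rat_btwn.1 hcon
      have hq0 : (0:EReal) < ((q : ℝ) : EReal) := lt_of_le_of_lt (cramer_nonneg hA) hq1
      have hq0' : (0:ℝ) ≤ q := by
        have : (0:ℝ) < q := by exact_mod_cast hq0
        exact this.le
      by_cases h1 : P (T q) = 1
      · have h2 : l ≤ ((q : ℝ) : EReal) := sInf_le ⟨q, h1, rfl⟩
        exact absurd hq2 (not_lt.2 h2)
      · have h2 := le_cramer_of_not_upper hA hq0' ((hω q).2 h1)
        exact absurd hq1 (not_lt.2 h2)
  refine ⟨l, ?_, hval⟩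
  obtain ⟨ω, h1, h2⟩ := hval.exists
  rw [← h2]
  exact cramer_nonneg h1

/-! ### upper bounds -/

lemma RangeDep.free_le_prod (h : RangeDep P E m) {a : ℕ} {t : ℕ → ℕ} (h0 : a < t 0)
    (ht : ∀ i, t i + m (t i) < t (i + 1)) (k : ℕ) :
    P.real (Free E a (t k)) ≤ ∏ i ∈ Finset.range (k + 1), (1 - P.real (E (t i))) := by
  have hnn : ∀ i, 0 ≤ 1 - P.real (E (t i)) := fun i => by
    have : P.real (E (t i)) ≤ 1 := measureReal_le_one
    linarith
  induction k with
  | zero =>
    rw [zero_add, Finset.prod_range_one, ← probReal_compl_eq_one_sub (h.meas _)]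
    have h1 : Free E a (t 0) ⊆ (E (t 0))ᶜ := fun ω hω => hω (t 0) h0 le_rfl
    exact measureReal_mono h1
  | succ k ih =>
    rw [Finset.prod_range_succ]
    have h1 : Free E a (t (k + 1)) ⊆ Free E a (t k) ∩ (E (t (k + 1)))ᶜ := by
      intro ω hω
      have h2 : t k < t (k + 1) := by
        have := ht k
        omega
      have h3 : a < t (k + 1) := by
        have : ∀ j, a < t j := by
          intro j
          induction j with
          | zero => exact h0
          | succ j ihj =>
            have := ht j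
            omega
        exact this _
      exact ⟨fun n h4 h5 => hω n h4 (by omega), hω _ h3 le_rfl⟩
    have h2 := indep_real (h.indep (t k)) (free_past (E := E) a (t k))
      ((event_future (E := E) (ht k)).compl)
    rw [probReal_compl_eq_one_sub (h.meas _)] at h2
    calc P.real (Free E a (t (k + 1))) ≤ P.real (Free E a (t k) ∩ (E (t (k + 1)))ᶜ) :=
          measureReal_mono h1
      _ = P.real (Free E a (t k)) * (1 - P.real (E (t (k + 1)))) := h2
      _ ≤ _ := mul_le_mul_of_nonneg_right ih (hnn _)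

lemma RangeDep.free_le_exp (h : RangeDep P E m) {a : ℕ} {t : ℕ → ℕ} (h0 : a < t 0)
    (ht : ∀ i, t i + m (t i) < t (i + 1)) (k : ℕ) :
    P.real (Free E a (t k)) ≤ Real.exp (-∑ i ∈ Finset.range (k + 1), P.real (E (t i))) := by
  refine (h.free_le_prod h0 ht k).trans ?_
  rw [← Finset.sum_neg_distrib, Real.exp_sum]
  refine Finset.prod_le_prod (fun i _ => ?_) fun i _ => ?_
  · have : P.real (E (t i)) ≤ 1 := measureReal_le_one
    linarith
  · have := Real.add_one_le_exp (-P.real (E (t i)))
    linarith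

/-- the random set is infinite -/
lemma Model.infinite (h : Model P E m) (hm : ∀ᶠ n : ℕ in atTop, m n ^ 2 ≤ n) :
    ∀ᵐ ω ∂P, {n | ω ∈ E n}.Infinite := by
  obtain ⟨n₁, hn₁⟩ := eventually_atTop.1 hm
  have hd : ∀ᶠ n : ℕ in atTop, 1 / 2 < P.real (E n) * Real.log n :=
    h.dens.eventually (lt_mem_nhds (by norm_num))
  obtain ⟨n₂, hn₂⟩ := eventually_atTop.1 hd
  have hzero : ∀ a : ℕ, P.real {ω | ∀ n, a < n → ω ∉ E n} = 0 := by
    intro a
    set A : ℕ := a + n₁ + n₂ + 3 with hA
    -- the sequence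
    set t : ℕ → ℕ := fun i => Nat.rec A (fun _ s => s + m s + 1) i with ht
    have ht0 : t 0 = A := rfl
    have hts : ∀ i, t (i + 1) = t i + m (t i) + 1 := fun i => rfl
    have htA : ∀ i, A ≤ t i := by
      intro i
      induction i with
      | zero => exact le_rfl
      | succ i ih =>
        rw [hts]
        omega
    have htle : ∀ i, t i ≤ (i + A) ^ 2 := by
      intro i
      induction i with
      | zero =>
        rw [ht0, zero_add, sq]
        exact Nat.le_mul_of_pos_left _ (by omega)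
      | succ i ih =>
        rw [hts]
        have h1 := hn₁ (t i) (by have := htA i; omega)
        have h2 : m (t i) ≤ i + A := by
          have h3 : m (t i) ^ 2 ≤ (i + A) ^ 2 := h1.trans ih
          exact (Nat.pow_le_pow_iff_left (by norm_num)).1 h3
        have h3 : (i + 1 + A) ^ 2 = (i + A) ^ 2 + 2 * (i + A) + 1 := by ring
        rw [h3]
        omega
    have hp : ∀ i : ℕ, 1 / (4 * ((i : ℝ) + A)) ≤ P.real (E (t i)) := by
      intro i
      have h1 := hn₂ (t i) (by have := htA i; omega)
      have h2 : Real.log (t i) ≤ 2 * ((i : ℝ) + A) := by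
        have h3 : ((t i : ℕ) : ℝ) ≤ ((i : ℝ) + A) ^ 2 := by exact_mod_cast htle i
        have h4 : (0:ℝ) < t i := by
          have := htA i
          have h5 : 0 < t i := by omega
          exact_mod_cast h5
        calc Real.log (t i) ≤ Real.log (((i : ℝ) + A) ^ 2) := Real.log_le_log h4 h3
          _ = 2 * Real.log ((i : ℝ) + A) := by rw [Real.log_pow]; norm_num
          _ ≤ 2 * ((i : ℝ) + A) := by
            have h6 : (0:ℝ) ≤ (i : ℝ) + A := by positivity
            have := Real.log_le_self h6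
            linarith
      have h5 : (0:ℝ) < (i : ℝ) + A := by
        have : (0:ℝ) < A := by
          have : 0 < A := by omega
          exact_mod_cast this
        positivity
      rw [div_le_iff₀ (by positivity)]
      have h6 : P.real (E (t i)) * Real.log (t i) ≤ P.real (E (t i)) * (2 * ((i : ℝ) + A)) :=
        mul_le_mul_of_nonneg_left h2 measureReal_nonneg
      linarith
    have hdiv : Tendsto (fun k : ℕ => ∑ i ∈ Finset.range (k + 1), P.real (E (t i))) atTop
        atTop := by
      have h1 : ¬ Summable fun i : ℕ => P.real (E (t i)) := by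
        intro hs
        have h2 : Summable fun i : ℕ => 1 / (4 * ((i : ℝ) + A)) := by
          apply Summable.of_nonneg_of_le (fun i => by positivity) hp hs
        have h3 : Summable fun i : ℕ => 1 / (((i + A : ℕ) : ℝ)) := by
          have h4 := h2.mul_left 4
          refine h4.congr fun i => ?_
          push_cast
          by_cases h5 : (i : ℝ) + A = 0
          · rw [h5]
            simp
          · field_simp
        exact Real.not_summable_one_div_natCast ((summable_nat_add_iff A).1 h3)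
      have h2 := (not_summable_iff_tendsto_nat_atTop_of_nonneg
        (fun i => measureReal_nonneg)).1 h1
      exact h2.comp (tendsto_add_atTop_nat 1)
    have hlim : Tendsto (fun k : ℕ => Real.exp (-∑ i ∈ Finset.range (k + 1), P.real (E (t i))))
        atTop (𝓝 0) := Real.tendsto_exp_neg_atTop_nhds_zero.comp hdiv
    have hle : ∀ k, P.real {ω | ∀ n, a < n → ω ∉ E n} ≤
        Real.exp (-∑ i ∈ Finset.range (k + 1), P.real (E (t i))) := by
      intro k
      refine le_trans (measureReal_mono ?_) (h.range.free_le_exp (a := a) (t := t) ?_ ?_ k)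
      · intro ω hω n h1 _
        exact hω n h1
      · rw [ht0]
        omega
      · intro i
        rw [hts]
        omega
    have h1 := ge_of_tendsto' hlim hle
    exact le_antisymm h1 measureReal_nonneg
  have hae : ∀ᵐ ω ∂P, ∀ a : ℕ, ¬ ∀ n, a < n → ω ∉ E n := by
    rw [ae_all_iff]
    intro a
    rw [ae_iff]
    simp only [not_not]
    have := hzero a
    rwa [measureReal_def, ENNReal.toReal_eq_zero_iff, or_iff_left (measure_ne_top P _)] at this
  filter_upwards [hae] with ω hω
  rw [Set.infinite_iff_exists_gt]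
  intro a
  have := hω a
  push Not at this
  obtain ⟨n, hn1, hn2⟩ := this
  exact ⟨n, hn2, hn1⟩

lemma upper_of_bound {lam β : ℝ} (hlam : 0 ≤ lam) (hβ : 1 < β)
    (h : ∀ᶠ x : ℕ in atTop, P.real (Free E x (x + ⌊lam * Real.log x ^ 2⌋₊)) ≤
      Real.exp (-(β * Real.log x))) : ∀ᵐ ω ∂P, Upper {n | ω ∈ E n} lam := by
  have hsum : Summable fun x : ℕ => P.real (Free E x (x + ⌊lam * Real.log x ^ 2⌋₊)) := by
    have h2 : Summable fun x : ℕ => ((x : ℝ) ^ β)⁻¹ := Real.summable_nat_rpow_inv.2 hβ
    apply Summable.of_norm_bounded_eventually_nat h2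
    filter_upwards [h, eventually_gt_atTop 0] with x hx hx0
    rw [Real.norm_of_nonneg measureReal_nonneg]
    refine hx.trans (le_of_eq ?_)
    rw [Real.exp_neg]
    congr 1
    rw [mul_comm, Real.exp_mul, exp_log_nat hx0]
  filter_upwards [Pool.Agent.H34.ND.bc_upper hsum] with ω hω
  filter_upwards [hω] with x hx
  by_contra hcon
  push Not at hcon
  apply hx
  intro n h1 h2 h3
  refine hcon n h1 ?_ h3
  have h4 : (n : ℝ) ≤ ((x + ⌊lam * Real.log x ^ 2⌋₊ : ℕ) : ℝ) := by exact_mod_cast h2
  have h5 : (⌊lam * Real.log x ^ 2⌋₊ : ℝ) ≤ lam * Real.log x ^ 2 := Nat.floor_le (by positivity)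
  push_cast at h4
  linarith

end Pool.Agent.H41.LD
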